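import Mathlib
import Pool.Agent.H.MP_7d3ffc_al.Val

/-!
Families of idempotent matrices attached to the characters of a finite group: definitions and
elementary lemmas.
-/

namespace Pool.Agent.H.MP_7d3ffc_al

open Finset

variable {Γ₀ : Type*} [LinearOrderedCommGroupWithZero Γ₀]

/-- An idempotent matrix with all entries of value less than one is zero.
Proof: let `M a b` be an entry of maximal value (if `n` is empty `M = 0`); from `M a b = ∑ M a c M c b`,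
`v (M a b) ≤ v (M a b) ^ 2`, so `v (M a b) = 0` as `v (M a b) < 1`. -/
theorem eq_zero_of_small (v : Valuation ℂ Γ₀) {n : Type*} [Fintype n] [DecidableEq n]
    (M : Matrix n n ℂ) (hM : M * M = M) (h : ∀ a b, v (M a b) < 1) : M = 0 := by
  classical
  by_cases hn : Nonempty n
  · obtain ⟨ab, _, hab⟩ := Finset.exists_max_image (Finset.univ : Finset (n × n))
      (fun ab => v (M ab.1 ab.2)) Finset.univ_nonempty
    have hmax : ∀ a b, v (M a b) ≤ v (M ab.1 ab.2) := fun a b => hab (a, b) (Finset.mem_univ _)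
    have h1 : v (M ab.1 ab.2) ≤ v (M ab.1 ab.2) * v (M ab.1 ab.2) := by
      have h2 : M ab.1 ab.2 = ∑ c, M ab.1 c * M c ab.2 := by
        rw [← Matrix.mul_apply, hM]
      conv_lhs => rw [h2]
      refine v.map_sum_le fun c _ => ?_
      rw [map_mul]
      exact mul_le_mul' (hmax _ _) (hmax _ _)
    have h3 : v (M ab.1 ab.2) = 0 := by
      by_contra h4
      have h5 : v (M ab.1 ab.2) * v (M ab.1 ab.2) < v (M ab.1 ab.2) * 1 :=
        mul_lt_mul_of_pos_left (h _ _) (zero_lt_iff.2 h4)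
      rw [mul_one] at h5
      exact absurd h1 (not_le.2 h5)
    ext a b
    have h6 := hmax a b
    rw [h3, le_zero_iff, Valuation.zero_iff] at h6
    rw [h6, Matrix.zero_apply]
  · ext a b
    exact absurd ⟨a⟩ hn

/-- Idempotents `E χ` (`χ ∈ K`) such that the entries of `∑ χ(x) E χ` have value at most
`v(p)^{1/2}` for all `x`. -/
def GHyp (v : Valuation ℂ Γ₀) (p : ℕ) {Q : Type*} [Group Q] {n : Type*} [Fintype n]
    [DecidableEq n] (K : Finset (Q →* ℂˣ)) (E : (Q →* ℂˣ) → Matrix n n ℂ) : Prop :=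
  (∀ χ ∈ K, E χ * E χ = E χ) ∧
    ∀ x : Q, ∀ a b, v ((∑ χ ∈ K, ((χ x : ℂˣ) : ℂ) • E χ) a b) ^ 2 ≤ v (p : ℂ)

/-- Products of factors `χ(x) - c` with `v c ≤ 1`. Proof: induction on `l` for all `y`:
`(χ(x) - c) f(χ) χ(y) = f(χ) χ(x y) - c f(χ) χ(y)`. -/
theorem GHyp.prod_le {v : Valuation ℂ Γ₀} {p : ℕ} {Q : Type*} [Group Q] {n : Type*}
    [Fintype n] [DecidableEq n] {K : Finset (Q →* ℂˣ)} {E : (Q →* ℂˣ) → Matrix n n ℂ}
    (h : GHyp v p K E) (l : List (Q × ℂ)) (hl : ∀ t ∈ l, v t.2 ≤ 1) (y : Q) (a b : n) :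
    v ((∑ χ ∈ K, ((l.map (fun t => ((χ t.1 : ℂˣ) : ℂ) - t.2)).prod * ((χ y : ℂˣ) : ℂ)) • E χ)
      a b) ^ 2 ≤ v (p : ℂ) := by
  induction l generalizing y with
  | nil =>
    simp only [List.map_nil, List.prod_nil, one_mul]
    exact h.2 y a b
  | cons t l ih =>
    have ih' := fun y => ih (fun s hs => hl s (List.mem_cons_of_mem _ hs)) y
    have ht : v t.2 ≤ 1 := hl t List.mem_cons_self
    have e1 : (∑ χ ∈ K, (((t :: l).map (fun t => ((χ t.1 : ℂˣ) : ℂ) - t.2)).prod *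
        ((χ y : ℂˣ) : ℂ)) • E χ) =
        (∑ χ ∈ K, ((l.map (fun t => ((χ t.1 : ℂˣ) : ℂ) - t.2)).prod *
          ((χ (t.1 * y) : ℂˣ) : ℂ)) • E χ) -
        t.2 • (∑ χ ∈ K, ((l.map (fun t => ((χ t.1 : ℂˣ) : ℂ) - t.2)).prod *
          ((χ y : ℂˣ) : ℂ)) • E χ) := by
      rw [Finset.smul_sum, ← Finset.sum_sub_distrib]
      refine Finset.sum_congr rfl fun χ _ => ?_
      rw [smul_smul, ← sub_smul, List.map_cons, List.prod_cons, map_mul, Units.val_mul]
      congr 1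
      ring
    rw [e1, Matrix.sub_apply, Matrix.smul_apply, smul_eq_mul]
    have h1 := ih' (t.1 * y)
    have h2 := ih' y
    set S1 := (∑ χ ∈ K, ((l.map (fun t => ((χ t.1 : ℂˣ) : ℂ) - t.2)).prod *
          ((χ (t.1 * y) : ℂˣ) : ℂ)) • E χ) a b
    set S2 := (∑ χ ∈ K, ((l.map (fun t => ((χ t.1 : ℂˣ) : ℂ) - t.2)).prod *
          ((χ y : ℂˣ) : ℂ)) • E χ) a b
    have h3 : v (t.2 * S2) ≤ v S2 := by
      rw [map_mul]
      calc v t.2 * v S2 ≤ 1 * v S2 := mul_le_mul_left ht _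
        _ = v S2 := one_mul _
    have h4 : v (S1 - t.2 * S2) ≤ max (v S1) (v S2) :=
      (v.map_sub _ _).trans (max_le_max le_rfl h3)
    rcases le_total (v S1) (v S2) with h5 | h5
    · rw [max_eq_right h5] at h4
      exact (pow_le_pow_left' h4 2).trans h2
    · rw [max_eq_left h5] at h4
      exact (pow_le_pow_left' h4 2).trans h1

/-- A character `lam ∈ K` which can be separated from the others by a product `f` of factors with
`v(f(lam))² > v(p)` has `E lam = 0`. Proof: the sum in `prod_le` for `y = 1` is `f(lam) • E lam`, so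
`v(E lam a b)² v(f(lam))² ≤ v(p) < v(f(lam))²` and `E lam` is small; `eq_zero_of_small`. -/
theorem GHyp.eq_zero_of_prod {v : Valuation ℂ Γ₀} {p : ℕ} {Q : Type*} [Group Q] {n : Type*}
    [Fintype n] [DecidableEq n] {K : Finset (Q →* ℂˣ)} {E : (Q →* ℂˣ) → Matrix n n ℂ}
    (h : GHyp v p K E) (lam : Q →* ℂˣ) (hlam : lam ∈ K) (l : List (Q × ℂ))
    (hl : ∀ t ∈ l, v t.2 ≤ 1)
    (h0 : ∀ χ ∈ K, χ ≠ lam → (l.map (fun t => ((χ t.1 : ℂˣ) : ℂ) - t.2)).prod = 0)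
    (h1 : v (p : ℂ) < v (l.map (fun t => ((lam t.1 : ℂˣ) : ℂ) - t.2)).prod ^ 2) : E lam = 0 := by
  refine eq_zero_of_small v (E lam) (h.1 lam hlam) fun a b => ?_
  have h2 := h.prod_le l hl 1 a b
  have e1 : (∑ χ ∈ K, ((l.map (fun t => ((χ t.1 : ℂˣ) : ℂ) - t.2)).prod *
      ((χ 1 : ℂˣ) : ℂ)) • E χ) =
      (l.map (fun t => ((lam t.1 : ℂˣ) : ℂ) - t.2)).prod • E lam := by
    rw [Finset.sum_eq_single lam]
    · rw [map_one, Units.val_one, mul_one]
    · intro χ hχ hne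
      rw [h0 χ hχ hne, zero_mul, zero_smul]
    · intro hne
      exact absurd hlam hne
  rw [e1, Matrix.smul_apply, smul_eq_mul, map_mul] at h2
  by_contra h3
  rw [not_lt] at h3
  have h4 : v (l.map (fun t => ((lam t.1 : ℂˣ) : ℂ) - t.2)).prod ≤
      v (l.map (fun t => ((lam t.1 : ℂˣ) : ℂ) - t.2)).prod * v (E lam a b) := by
    conv_lhs => rw [← mul_one (v (l.map (fun t => ((lam t.1 : ℂˣ) : ℂ) - t.2)).prod)]
    exact mul_le_mul_right h3 _
  exact absurd (h1.trans_le ((pow_le_pow_left' h4 2).trans h2)) (lt_irrefl _)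

theorem Setup_pow_sub (v : Valuation ℂ Γ₀) {z : ℂ} (hz : v z ≤ 1) (j : ℕ) :
    v (z ^ j - 1) ≤ v (z - 1) := by
  have h1 : z ^ j - 1 = (∑ i ∈ range j, z ^ i) * (z - 1) := (geom_sum_mul z j).symm
  rw [h1, map_mul]
  calc v (∑ i ∈ range j, z ^ i) * v (z - 1) ≤ 1 * v (z - 1) := by
        refine mul_le_mul_left ?_ _
        refine v.map_sum_le fun i _ => ?_
        rw [map_pow]
        exact pow_le_one' hz i
    _ = v (z - 1) := one_mul _

/-- `v(z - 1) = v(ζ - 1)` for roots of unity `z ≠ 1`, `z ^ p = 1`. Proof: `z = ζ ^ i`, `ζ = z ^ j` and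
`v(z ^ j - 1) ≤ v(z - 1)` as `z ^ j - 1 = (z - 1) ∑ z ^ k`, `v z = 1` (`val_rootOfUnity`). -/
theorem val_sub_one_eq {p : ℕ} (hp : p.Prime) (v : Valuation ℂ Γ₀) {ζ : ℂ}
    (hζ : IsPrimitiveRoot ζ p) {z : ℂ} (hz : z ^ p = 1) (hz1 : z ≠ 1) :
    v (z - 1) = v (ζ - 1) := by
  have : NeZero p := ⟨hp.ne_zero⟩
  have hzp : IsPrimitiveRoot z p := by
    have h1 : orderOf z = p := by
      rcases (Nat.dvd_prime hp).1 (orderOf_dvd_of_pow_eq_one hz) with h | h
      · exact absurd (orderOf_eq_one_iff.1 h) hz1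
      · exact h
    rw [← h1]
    exact IsPrimitiveRoot.orderOf z
  have hvz : v z ≤ 1 := (val_rootOfUnity v hp.ne_zero hz).le
  have hvζ : v ζ ≤ 1 := (val_rootOfUnity v hp.ne_zero hζ.pow_eq_one).le
  obtain ⟨i, _, hi⟩ := hζ.eq_pow_of_pow_eq_one hz
  obtain ⟨j, _, hj⟩ := hzp.eq_pow_of_pow_eq_one hζ.pow_eq_one
  apply le_antisymm
  · conv_lhs => rw [← hi]
    exact Setup_pow_sub v hvζ i
  · conv_lhs => rw [← hj]
    exact Setup_pow_sub v hvz j

/-- `v(p) = v(ζ - 1)^{p-1}`. Proof: `∏_{0<k<p} (1 - ζ ^ k) = p`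
(`IsPrimitiveRoot.prod_one_sub_pow_eq_order`, see the proof of `val_prime_le` in `Val.lean`) and
`val_sub_one_eq`. -/
theorem val_prime_eq {p : ℕ} (hp : p.Prime) (v : Valuation ℂ Γ₀) {ζ : ℂ}
    (hζ : IsPrimitiveRoot ζ p) : v (p : ℂ) = v (ζ - 1) ^ (p - 1) := by
  obtain ⟨q, hq⟩ : ∃ q, p = q + 1 := ⟨p - 1, (Nat.succ_pred_eq_of_pos hp.pos).symm⟩
  have hprod : ∏ k ∈ range q, (1 - ζ ^ (k + 1)) = (p : ℂ) := by
    have h := IsPrimitiveRoot.prod_one_sub_pow_eq_order (n := q) (μ := ζ) (by rwa [← hq])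
    rw [h, hq]; push_cast; ring
  rw [← hprod, map_prod]
  have h1 : ∀ k ∈ range q, v (1 - ζ ^ (k + 1)) = v (ζ - 1) := by
    intro k hk
    rw [Finset.mem_range] at hk
    rw [Valuation.map_sub_swap]
    refine val_sub_one_eq hp v hζ ?_ ?_
    · rw [← pow_mul, mul_comm, pow_mul, hζ.pow_eq_one, one_pow]
    · exact hζ.pow_ne_one_of_pos_of_lt (Nat.succ_ne_zero k) (by omega)
  rw [Finset.prod_congr rfl h1, Finset.prod_const, card_range, hq]
  simp

/-- `v(p) ≤ v(1 - z)^{p(p-1)}` for roots of unity `z` of `p`-power order with `z ^ p ≠ 1`.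
Proof: `z` is a primitive `p ^ (m+2)`-th root of unity. `Polynomial.eval_one_cyclotomic_prime_pow`:
`p = Φ(1) = ∏ (1 - z')` over the primitive `p ^ (m+2)`-th roots `z'`
(`Polynomial.cyclotomic_eq_prod_X_sub_primitiveRoots` or similar); each `z'` is a power of `z`, so
`v(1 - z') ≤ v(1 - z)`. So `v(p) ≤ v(1 - z) ^ φ(p ^ (m+2))` with
`φ(p ^ (m+2)) = p ^ (m+1) (p - 1) ≥ p (p - 1)`, and `v(1 - z) ≤ 1`. -/
theorem val_prime_le_pow {p : ℕ} (hp : p.Prime) (v : Valuation ℂ Γ₀) {z : ℂ} {n : ℕ}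
    (hz : z ^ p ^ n = 1) (hz1 : z ^ p ≠ 1) : v (p : ℂ) ≤ v (1 - z) ^ (p * (p - 1)) := by
  have : Fact p.Prime := ⟨hp⟩
  have hvz : v z ≤ 1 := (val_rootOfUnity v (pow_ne_zero n hp.ne_zero) hz).le
  obtain ⟨m, hm⟩ : ∃ m, orderOf z = p ^ (m + 2) := by
    have hd : orderOf z ∣ p ^ n := orderOf_dvd_of_pow_eq_one hz
    obtain ⟨m, _, hm⟩ := (Nat.dvd_prime_pow hp).mp hd
    rcases m with _ | _ | m
    · rw [pow_zero, orderOf_eq_one_iff] at hm
      exact absurd (by rw [hm, one_pow]) hz1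
    · rw [zero_add, pow_one] at hm
      exact absurd (by rw [← hm, pow_orderOf_eq_one]) hz1
    · exact ⟨m, hm⟩
  have hprim : IsPrimitiveRoot z (p ^ (m + 2)) := hm ▸ IsPrimitiveRoot.orderOf z
  have : NeZero (p ^ (m + 2)) := ⟨pow_ne_zero _ hp.ne_zero⟩
  have h1 : (p : ℂ) = ∏ μ ∈ primitiveRoots (p ^ (m + 2)) ℂ, (1 - μ) := by
    have h2 := Polynomial.eval_one_cyclotomic_prime_pow (R := ℂ) (p := p) (m + 1)
    rw [← h2, Polynomial.cyclotomic_eq_prod_X_sub_primitiveRoots hprim, Polynomial.eval_prod]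
    refine Finset.prod_congr rfl fun μ _ => ?_
    rw [Polynomial.eval_sub, Polynomial.eval_X, Polynomial.eval_C]
  have h3 : v (p : ℂ) ≤ v (1 - z) ^ (p ^ (m + 2)).totient := by
    conv_lhs => rw [h1]
    rw [map_prod, ← hprim.card_primitiveRoots, ← Finset.prod_const]
    refine Finset.prod_le_prod' fun μ hμ => ?_
    have h4 := isPrimitiveRoot_of_mem_primitiveRoots hμ
    obtain ⟨i, _, hi⟩ := hprim.eq_pow_of_pow_eq_one h4.pow_eq_one
    rw [← hi, Valuation.map_sub_swap, Valuation.map_sub_swap v 1 z]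
    exact Setup_pow_sub v hvz i
  have h5 : v (1 - z) ≤ 1 := by
    refine (v.map_sub _ _).trans (max_le ?_ hvz)
    rw [map_one]
  refine h3.trans (pow_le_pow_right_of_le_one' h5 ?_)
  rw [Nat.totient_prime_pow_succ hp]
  refine Nat.mul_le_mul_right _ ?_
  exact Nat.le_self_pow (Nat.succ_ne_zero m) p

end Pool.Agent.H.MP_7d3ffc_al
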