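import Mathlib
import Pool.Agent.H.MP_7d3ffc_al.GLL.Setup

/-!
Characters not all congruent modulo characters of order `p`.
-/

namespace Pool.Agent.H.MP_7d3ffc_al

open Finset

variable {Γ₀ : Type*} [LinearOrderedCommGroupWithZero Γ₀]

theorem ClassG_factor {p : ℕ} (hp : p.Prime) (v : Valuation ℂ Γ₀) {Q : Type*} [Group Q]
    {k : ℕ} (hk : ∀ g : Q, g ^ p ^ k = 1) (χ ψ : Q →* ℂˣ) (x : Q) (hx : χ x ≠ ψ x) :
    v (p : ℂ) ^ p ≤ v (((ψ x : ℂˣ) : ℂ) - ((χ x : ℂˣ) : ℂ)) ^ (p * (p - 1)) ∧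
      ((χ x) ^ p ≠ (ψ x) ^ p →
        v (p : ℂ) ≤ v (((ψ x : ℂˣ) : ℂ) - ((χ x : ℂˣ) : ℂ)) ^ (p * (p - 1))) := by
  obtain ⟨z, hz⟩ : ∃ z : ℂˣ, z = χ x / ψ x := ⟨_, rfl⟩
  have hψ : ((ψ x : ℂˣ) : ℂ) ^ p ^ k = 1 := by
    rw [← Units.val_pow_eq_pow_val, ← map_pow, hk, map_one, Units.val_one]
  have hvψ : v ((ψ x : ℂˣ) : ℂ) = 1 := val_rootOfUnity v (pow_ne_zero k hp.ne_zero) hψ
  have hχz : χ x = ψ x * z := by rw [hz, mul_div_cancel]
  have hzk : (z : ℂ) ^ p ^ k = 1 := by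
    have h1 : z ^ p ^ k = 1 := by
      rw [hz, div_pow, ← map_pow, ← map_pow, hk, map_one, map_one, div_one]
    rw [← Units.val_pow_eq_pow_val, h1, Units.val_one]
  have he : v (((ψ x : ℂˣ) : ℂ) - ((χ x : ℂˣ) : ℂ)) = v (1 - (z : ℂ)) := by
    have h1 : ((ψ x : ℂˣ) : ℂ) - ((χ x : ℂˣ) : ℂ) = ((ψ x : ℂˣ) : ℂ) * (1 - (z : ℂ)) := by
      rw [hχz, Units.val_mul]
      ring
    rw [h1, map_mul, hvψ, one_mul]
  rw [he]
  constructor
  · have hz1 : (z : ℂ) ≠ 1 := by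
      intro h
      apply hx
      have h2 : z = 1 := Units.ext h
      rw [hχz, h2, mul_one]
    have h1 := val_prime_le v hp hzk hz1
    calc v (p : ℂ) ^ p ≤ (v (1 - (z : ℂ)) ^ (p - 1)) ^ p := by gcongr
      _ = v (1 - (z : ℂ)) ^ (p * (p - 1)) := by rw [← pow_mul, mul_comm]
  · intro h
    refine val_prime_le_pow hp v hzk ?_
    intro h1
    apply h
    have h2 : z ^ p = 1 := by
      apply Units.ext
      rw [Units.val_pow_eq_pow_val, h1, Units.val_one]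
    rw [hχz, mul_pow, h2, mul_one]

theorem ClassG_main {p : ℕ} (hp : p.Prime) (v : Valuation ℂ Γ₀) (hv : v (p : ℂ) < 1) {Q : Type*}
    [Group Q] {k : ℕ} (hk : ∀ g : Q, g ^ p ^ k = 1) {n : Type*} [Fintype n] [DecidableEq n]
    {K : Finset (Q →* ℂˣ)} {E : (Q →* ℂˣ) → Matrix n n ℂ} (h : GHyp v p K E)
    (hK : K.card < p) (ψ : Q →* ℂˣ) (hψ : ψ ∈ K) (C : Finset (Q →* ℂˣ))
    (hC : ∀ χ, χ ∈ C ↔ χ ∈ K ∧ χ ^ p = ψ ^ p) (hcard : 2 * C.card ≤ K.card) : E ψ = 0 := by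
  classical
  have hX : ∀ χ : Q →* ℂˣ, ∃ x : Q, χ ≠ ψ → (χ x ≠ ψ x ∧ (χ ^ p ≠ ψ ^ p → (χ x) ^ p ≠ (ψ x) ^ p)) := by
    intro χ
    by_cases h1 : χ ^ p = ψ ^ p
    · by_cases h2 : χ = ψ
      · exact ⟨1, fun h3 => absurd h2 h3⟩
      · have h3 : ∃ x, χ x ≠ ψ x := by
          by_contra h4
          push Not at h4
          exact h2 (MonoidHom.ext h4)
        obtain ⟨x, hx⟩ := h3
        exact ⟨x, fun _ => ⟨hx, fun h4 => absurd h1 h4⟩⟩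
    · have h3 : ∃ x, (χ ^ p) x ≠ (ψ ^ p) x := by
        by_contra h4
        push Not at h4
        exact h1 (MonoidHom.ext h4)
      obtain ⟨x, hx⟩ := h3
      refine ⟨x, fun _ => ⟨fun h4 => hx ?_, fun _ => hx⟩⟩
      rw [MonoidHom.pow_apply, MonoidHom.pow_apply, h4]
  choose X hX using hX
  have hv1 : ∀ (χ : Q →* ℂˣ) (x : Q), v ((χ x : ℂˣ) : ℂ) = 1 := by
    intro χ x
    refine val_rootOfUnity v (pow_ne_zero k hp.ne_zero) ?_
    rw [← Units.val_pow_eq_pow_val, ← map_pow, hk, map_one, Units.val_one]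
  have hp0 : (0 : Γ₀) < v (p : ℂ) := by
    rw [zero_lt_iff, Valuation.ne_zero_iff]
    exact Nat.cast_ne_zero.2 hp.ne_zero
  let l : List (Q × ℂ) := (K.erase ψ).toList.map fun χ => (X χ, ((χ (X χ) : ℂˣ) : ℂ))
  refine h.eq_zero_of_prod ψ hψ l ?_ ?_ ?_
  · intro t ht
    obtain ⟨χ, -, rfl⟩ := List.mem_map.1 ht
    exact (hv1 χ _).le
  · intro χ hχ hne
    apply List.prod_eq_zero
    refine List.mem_map.2 ⟨(X χ, ((χ (X χ) : ℂˣ) : ℂ)), ?_, sub_self _⟩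
    exact List.mem_map.2 ⟨χ, Finset.mem_toList.2 (Finset.mem_erase.2 ⟨hne, hχ⟩), rfl⟩
  · have hprod : (l.map (fun t => ((ψ t.1 : ℂˣ) : ℂ) - t.2)).prod =
        ∏ χ ∈ K.erase ψ, (((ψ (X χ) : ℂˣ) : ℂ) - ((χ (X χ) : ℂˣ) : ℂ)) := by
      rw [List.map_map, ← Finset.prod_map_toList]
      rfl
    rw [hprod]
    have hfac : ∀ χ ∈ K.erase ψ, v (p : ℂ) ^ (if χ ∈ C then p else 1) ≤
        v (((ψ (X χ) : ℂˣ) : ℂ) - ((χ (X χ) : ℂˣ) : ℂ)) ^ (p * (p - 1)) := by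
      intro χ hχ
      obtain ⟨hne, hχK⟩ := Finset.mem_erase.1 hχ
      obtain ⟨h1, h2⟩ := hX χ hne
      obtain ⟨h3, h4⟩ := ClassG_factor hp v hk χ ψ (X χ) h1
      split_ifs with h5
      · exact h3
      · rw [pow_one]
        exact h4 (h2 fun h6 => h5 ((hC χ).2 ⟨hχK, h6⟩))
    have hψC : ψ ∈ C := (hC ψ).2 ⟨hψ, rfl⟩
    have hCK : C ⊆ K := fun χ hχ => ((hC χ).1 hχ).1
    have hsum : ∑ χ ∈ K.erase ψ, (if χ ∈ C then p else 1) =
        p * (C.card - 1) + (K.card - C.card) := by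
      have e1 : (K.erase ψ).filter (· ∈ C) = C.erase ψ := by
        ext χ
        simp only [Finset.mem_filter, Finset.mem_erase]
        constructor
        · rintro ⟨⟨h1, -⟩, h2⟩
          exact ⟨h1, h2⟩
        · rintro ⟨h1, h2⟩
          exact ⟨⟨h1, hCK h2⟩, h2⟩
      have e2 : (K.erase ψ).filter (fun χ => ¬ χ ∈ C) = K \ C := by
        ext χ
        simp only [Finset.mem_filter, Finset.mem_erase, Finset.mem_sdiff]
        constructor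
        · rintro ⟨⟨-, h1⟩, h2⟩
          exact ⟨h1, h2⟩
        · rintro ⟨h1, h2⟩
          refine ⟨⟨fun h3 => h2 (h3 ▸ hψC), h1⟩, h2⟩
      rw [Finset.sum_ite, e1, e2, Finset.sum_const, Finset.sum_const, smul_eq_mul, smul_eq_mul,
        mul_one, Finset.card_erase_of_mem hψC, Finset.card_sdiff_of_subset hCK, mul_comm]
    have hmain : v (p : ℂ) ^ (p * (C.card - 1) + (K.card - C.card)) ≤
        v (∏ χ ∈ K.erase ψ, (((ψ (X χ) : ℂˣ) : ℂ) - ((χ (X χ) : ℂˣ) : ℂ))) ^ (p * (p - 1)) := by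
      rw [← hsum, ← Finset.prod_pow_eq_pow_sum, map_prod, ← Finset.prod_pow]
      exact Finset.prod_le_prod' hfac
    have hc1 : 1 ≤ C.card := Finset.card_pos.2 ⟨ψ, hψC⟩
    have hpm : 0 < p * (p - 1) := Nat.mul_pos hp.pos (Nat.sub_pos_of_lt hp.one_lt)
    have hexp : (p * (C.card - 1) + (K.card - C.card)) * 2 < p * (p - 1) := by
      obtain ⟨q, hq⟩ : ∃ q, p = q + 1 := ⟨p - 1, by have := hp.one_lt; omega⟩
      obtain ⟨c, hc⟩ : ∃ c, C.card = c + 1 := ⟨C.card - 1, by omega⟩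
      have e1 : 2 * (c + 1) ≤ q := by omega
      have e2 : K.card - C.card ≤ q - 1 := by omega
      rw [hc, Nat.add_sub_cancel, hq, Nat.add_sub_cancel]
      have e3 : K.card - (c + 1) ≤ q - 1 := by omega
      have e4 : (q + 1) * (2 * (c + 1)) ≤ (q + 1) * q := Nat.mul_le_mul_left _ e1
      have e5 : (q + 1) * (2 * (c + 1)) = ((q + 1) * c) * 2 + 2 * (q + 1) := by ring
      omega
    have h1 : v (p : ℂ) ^ (p * (p - 1)) <
        (v (∏ χ ∈ K.erase ψ, (((ψ (X χ) : ℂˣ) : ℂ) - ((χ (X χ) : ℂˣ) : ℂ))) ^ 2) ^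
          (p * (p - 1)) := by
      calc v (p : ℂ) ^ (p * (p - 1))
          < v (p : ℂ) ^ ((p * (C.card - 1) + (K.card - C.card)) * 2) :=
            pow_lt_pow_right_of_lt_one₀ hp0 hv hexp
        _ = (v (p : ℂ) ^ (p * (C.card - 1) + (K.card - C.card))) ^ 2 := pow_mul _ _ _
        _ ≤ (v (∏ χ ∈ K.erase ψ, (((ψ (X χ) : ℂˣ) : ℂ) - ((χ (X χ) : ℂˣ) : ℂ))) ^
              (p * (p - 1))) ^ 2 := by gcongr
        _ = _ := by rw [← pow_mul, ← pow_mul, mul_comm]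
    exact lt_of_pow_lt_pow_left₀ _ zero_le h1

/-- If `K` contains `lam`, `μ` with `lam ^ p ≠ μ ^ p` then some `E χ` is zero.

Proof. For `ψ ∈ K` let `C ψ = {χ ∈ K | χ ^ p = ψ ^ p}`. As `C lam` and `C μ` are disjoint, one of
them, say `C = C lam` (symmetry: treat `ψ ∈ {lam, μ}`), satisfies `2 |C| ≤ |K| ≤ p - 1`. Show
`E lam = 0` by `GHyp.eq_zero_of_prod`, with the list of the pairs `(x_χ, χ(x_χ))`, `χ ∈ K`, `χ ≠ lam`
(`(K.erase lam).toList.map`), where `x_χ` is chosen as follows. If `χ ^ p = lam ^ p`: any `x` with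
`χ(x) ≠ lam(x)`; then `v(p) ≤ v(lam(x) - χ(x)) ^ (p-1)` (`val_prime_le` in `Val.lean` for
`z = χ(x)/lam(x)`; `v(lam(x)) = 1`), so `v(p) ^ p ≤ v(lam(x) - χ(x)) ^ (p (p-1))`. If
`χ ^ p ≠ lam ^ p`: take `x` with `χ(x)^p ≠ lam(x)^p`; then `v(p) ≤ v(lam(x) - χ(x)) ^ (p (p-1))` by
`val_prime_le_pow`. With `f(lam) = ∏ (lam(x_χ) - χ(x_χ))`:
`v(f(lam)) ^ (p (p-1)) ≥ v(p) ^ (p (|C|-1) + |K| - |C|)`, so
`(v(f(lam)) ^ 2) ^ (p (p-1)) ≥ v(p) ^ (2 p (|C|-1) + 2 (|K| - |C|)) > v(p) ^ (p (p-1))`, because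
`2 p (|C|-1) ≤ p (p-1) - 2 p` and `2 (|K| - |C|) ≤ 2 (p - 2) < 2 p`, and `0 < v(p) < 1`. So
`v(p) < v(f(lam)) ^ 2`. -/
theorem ghyp_class {p : ℕ} [Fact p.Prime] (v : Valuation ℂ Γ₀) (hv : v (p : ℂ) < 1) {Q : Type*}
    [Group Q] [Finite Q] (hQ : IsPGroup p Q) {n : Type*} [Fintype n] [DecidableEq n]
    {K : Finset (Q →* ℂˣ)} {E : (Q →* ℂˣ) → Matrix n n ℂ} (h : GHyp v p K E)
    (hK : K.card < p) (lam μ : Q →* ℂˣ) (hlam : lam ∈ K) (hμ : μ ∈ K) (hne : lam ^ p ≠ μ ^ p) :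
    ∃ χ ∈ K, E χ = 0 := by
  classical
  have hp : p.Prime := Fact.out
  obtain ⟨k, hk⟩ : ∃ k : ℕ, ∀ g : Q, g ^ p ^ k = 1 := by
    obtain ⟨k, hk⟩ := IsPGroup.iff_card.1 hQ
    exact ⟨k, fun g => by rw [← hk, pow_card_eq_one']⟩
  by_cases h1 : 2 * (K.filter fun χ => χ ^ p = lam ^ p).card ≤ K.card
  · exact ⟨lam, hlam, ClassG_main hp v hv hk h hK lam hlam _ (fun χ => Finset.mem_filter) h1⟩
  · refine ⟨μ, hμ, ClassG_main hp v hv hk h hK μ hμ (K.filter fun χ => χ ^ p = μ ^ p)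
      (fun χ => Finset.mem_filter) ?_⟩
    have hdis : Disjoint (K.filter fun χ => χ ^ p = lam ^ p) (K.filter fun χ => χ ^ p = μ ^ p) := by
      rw [Finset.disjoint_left]
      intro χ h2 h3
      exact hne ((Finset.mem_filter.1 h2).2.symm.trans (Finset.mem_filter.1 h3).2)
    have h2 := Finset.card_le_card (Finset.union_subset (Finset.filter_subset (fun χ => χ ^ p = lam ^ p) K)
      (Finset.filter_subset (fun χ => χ ^ p = μ ^ p) K))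
    rw [Finset.card_union_of_disjoint hdis] at h2
    omega

end Pool.Agent.H.MP_7d3ffc_al
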