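import Mathlib
import Pool.Agent.H.MP_7d3ffc_al.Basis

/-!
A matrix representing the trace functional on a commutant.
-/

namespace Pool.Agent.H.MP_7d3ffc_al

open Finset Module

variable {Γ₀ : Type*} [LinearOrderedCommGroupWithZero Γ₀]

/-- `exists_integral_basis` with the additional information that the coordinate functionals are
integral on all vectors on which the functionals `η i` are integral. (Copy the proof of
`exists_integral_basis` in `Basis.lean`: the functionals are `η i₀` and `c j ∘ π`, where
`π y = y - η i₀ y • u`, and `π` preserves the set of all `y` in `V` with `v (η i y) ≤ 1` for all `i`.) -/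
theorem exists_integral_basis' {V : Type*} [AddCommGroup V] [Module ℂ V] {ι : Type*} [Finite ι]
    (v : Valuation ℂ Γ₀) (η : ι → V →ₗ[ℂ] ℂ) (m : ℕ) : ∀ (U : Submodule ℂ V)
    [FiniteDimensional ℂ U],
    finrank ℂ U ≤ m → (∀ y ∈ U, (∀ i, η i y = 0) → y = 0) →
    ∃ (n : ℕ) (b : Fin n → V) (c : Fin n → (V →ₗ[ℂ] ℂ)), (∀ j, b j ∈ U) ∧
      (∀ y ∈ U, y = ∑ j, c j y • b j) ∧ (∀ j k, c j (b k) = if j = k then 1 else 0) ∧
      (∀ y ∈ U, (∀ i, v (η i y) ≤ 1) ↔ ∀ j, v (c j y) ≤ 1) ∧
      (∀ y, (∀ i, v (η i y) ≤ 1) → ∀ j, v (c j y) ≤ 1) := by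
  classical
  induction m with
  | zero =>
    intro U _ hU hsep
    have hU0 : U = ⊥ := Submodule.finrank_eq_zero.mp (Nat.le_zero.mp hU)
    refine ⟨0, Fin.elim0, Fin.elim0, fun j => j.elim0, ?_, fun j => j.elim0, ?_,
      fun y _ j => j.elim0⟩
    · intro y hy
      rw [hU0] at hy
      simpa using (Submodule.mem_bot ℂ).mp hy
    · intro y hy
      rw [hU0] at hy
      have hy0 : y = 0 := (Submodule.mem_bot ℂ).mp hy
      subst hy0
      simp
  | succ m ih =>
    intro U hUfd hU hsep
    by_cases hU0 : U = ⊥
    · refine ⟨0, Fin.elim0, Fin.elim0, fun j => j.elim0, ?_, fun j => j.elim0, ?_,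
      fun y _ j => j.elim0⟩
      · intro y hy
        rw [hU0] at hy
        simpa using (Submodule.mem_bot ℂ).mp hy
      · intro y hy
        rw [hU0] at hy
        have hy0 : y = 0 := (Submodule.mem_bot ℂ).mp hy
        subst hy0
        simp
    · obtain ⟨u0, hu0U, hu0⟩ := Submodule.exists_mem_ne_zero_of_ne_bot hU0
      obtain ⟨i1, hi1⟩ : ∃ i, η i u0 ≠ 0 := by
        by_contra h
        push Not at h
        exact hu0 (hsep u0 hu0U h)
      have : Nonempty ι := ⟨i1⟩
      obtain ⟨i0, hi0⟩ := Finite.exists_max (fun i : ι => v (η i u0))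
      have hi0ne : η i0 u0 ≠ 0 := by
        intro h
        have := hi0 i1
        rw [h, map_zero, le_zero_iff, map_eq_zero] at this
        exact hi1 this
      set u : V := (η i0 u0)⁻¹ • u0 with hu
      have huU : u ∈ U := U.smul_mem _ hu0U
      have hηu : η i0 u = 1 := by
        rw [hu, map_smul, smul_eq_mul, inv_mul_cancel₀ hi0ne]
      have huM : ∀ i, v (η i u) ≤ 1 := by
        intro i
        rw [hu, map_smul, smul_eq_mul, map_mul, map_inv₀]
        have hpos : 0 < v (η i0 u0) := by rw [Valuation.pos_iff]; exact hi0ne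
        rw [inv_mul_le_iff₀ hpos, mul_one]
        exact hi0 i
      let U1 : Submodule ℂ V := U ⊓ LinearMap.ker (η i0)
      have hU1le : U1 ≤ U := inf_le_left
      have hU1lt : U1 < U := by
        refine lt_of_le_of_ne hU1le (fun h => ?_)
        have : u ∈ U1 := h ▸ huU
        have h2 : η i0 u = 0 := this.2
        rw [hηu] at h2
        exact one_ne_zero h2
      have hU1fd : FiniteDimensional ℂ U1 := Submodule.finiteDimensional_of_le hU1le
      have hfin : finrank ℂ U1 < finrank ℂ U := Submodule.finrank_lt_finrank_of_lt hU1lt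
      obtain ⟨n, b, c, hbU, hyb, hcb, hM, hM2⟩ := ih U1 (by omega)
        (fun y hy h => hsep y (hU1le hy) h)
      let π : V →ₗ[ℂ] V := LinearMap.id - (η i0).smulRight u
      have hπ : ∀ y, π y = y - η i0 y • u := fun y => by simp [π]
      have hπU : ∀ y ∈ U, π y ∈ U1 := by
        intro y hy
        refine ⟨?_, ?_⟩
        · rw [hπ]
          exact U.sub_mem hy (U.smul_mem _ huU)
        · change η i0 (π y) = 0
          rw [hπ, map_sub, map_smul, smul_eq_mul, hηu, mul_one, sub_self]
      have hπu : π u = 0 := by rw [hπ, hηu, one_smul, sub_self]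
      have hπ1 : ∀ y ∈ U1, π y = y := by
        intro y hy
        have : η i0 y = 0 := hy.2
        rw [hπ, this, zero_smul, sub_zero]
      refine ⟨n + 1, Fin.cons u b, Fin.cons (η i0) (fun j => c j ∘ₗ π), ?_, ?_, ?_, ?_, ?_⟩
      · intro j
        refine Fin.cases ?_ (fun j => ?_) j
        · simpa using huU
        · simpa using hU1le (hbU j)
      · intro y hy
        rw [Fin.sum_univ_succ]
        simp only [Fin.cons_zero, Fin.cons_succ, LinearMap.comp_apply]
        rw [← hyb _ (hπU y hy), hπ]
        abel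
      · intro j k
        refine Fin.cases ?_ (fun j => ?_) j
        · refine Fin.cases ?_ (fun k => ?_) k
          · simpa using hηu
          · have : η i0 (b k) = 0 := (hbU k).2
            simpa [Fin.ext_iff] using this
        · refine Fin.cases ?_ (fun k => ?_) k
          · simp [hπu, Fin.ext_iff]
          · simp only [Fin.cons_succ, LinearMap.comp_apply, hπ1 _ (hbU k), hcb,
              Fin.succ_inj]
      · intro y hy
        constructor
        · intro h j
          refine Fin.cases ?_ (fun j => ?_) j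
          · simpa using h i0
          · simp only [Fin.cons_succ, LinearMap.comp_apply]
            refine (hM _ (hπU y hy)).mp (fun i => ?_) j
            rw [hπ, map_sub, map_smul, smul_eq_mul]
            refine (v.map_sub _ _).trans (max_le (h i) ?_)
            rw [map_mul]
            exact mul_le_one' (h i0) (huM i)
        · intro h i
          have h0 : v (η i0 y) ≤ 1 := by simpa using h 0
          have h1 : ∀ i, v (η i (π y)) ≤ 1 :=
            (hM _ (hπU y hy)).mpr (fun j => by simpa using h j.succ)
          have h2 : η i y = η i (π y) + η i0 y * η i u := by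
            rw [hπ, map_sub, map_smul, smul_eq_mul]; ring
          rw [h2]
          refine (v.map_add _ _).trans (max_le (h1 i) ?_)
          rw [map_mul]
          exact mul_le_one' h0 (huM i)
      · intro y h j
        refine Fin.cases ?_ (fun j => ?_) j
        · simpa using h i0
        · simp only [Fin.cons_succ, LinearMap.comp_apply]
          refine hM2 _ (fun i => ?_) j
          rw [hπ, map_sub, map_smul, smul_eq_mul]
          refine (v.map_sub _ _).trans (max_le (h i) ?_)
          rw [map_mul]
          exact mul_le_one' (h i0) (huM i)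

theorem Dual_sq_sum (v : Valuation ℂ Γ₀) {ι : Type*} (s : Finset ι) (f : ι → ℂ) (q : Γ₀)
    (hf : ∀ i ∈ s, v (f i) ^ 2 ≤ q) : v (∑ i ∈ s, f i) ^ 2 ≤ q := by
  classical
  induction s using Finset.induction_on with
  | empty =>
    rw [Finset.sum_empty, map_zero, zero_pow two_ne_zero]
    exact zero_le
  | insert a s ha ih =>
    rw [Finset.sum_insert ha]
    have h1 := hf a (Finset.mem_insert_self a s)
    have h2 := ih fun i hi => hf i (Finset.mem_insert_of_mem hi)
    have h3 := v.map_add (f a) (∑ i ∈ s, f i)
    rcases le_max_iff.mp h3 with h | h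
    · exact (pow_le_pow_left' h 2).trans h1
    · exact (pow_le_pow_left' h 2).trans h2

/-- the matrices commuting with the `e i` -/
def Dual_comm {n κ : Type*} [Fintype n] [DecidableEq n] (K : Finset κ) (e : κ → Matrix n n ℂ) :
    Submodule ℂ (Matrix n n ℂ) where
  carrier := {C | ∀ i ∈ K, C * e i = e i * C}
  zero_mem' := fun i _ => by rw [zero_mul, mul_zero]
  add_mem' := fun {a b} ha hb i hi => by rw [add_mul, mul_add, ha i hi, hb i hi]
  smul_mem' := fun c a ha i hi => by rw [smul_mul_assoc, mul_smul_comm, ha i hi]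

/-- the functional of an entry -/
def Dual_entry {n : Type*} (x : n × n) : Matrix n n ℂ →ₗ[ℂ] ℂ where
  toFun C := C x.1 x.2
  map_add' _ _ := rfl
  map_smul' _ _ := rfl

/-- If all integral matrices `C` commuting with the idempotents `e i` satisfy `v(tr C)² ≤ q`, there
is a matrix `β` with `v(β a b)² ≤ q` and `e i β e i = e i`.

Proof. Apply `exists_integral_basis'` to the space of matrices, the entry functionals `η (a, b)` and
the subspace `U` of the matrices commuting with all `e i`, `i ∈ K`: this gives `b j ∈ U`, `c j`. The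
`b j` are integral, so `v(tr (b j))² ≤ q`. Let `β a b = ∑ j, c j (single b a 1) * tr (b j)`; the
matrix units are integral so `v(c j (single b a 1)) ≤ 1` and `v(β a b)² ≤ q` (`0 ≤ q`). For every matrix
`C`, `tr (β C) = ∑ j, c j C * tr (b j)` (linearity), which is `tr C` for `C ∈ U`. For all matrices `Y`,
`e i Y e i` is in `U`, so `tr (e i β e i Y) = tr (β e i Y e i) = tr (e i Y e i) = tr (e i Y)`. Hence
`e i β e i = e i` (take for `Y` the matrix units, or `Matrix.ext_iff_trace_mul_left` and similar). -/
theorem exists_dual_matrix (v : Valuation ℂ Γ₀) {n κ : Type*} [Fintype n] [DecidableEq n]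
    (K : Finset κ) (e : κ → Matrix n n ℂ) (he : ∀ i ∈ K, e i * e i = e i)
    (heo : ∀ i ∈ K, ∀ j ∈ K, i ≠ j → e i * e j = 0) (q : Γ₀)
    (hq : ∀ C : Matrix n n ℂ, (∀ i ∈ K, C * e i = e i * C) → (∀ a b, v (C a b) ≤ 1) →
      v C.trace ^ 2 ≤ q) :
    ∃ β : Matrix n n ℂ, (∀ a b, v (β a b) ^ 2 ≤ q) ∧ ∀ i ∈ K, e i * β * e i = e i := by
  classical
  obtain ⟨N, b, c, hbU, hyb, hcb, hM, hM2⟩ := exists_integral_basis' v
    (fun x : n × n => Dual_entry x) (finrank ℂ (Dual_comm K e)) (Dual_comm K e) le_rfl
    (fun y _ hy => Matrix.ext fun a b => hy (a, b))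
  have hbi : ∀ j, ∀ x y, v (b j x y) ≤ 1 := by
    intro j x y
    refine (hM (b j) (hbU j)).mpr (fun k => ?_) (x, y)
    rw [hcb]
    split_ifs
    · rw [map_one]
    · rw [map_zero]
      exact zero_le
  have htr : ∀ j, v (b j).trace ^ 2 ≤ q := fun j => hq (b j) (hbU j) (hbi j)
  let β : Matrix n n ℂ := fun x y => ∑ j, c j (Matrix.single y x 1) * (b j).trace
  have hβ : ∀ x y, β x y = ∑ j, c j (Matrix.single y x 1) * (b j).trace := fun _ _ => rfl
  have h1 : ∀ C : Matrix n n ℂ, (β * C).trace = ∑ j, c j C * (b j).trace := by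
    intro C
    have h2 : ∀ j, c j C = ∑ y, ∑ x, C y x * c j (Matrix.single y x 1) := by
      intro j
      conv_lhs => rw [Matrix.matrix_eq_sum_single C]
      rw [map_sum]
      refine Finset.sum_congr rfl fun y _ => ?_
      rw [map_sum]
      refine Finset.sum_congr rfl fun x _ => ?_
      rw [← smul_eq_mul, ← map_smul, Matrix.smul_single, smul_eq_mul, mul_one]
    simp_rw [h2, Finset.sum_mul]
    rw [Matrix.trace, Finset.sum_comm]
    have h3 : ∀ y, ∑ j, ∑ x, C y x * c j (Matrix.single y x 1) * (b j).trace =
        ∑ x, β x y * C y x := by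
      intro y
      rw [Finset.sum_comm]
      refine Finset.sum_congr rfl fun x _ => ?_
      rw [hβ, Finset.sum_mul]
      exact Finset.sum_congr rfl fun j _ => by ring
    simp_rw [h3]
    rw [Finset.sum_comm]
    rfl
  have h2 : ∀ C ∈ Dual_comm K e, (β * C).trace = C.trace := by
    intro C hC
    rw [h1]
    conv_rhs => rw [hyb C hC]
    rw [Matrix.trace_sum]
    refine Finset.sum_congr rfl fun j _ => ?_
    rw [Matrix.trace_smul, smul_eq_mul]
  refine ⟨β, ?_, ?_⟩
  · intro x y
    rw [hβ]
    refine Dual_sq_sum v _ _ q fun j _ => ?_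
    rw [map_mul, mul_pow]
    have h3 : v (c j (Matrix.single y x 1)) ≤ 1 := by
      refine hM2 _ (fun i => ?_) j
      show v ((Matrix.single y x 1 : Matrix n n ℂ) i.1 i.2) ≤ 1
      rw [Matrix.single_apply]
      split_ifs
      · rw [map_one]
      · rw [map_zero]
        exact zero_le
    calc v (c j (Matrix.single y x 1)) ^ 2 * v (b j).trace ^ 2 ≤ 1 * q :=
          mul_le_mul' (pow_le_one' h3 2) (htr j)
      _ = q := one_mul q
  · intro i hi
    rw [Matrix.ext_iff_trace_mul_right]
    intro Y
    have h3 : e i * Y * e i ∈ Dual_comm K e := by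
      intro k hk
      by_cases hik : i = k
      · subst hik
        rw [mul_assoc, he i hi, ← mul_assoc, ← mul_assoc, he i hi]
      · rw [mul_assoc, heo i hi k hk hik, mul_zero, ← mul_assoc, ← mul_assoc,
          heo k hk i hi (Ne.symm hik), zero_mul, zero_mul]
    have h4 := h2 _ h3
    calc (e i * β * e i * Y).trace = (β * (e i * Y * e i)).trace := by
          rw [mul_assoc, mul_assoc, Matrix.trace_mul_comm (e i)]
          simp only [mul_assoc]
      _ = (e i * Y * e i).trace := h4
      _ = (e i * Y).trace := by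
          rw [Matrix.trace_mul_comm, ← mul_assoc, he i hi]
end Pool.Agent.H.MP_7d3ffc_al
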