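import Mathlib
import Pool.Agent.H.MP_7d3ffc_al.GLL.Setup

/-!
Linear forms on a set of characters congruent modulo characters of order `p`.
-/

namespace Pool.Agent.H.MP_7d3ffc_al

open Finset

variable {Γ₀ : Type*} [LinearOrderedCommGroupWithZero Γ₀]

/-- `χ` is on the line through `μ` and `ν`. -/
def OnLine {Q : Type*} [Group Q] (μ ν χ : Q →* ℂˣ) : Prop := ∃ i : ℕ, χ = μ * (ν * μ⁻¹) ^ i

/-- The functions `χ ↦ (χ(x) - μ(x)) / (ζ - 1)` with `μ ∈ K`. -/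
def formSet {Q : Type*} [Group Q] (K : Finset (Q →* ℂˣ)) (ζ : ℂ) : Set ((Q →* ℂˣ) → ℂ) :=
  {h | ∃ x : Q, ∃ μ ∈ K, h = fun χ => (((χ x : ℂˣ) : ℂ) - ((μ x : ℂˣ) : ℂ)) / (ζ - 1)}

theorem Forms_pow_eq {p : ℕ} {Q : Type*} [Group Q] {K : Finset (Q →* ℂˣ)}
    (hK1 : ∀ χ ∈ K, ∀ ψ ∈ K, χ ^ p = ψ ^ p) {χ ψ : Q →* ℂˣ} (hχ : χ ∈ K) (hψ : ψ ∈ K) (x : Q) :
    ((χ x : ℂˣ) : ℂ) ^ p = ((ψ x : ℂˣ) : ℂ) ^ p := by
  have h := DFunLike.congr_fun (hK1 χ hχ ψ hψ) x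
  simp only [MonoidHom.pow_apply] at h
  have h2 := congrArg (fun u : ℂˣ => (u : ℂ)) h
  simpa using h2

theorem Forms_val_apply (v : Valuation ℂ Γ₀) {Q : Type*} [Group Q] [Finite Q] (μ : Q →* ℂˣ)
    (x : Q) : v ((μ x : ℂˣ) : ℂ) = 1 := by
  apply val_rootOfUnity v (n := Nat.card Q) Nat.card_pos.ne'
  rw [← Units.val_pow_eq_pow_val, ← map_pow, pow_card_eq_one', map_one, Units.val_one]

/-- The values of the forms are zero or units.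
Proof: `h = (χ(x) - μ(x))/(ζ - 1)` with `μ ∈ K`; `z = χ(x)/μ(x)` satisfies `z ^ p = 1` by `hK1`, so
`z = 1` (then `h χ = 0`) or `v(z - 1) = v(ζ - 1) ≠ 0` (`val_sub_one_eq`), and `v(μ(x)) = 1`
(root of unity, `val_rootOfUnity` with `n = Nat.card Q`). -/
theorem formSet_val {p : ℕ} [Fact p.Prime] (v : Valuation ℂ Γ₀) {Q : Type*}
    [Group Q] [Finite Q] {ζ : ℂ} (hζ : IsPrimitiveRoot ζ p) (K : Finset (Q →* ℂˣ))
    (hK1 : ∀ χ ∈ K, ∀ ψ ∈ K, χ ^ p = ψ ^ p) :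
    ∀ h ∈ formSet K ζ, ∀ χ ∈ K, h χ = 0 ∨ v (h χ) = 1 := by
  rintro h ⟨x, μ, hμ, rfl⟩ χ hχ
  have hp : p.Prime := Fact.out
  have hζ1 : ζ - 1 ≠ 0 := sub_ne_zero.mpr (hζ.ne_one hp.one_lt)
  by_cases hx : ((χ x : ℂˣ) : ℂ) = ((μ x : ℂˣ) : ℂ)
  · left
    simp [hx]
  right
  have hμ0 : ((μ x : ℂˣ) : ℂ) ≠ 0 := (μ x).ne_zero
  have hz : (((χ x : ℂˣ) : ℂ) / ((μ x : ℂˣ) : ℂ)) ^ p = 1 := by
    have h1 := Forms_pow_eq hK1 hχ hμ x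
    rw [div_pow, h1, div_self (pow_ne_zero _ hμ0)]
  have hz1 : ((χ x : ℂˣ) : ℂ) / ((μ x : ℂˣ) : ℂ) ≠ 1 := by
    intro h
    rw [div_eq_one_iff_eq hμ0] at h
    exact hx h
  have h2 := val_sub_one_eq hp v hζ hz hz1
  have h3 : (((χ x : ℂˣ) : ℂ) - ((μ x : ℂˣ) : ℂ)) / (ζ - 1)
      = ((μ x : ℂˣ) : ℂ) * (((χ x : ℂˣ) : ℂ) / ((μ x : ℂˣ) : ℂ) - 1) / (ζ - 1) := by
    field_simp
  have h4 : v (ζ - 1) ≠ 0 := (Valuation.ne_zero_iff v).mpr hζ1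
  simp only
  rw [h3, map_div₀, map_mul, h2, Forms_val_apply, one_mul, div_self h4]

/-- A character outside a line can be separated from the line.
Proof: `ω = ν μ⁻¹ ≠ 1`, `θ = lam μ⁻¹`, `ω ^ p = θ ^ p = 1` (`hK1`). Suppose `θ(x) = 1` for all `x` with
`ω(x) = 1`. Take `x₀` with `ω(x₀) ≠ 1`; `ω(x₀)` is a primitive `p`-th root of unity, so
`θ(x₀) = ω(x₀)^i`. For `y` in `Q`, `ω(y) = ω(x₀)^j = ω(x₀ ^ j)`, so `θ(y) = θ(x₀ ^ j) = ω(y)^i`; hence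
`θ = ω ^ i`, `lam = μ ω ^ i`, a contradiction. So there is `x` with `ω(x) = 1`, `θ(x) ≠ 1`, i.e.
`ν(x) = μ(x) ≠ lam(x)`: take the form given by `x` and `μ`. -/
theorem formSet_sep1 {p : ℕ} [Fact p.Prime] {Q : Type*}
    [Group Q] [Finite Q] {ζ : ℂ} (hζ : IsPrimitiveRoot ζ p) (K : Finset (Q →* ℂˣ))
    (hK1 : ∀ χ ∈ K, ∀ ψ ∈ K, χ ^ p = ψ ^ p) :
    ∀ μ ∈ K, ∀ ν ∈ K, μ ≠ ν → ∀ lam ∈ K, ¬ OnLine μ ν lam →
      ∃ h ∈ formSet K ζ, (∀ χ ∈ K, OnLine μ ν χ → h χ = 0) ∧ h lam ≠ 0 := by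
  intro μ hμ ν hν hne lam hlam hline
  have hp : p.Prime := Fact.out
  have hζ1 : ζ - 1 ≠ 0 := sub_ne_zero.mpr (hζ.ne_one hp.one_lt)
  by_contra hcon
  push Not at hcon
  -- `lam = μ` wherever `ν = μ`
  have key : ∀ x, ν x = μ x → lam x = μ x := by
    intro x hx
    have h1 := hcon (fun χ => (((χ x : ℂˣ) : ℂ) - ((μ x : ℂˣ) : ℂ)) / (ζ - 1)) ⟨x, μ, hμ, rfl⟩
    have h2 := h1 (by
      rintro χ _ ⟨i, rfl⟩
      simp [hx])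
    rw [div_eq_zero_iff] at h2
    rcases h2 with h2 | h2
    · exact Units.ext (sub_eq_zero.mp h2)
    · exact absurd h2 hζ1
  obtain ⟨x₀, hx₀⟩ : ∃ x₀, ν x₀ ≠ μ x₀ := by
    by_contra h
    push Not at h
    exact hne (MonoidHom.ext fun x => (h x).symm)
  have hpowU : ∀ χ ∈ K, ∀ x, (χ x / μ x) ^ p = 1 := by
    intro χ hχ x
    have h := DFunLike.congr_fun (hK1 χ hχ μ hμ) x
    simp only [MonoidHom.pow_apply] at h
    rw [div_pow, h, div_self']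
  have hc1 : ν x₀ / μ x₀ ≠ 1 := by
    intro h
    exact hx₀ (div_eq_one.mp h)
  have hord : orderOf (ν x₀ / μ x₀) = p := orderOf_eq_prime (hpowU ν hν x₀) hc1
  have hprim : IsPrimitiveRoot (ν x₀ / μ x₀) p := hord ▸ IsPrimitiveRoot.orderOf _
  have hprim' : IsPrimitiveRoot ((ν x₀ / μ x₀ : ℂˣ) : ℂ) p := by
    rwa [IsPrimitiveRoot.coe_units_iff]
  have hex : ∀ u : ℂˣ, u ^ p = 1 → ∃ j : ℕ, (ν x₀ / μ x₀) ^ j = u := by
    intro u hu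
    have hu' : (u : ℂ) ^ p = 1 := by
      rw [← Units.val_pow_eq_pow_val, hu, Units.val_one]
    have : NeZero p := ⟨hp.ne_zero⟩
    obtain ⟨j, _, hj⟩ := hprim'.eq_pow_of_pow_eq_one hu'
    refine ⟨j, Units.ext ?_⟩
    rw [Units.val_pow_eq_pow_val]
    exact hj
  obtain ⟨i, hi⟩ := hex (lam x₀ / μ x₀) (hpowU lam hlam x₀)
  apply hline
  refine ⟨i, MonoidHom.ext fun y => ?_⟩
  obtain ⟨j, hj⟩ := hex (ν y / μ y) (hpowU ν hν y)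
  have h1 : ν (y * (x₀ ^ j)⁻¹) = μ (y * (x₀ ^ j)⁻¹) := by
    rw [← div_eq_one, map_mul, map_mul, map_inv, map_inv, map_pow, map_pow]
    rw [div_pow] at hj
    rw [mul_div_mul_comm, ← hj, inv_div_inv, div_mul_div_cancel, div_self']
  have h2 := key _ h1
  rw [map_mul, map_mul, map_inv, map_inv, map_pow, map_pow] at h2
  have h3 : lam y = μ y * (lam x₀ / μ x₀) ^ j := by
    rw [div_pow]
    have h4 : lam y = μ y * (μ x₀ ^ j)⁻¹ * lam x₀ ^ j := by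
      rw [← h2]; group
    rw [h4, div_eq_mul_inv, mul_comm (lam x₀ ^ j), mul_assoc]
  have h5 : (μ * (ν * μ⁻¹) ^ i) y = μ y * (ν y / μ y) ^ i := by
    simp [div_eq_mul_inv]
  rw [h5, h3, ← hi, ← hj, ← pow_mul, ← pow_mul, mul_comm i j]

/-- Two characters can be separated (take `x` with `lam(x) ≠ μ(x)` and the form of `x`, `μ`). -/
theorem formSet_sep2 {p : ℕ} [Fact p.Prime] {Q : Type*}
    [Group Q] [Finite Q] {ζ : ℂ} (hζ : IsPrimitiveRoot ζ p) (K : Finset (Q →* ℂˣ)) :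
    ∀ μ ∈ K, ∀ lam ∈ K, μ ≠ lam → ∃ h ∈ formSet K ζ, h μ = 0 ∧ h lam ≠ 0 := by
  intro μ hμ lam hlam hne
  have hp : p.Prime := Fact.out
  have hζ1 : ζ - 1 ≠ 0 := sub_ne_zero.mpr (hζ.ne_one hp.one_lt)
  obtain ⟨x, hx⟩ : ∃ x, lam x ≠ μ x := by
    by_contra h
    push Not at h
    exact hne (MonoidHom.ext fun x => (h x).symm)
  refine ⟨fun χ => (((χ x : ℂˣ) : ℂ) - ((μ x : ℂˣ) : ℂ)) / (ζ - 1), ⟨x, μ, hμ, rfl⟩, by simp, ?_⟩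
  simp only
  refine div_ne_zero (sub_ne_zero.mpr fun h => hx (Units.ext h)) hζ1

theorem Forms_exists_list (v : Valuation ℂ Γ₀) {Q : Type*} [Group Q] [Finite Q] {ζ : ℂ}
    (hζ1 : ζ - 1 ≠ 0) {K : Finset (Q →* ℂˣ)} (l : List ((Q →* ℂˣ) → ℂ))
    (hl : ∀ h ∈ l, h ∈ formSet K ζ) :
    ∃ l' : List (Q × ℂ), (∀ t ∈ l', v t.2 ≤ 1) ∧ ∀ χ : Q →* ℂˣ,
      (l.map (fun h => h χ)).prod * (ζ - 1) ^ l.length
        = (l'.map (fun t => ((χ t.1 : ℂˣ) : ℂ) - t.2)).prod := by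
  induction l with
  | nil => exact ⟨[], by simp, by simp⟩
  | cons g l ih =>
    obtain ⟨l', h1, h2⟩ := ih (fun h hh => hl h (List.mem_cons_of_mem _ hh))
    obtain ⟨x, μ, hμ, hg⟩ := hl g List.mem_cons_self
    refine ⟨(x, ((μ x : ℂˣ) : ℂ)) :: l', ?_, ?_⟩
    · intro t ht
      rcases List.mem_cons.mp ht with rfl | ht
      · exact (Forms_val_apply v μ x).le
      · exact h1 t ht
    · intro χ
      rw [List.map_cons, List.prod_cons, List.map_cons, List.prod_cons, List.length_cons, ← h2 χ,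
        hg, pow_succ]
      field_simp

/-- The bound for products of forms. Proof: if the forms in `l` are given by `(xᵢ, μᵢ)`, the left
hand side is the bound of `GHyp.prod_le` for the list of the `(xᵢ, μᵢ(xᵢ))` and `y = 1`:
`(ζ - 1)^{len} ∏ h(χ) = ∏ (χ(xᵢ) - μᵢ(xᵢ))`; and `v(p) = v(ζ - 1)^{p-1}` by `val_prime_eq`. -/
theorem formSet_bound {p : ℕ} [Fact p.Prime] (v : Valuation ℂ Γ₀) {Q : Type*}
    [Group Q] [Finite Q] {n : Type*} [Fintype n] [DecidableEq n] {ζ : ℂ}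
    (hζ : IsPrimitiveRoot ζ p) {K : Finset (Q →* ℂˣ)} {E : (Q →* ℂˣ) → Matrix n n ℂ}
    (h : GHyp v p K E) (l : List ((Q →* ℂˣ) → ℂ)) (hl : ∀ h ∈ l, h ∈ formSet K ζ) (a b : n) :
    v ((∑ χ ∈ K, (l.map (fun h => h χ)).prod • E χ) a b) ^ 2 * v (ζ - 1) ^ (2 * l.length) ≤
      v (ζ - 1) ^ (p - 1) := by
  have hp : p.Prime := Fact.out
  have hζ1 : ζ - 1 ≠ 0 := sub_ne_zero.mpr (hζ.ne_one hp.one_lt)
  obtain ⟨l', hl1, hl2⟩ := Forms_exists_list v (ζ := ζ) hζ1 (K := K) l hl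
  have h1 := h.prod_le l' hl1 1 a b
  have h2 : (∑ χ ∈ K, ((l'.map (fun t => ((χ t.1 : ℂˣ) : ℂ) - t.2)).prod
      * ((χ 1 : ℂˣ) : ℂ)) • E χ) a b
      = (∑ χ ∈ K, (l.map (fun h => h χ)).prod • E χ) a b * (ζ - 1) ^ l.length := by
    rw [Matrix.sum_apply, Matrix.sum_apply, Finset.sum_mul]
    refine Finset.sum_congr rfl fun χ _ => ?_
    rw [Matrix.smul_apply, Matrix.smul_apply, map_one, Units.val_one, mul_one, ← hl2 χ,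
      smul_eq_mul, smul_eq_mul]
    ring
  rw [h2, map_mul, map_pow, mul_pow, ← pow_mul, mul_comm l.length 2, val_prime_eq hp v hζ] at h1
  exact h1

end Pool.Agent.H.MP_7d3ffc_al
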