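import Mathlib
import Pool.Agent.H.MP_7d3ffc_al.Val

/-!
Gauss lemma for a valuation on `ℂ` and the descent for matrix polynomials.
-/

namespace Pool.Agent.H.MP_7d3ffc_al

open Polynomial

variable {Γ₀ : Type*} [LinearOrderedCommGroupWithZero Γ₀]

/-- All coefficients of `f` have value at most one. -/
def PInt (v : Valuation ℂ Γ₀) (f : ℂ[X]) : Prop := ∀ i, v (f.coeff i) ≤ 1

/-- All coefficients of `f` have value less than one. -/
def PSmall (v : Valuation ℂ Γ₀) (f : ℂ[X]) : Prop := ∀ i, v (f.coeff i) < 1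

/-- `I` is the largest index of a coefficient of value one. -/
def PTop (v : Valuation ℂ Γ₀) (f : ℂ[X]) (I : ℕ) : Prop :=
  v (f.coeff I) = 1 ∧ ∀ i, I < i → v (f.coeff i) < 1

variable {v : Valuation ℂ Γ₀}

theorem PSmall.pint {f : ℂ[X]} (h : PSmall v f) : PInt v f := fun i => (h i).le

theorem PInt.add {f g : ℂ[X]} (hf : PInt v f) (hg : PInt v g) : PInt v (f + g) := fun i => by
  rw [coeff_add]
  exact (v.map_add _ _).trans (max_le (hf i) (hg i))

theorem PSmall.add {f g : ℂ[X]} (hf : PSmall v f) (hg : PSmall v g) : PSmall v (f + g) :=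
  fun i => by
    rw [coeff_add]
    exact (v.map_add _ _).trans_lt (max_lt (hf i) (hg i))

theorem PSmall.neg {f : ℂ[X]} (hf : PSmall v f) : PSmall v (-f) := fun i => by
  rw [coeff_neg, Valuation.map_neg]
  exact hf i

theorem PInt.neg {f : ℂ[X]} (hf : PInt v f) : PInt v (-f) := fun i => by
  rw [coeff_neg, Valuation.map_neg]
  exact hf i

theorem PInt.sub {f g : ℂ[X]} (hf : PInt v f) (hg : PInt v g) : PInt v (f - g) := by
  rw [sub_eq_add_neg]
  exact hf.add hg.neg

theorem PInt.mul {f g : ℂ[X]} (hf : PInt v f) (hg : PInt v g) : PInt v (f * g) := fun i => by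
  rw [coeff_mul]
  refine val_sum_le v _ _ _ (fun x _ => ?_)
  rw [map_mul]
  exact mul_le_one' (hf _) (hg _)

theorem PSmall.mul_left {f g : ℂ[X]} (hf : PInt v f) (hg : PSmall v g) : PSmall v (f * g) :=
  fun i => by
    rw [coeff_mul]
    refine v.map_sum_lt one_ne_zero (fun x _ => ?_)
    rw [map_mul]
    exact mul_lt_one_of_nonneg_of_lt_one_right (hf _) zero_le (hg _)

theorem PInt.C {c : ℂ} (hc : v c ≤ 1) : PInt v (C c) := fun i => by
  rw [coeff_C]
  split_ifs
  · exact hc
  · simp

theorem PInt.one : PInt v (1 : ℂ[X]) := by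
  rw [← C_1]
  exact PInt.C (by simp)

theorem PInt.X : PInt v (X : ℂ[X]) := fun i => by
  rw [coeff_X]
  split_ifs <;> simp

theorem PInt.pow {f : ℂ[X]} (hf : PInt v f) (j : ℕ) : PInt v (f ^ j) := by
  induction j with
  | zero => simpa using PInt.one
  | succ j ih => rw [pow_succ]; exact ih.mul hf

theorem PInt.sum {ι : Type*} (s : Finset ι) (f : ι → ℂ[X]) (h : ∀ i ∈ s, PInt v (f i)) :
    PInt v (∑ i ∈ s, f i) := fun j => by
  rw [finsetSum_coeff]
  exact val_sum_le v _ _ _ (fun i hi => h i hi j)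

theorem PSmall.sum {ι : Type*} (s : Finset ι) (f : ι → ℂ[X]) (h : ∀ i ∈ s, PSmall v (f i)) :
    PSmall v (∑ i ∈ s, f i) := fun j => by
  rw [finsetSum_coeff]
  exact v.map_sum_lt one_ne_zero (fun i hi => h i hi j)

theorem PInt.prod {ι : Type*} (s : Finset ι) (f : ι → ℂ[X]) (h : ∀ i ∈ s, PInt v (f i)) :
    PInt v (∏ i ∈ s, f i) := by
  classical
  induction s using Finset.induction_on with
  | empty => simpa using PInt.one
  | insert a s ha ih =>
    rw [Finset.prod_insert ha]
    exact (h a (Finset.mem_insert_self _ _)).mul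
      (ih (fun i hi => h i (Finset.mem_insert_of_mem hi)))

theorem PInt.exists_top {f : ℂ[X]} (hf : PInt v f) {i : ℕ} (hi : v (f.coeff i) = 1) :
    ∃ I, i ≤ I ∧ PTop v f I := by
  classical
  let s : Finset ℕ := f.support.filter (fun j => v (f.coeff j) = 1)
  have his : i ∈ s := by
    rw [Finset.mem_filter, mem_support_iff]
    refine ⟨fun h => ?_, hi⟩
    rw [h, map_zero] at hi
    exact zero_ne_one hi
  refine ⟨s.max' ⟨i, his⟩, s.le_max' i his, ?_, fun j hj => ?_⟩
  · exact (Finset.mem_filter.mp (s.max'_mem ⟨i, his⟩)).2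
  · refine lt_of_le_of_ne (hf j) (fun h => ?_)
    have hjs : j ∈ s := by
      rw [Finset.mem_filter, mem_support_iff]
      refine ⟨fun h' => ?_, h⟩
      rw [h', map_zero] at h
      exact zero_ne_one h
    exact absurd (s.le_max' j hjs) (not_le.mpr hj)

theorem PTop.mul {f g : ℂ[X]} (hf : PInt v f) (hg : PInt v g) {I J : ℕ} (hI : PTop v f I)
    (hJ : PTop v g J) : PTop v (f * g) (I + J) := by
  have hsm : ∀ i j : ℕ, (I < i ∨ J < j) → v (f.coeff i * g.coeff j) < 1 := by
    intro i j hij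
    rw [map_mul]
    rcases hij with h | h
    · exact mul_lt_one_of_nonneg_of_lt_one_left zero_le (hI.2 i h) (hg j)
    · exact mul_lt_one_of_nonneg_of_lt_one_right (hf i) zero_le (hJ.2 j h)
  constructor
  · have hmem : (I, J) ∈ Finset.HasAntidiagonal.antidiagonal (I + J) := by simp
    rw [coeff_mul, ← Finset.add_sum_erase _ _ hmem]
    have h1 : v (f.coeff I * g.coeff J) = 1 := by rw [map_mul, hI.1, hJ.1, one_mul]
    have h2 : v (∑ x ∈ (Finset.HasAntidiagonal.antidiagonal (I + J)).erase (I, J), f.coeff x.1 * g.coeff x.2)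
        < 1 := by
      refine v.map_sum_lt one_ne_zero (fun x hx => ?_)
      rw [Finset.mem_erase, Finset.HasAntidiagonal.mem_antidiagonal] at hx
      refine hsm _ _ ?_
      by_contra hcon
      push Not at hcon
      apply hx.1
      have h3 : x.1 = I := by omega
      have h4 : x.2 = J := by omega
      exact Prod.ext h3 h4
    rw [Valuation.map_add_eq_of_lt_left _ (by rw [h1]; exact h2), h1]
  · intro m hm
    rw [coeff_mul]
    refine v.map_sum_lt one_ne_zero (fun x hx => ?_)
    rw [Finset.HasAntidiagonal.mem_antidiagonal] at hx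
    refine hsm _ _ ?_
    omega

theorem PTop.pow {f : ℂ[X]} (hf : PInt v f) {I : ℕ} (hI : PTop v f I) (j : ℕ) :
    PTop v (f ^ j) (j * I) := by
  induction j with
  | zero =>
    rw [pow_zero, zero_mul]
    refine ⟨by simp, fun i hi => ?_⟩
    rw [coeff_one, if_neg (by omega), map_zero]
    exact zero_lt_one
  | succ j ih =>
    rw [pow_succ, Nat.succ_mul]
    exact PTop.mul (hf.pow j) hf ih hI

/-- Gauss lemma. -/
theorem pint_of_mul (v : Valuation ℂ Γ₀) {g b : ℂ[X]} (hg : PInt v g)
    (hg1 : ∃ i, v (g.coeff i) = 1) (h : PInt v (g * b)) : PInt v b := by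
  classical
  by_contra hb
  obtain ⟨i0, hi0⟩ : ∃ i, 1 < v (b.coeff i) := by
    by_contra hcon
    push Not at hcon
    exact hb hcon
  have hi0s : i0 ∈ b.support := by
    rw [mem_support_iff]
    intro h0
    rw [h0, map_zero] at hi0
    exact absurd hi0 (not_lt.mpr zero_le)
  obtain ⟨m, hm, hmax⟩ := b.support.exists_max_image (fun i => v (b.coeff i)) ⟨i0, hi0s⟩
  have hm1 : 1 < v (b.coeff m) := lt_of_lt_of_le hi0 (hmax i0 hi0s)
  have hm0 : b.coeff m ≠ 0 := mem_support_iff.mp hm
  have hpos : 0 < v (b.coeff m) := lt_trans zero_lt_one hm1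
  set b' : ℂ[X] := Polynomial.C (b.coeff m)⁻¹ * b with hb'
  have hb'int : PInt v b' := by
    intro i
    rw [hb', coeff_C_mul, map_mul, map_inv₀, inv_mul_le_iff₀ hpos, mul_one]
    by_cases hi : i ∈ b.support
    · exact hmax i hi
    · rw [notMem_support_iff.mp hi, map_zero]
      exact zero_le
  have hb'1 : v (b'.coeff m) = 1 := by
    rw [hb', coeff_C_mul, inv_mul_cancel₀ hm0, map_one]
  obtain ⟨i, hi⟩ := hg1
  obtain ⟨I, _, hI⟩ := hg.exists_top hi
  obtain ⟨J, _, hJ⟩ := hb'int.exists_top hb'1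
  have h1 := (PTop.mul hg hb'int hI hJ).1
  have h2 : g * b' = Polynomial.C (b.coeff m)⁻¹ * (g * b) := by rw [hb']; ring
  rw [h2, coeff_C_mul, map_mul, map_inv₀] at h1
  have h3 : (v (b.coeff m))⁻¹ * v ((g * b).coeff (I + J)) ≤ (v (b.coeff m))⁻¹ * 1 := by
    gcongr
    exact h _
  rw [h1, mul_one] at h3
  exact absurd h3 (not_le.mpr (inv_lt_one_of_one_lt₀ hm1))

/-- The descent: if `g N² - N = F M` with `M` small and `g` nonconstant modulo the maximal ideal
then `N` is small. -/
theorem tower (v : Valuation ℂ Γ₀) {n : Type*} [Fintype n] [DecidableEq n] (g F : ℂ[X])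
    (hg : PInt v g) (hg1 : ∃ i, 1 ≤ i ∧ v (g.coeff i) = 1) (hF : PInt v F)
    (N M : Matrix n n ℂ[X]) (hM : ∀ a b, PSmall v (M a b))
    (h : g • (N * N) - N = F • M) : ∀ a b, PSmall v (N a b) := by
  classical
  by_contra hcon
  obtain ⟨a1, b1, i1, hi1⟩ : ∃ a b i, 1 ≤ v ((N a b).coeff i) := by
    by_contra hcon'
    push Not at hcon'
    exact hcon (fun a b i => hcon' a b i)
  -- a coefficient of maximal value
  let D : ℕ := (Finset.univ.sup fun ab : n × n => (N ab.1 ab.2).natDegree) + 1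
  have hD : ∀ a b i, D ≤ i → (N a b).coeff i = 0 := by
    intro a b i hi
    refine coeff_eq_zero_of_natDegree_lt ?_
    have h1 : (N a b).natDegree ≤ Finset.univ.sup fun ab : n × n => (N ab.1 ab.2).natDegree :=
      Finset.le_sup (f := fun ab : n × n => (N ab.1 ab.2).natDegree) (Finset.mem_univ (a, b))
    omega
  have hi1D : i1 < D := by
    by_contra hcon'
    rw [hD a1 b1 i1 (not_lt.mp hcon'), map_zero] at hi1
    exact absurd hi1 (not_le.mpr zero_lt_one)
  obtain ⟨⟨⟨a0, b0⟩, i0⟩, _, hmax⟩ :=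
    ((Finset.univ : Finset (n × n)) ×ˢ Finset.range D).exists_max_image
      (fun t => v ((N t.1.1 t.1.2).coeff t.2))
      ⟨((a1, b1), i1), by simpa using hi1D⟩
  set n0 : ℂ := (N a0 b0).coeff i0 with hn0
  have hle : ∀ a b i, v ((N a b).coeff i) ≤ v n0 := by
    intro a b i
    by_cases hi : i < D
    · exact hmax ((a, b), i) (by simpa using hi)
    · rw [hD a b i (not_lt.mp hi), map_zero]
      exact zero_le
  have hn1 : 1 ≤ v n0 := hi1.trans (hle a1 b1 i1)
  have hpos : 0 < v n0 := lt_of_lt_of_le zero_lt_one hn1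
  have hn0ne : n0 ≠ 0 := by
    intro h0
    rw [h0, map_zero] at hpos
    exact lt_irrefl _ hpos
  set c : ℂ[X] := Polynomial.C n0⁻¹ with hc
  have hcint : PInt v c := PInt.C (by rw [map_inv₀]; exact inv_le_one_of_one_le₀ hn1)
  -- the matrices `B j` and `R j`
  let B : ℕ → Matrix n n ℂ[X] := fun j => c • N ^ (j + 1)
  let R : ℕ → Matrix n n ℂ[X] := fun j => c • (N ^ j * M)
  have hNN : g • (N * N) = N + F • M := by rw [← h]; abel
  have hrec : ∀ j, g • B (j + 1) = B j + F • R j := by
    intro j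
    change g • (c • N ^ (j + 1 + 1)) = c • N ^ (j + 1) + F • (c • (N ^ j * M))
    have e1 : N ^ (j + 1 + 1) = N ^ j * (N * N) := by rw [pow_succ, pow_succ, mul_assoc]
    rw [e1, smul_comm g c, ← mul_smul_comm, hNN, mul_add, smul_add, ← pow_succ, mul_smul_comm,
      smul_comm c F]
  have hR : ∀ j, R (j + 1) = B j * M := by
    intro j
    change c • (N ^ (j + 1) * M) = (c • N ^ (j + 1)) * M
    rw [smul_mul_assoc]
  have hmulI : ∀ A A' : Matrix n n ℂ[X], (∀ a b, PInt v (A a b)) → (∀ a b, PSmall v (A' a b)) →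
      ∀ a b, PSmall v ((A * A') a b) := by
    intro A A' hA hA' a b
    rw [Matrix.mul_apply]
    exact PSmall.sum _ _ (fun j _ => PSmall.mul_left (hA a j) (hA' j b))
  have hB0 : ∀ a b, PInt v (B 0 a b) := by
    intro a b i
    change v ((c • N ^ (0 + 1)) a b |>.coeff i) ≤ 1
    rw [zero_add, pow_one, Matrix.smul_apply, smul_eq_mul, hc, coeff_C_mul, map_mul, map_inv₀,
      inv_mul_le_iff₀ hpos, mul_one]
    exact hle a b i
  have hind : ∀ j, (∀ a b, PInt v (B j a b)) ∧ (∀ a b, PSmall v (R j a b)) := by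
    intro j
    induction j with
    | zero =>
      refine ⟨hB0, fun a b => ?_⟩
      change PSmall v ((c • (N ^ 0 * M)) a b)
      rw [pow_zero, one_mul, Matrix.smul_apply, smul_eq_mul]
      exact PSmall.mul_left hcint (hM a b)
    | succ j ih =>
      refine ⟨fun a b => ?_, fun a b => ?_⟩
      · refine pint_of_mul v hg (hg1.imp fun _ h => h.2) ?_
        have e2 : g * B (j + 1) a b = B j a b + F * R j a b := by
          have := congrFun (congrFun (hrec j) a) b
          simpa [Matrix.smul_apply, Matrix.add_apply] using this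
        rw [e2]
        exact (ih.1 a b).add (PSmall.mul_left hF (ih.2 a b)).pint
      · rw [hR]
        exact hmulI _ _ ih.1 hM a b
  have htel : ∀ j a b, PSmall v (B 0 a b - g ^ j * B j a b) := by
    intro j a b
    induction j with
    | zero =>
      intro i
      rw [pow_zero, one_mul, sub_self, coeff_zero, map_zero]
      exact zero_lt_one
    | succ j ih =>
      have e2 : g * B (j + 1) a b = B j a b + F * R j a b := by
        have := congrFun (congrFun (hrec j) a) b
        simpa [Matrix.smul_apply, Matrix.add_apply] using this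
      have e3 : B 0 a b - g ^ (j + 1) * B (j + 1) a b =
          (B 0 a b - g ^ j * B j a b) + -(g ^ j * (F * R j a b)) := by
        rw [pow_succ, mul_assoc, e2]
        ring
      rw [e3]
      exact ih.add (PSmall.mul_left (hg.pow j) (PSmall.mul_left hF ((hind j).2 a b))).neg
  -- conclusion
  obtain ⟨i, hi1', hi⟩ := hg1
  obtain ⟨I, hiI, hI⟩ := hg.exists_top hi
  set j := D with hj
  set b := B j a0 b0 with hb
  have hbint : PInt v b := (hind j).1 a0 b0
  have hB0i0 : (B 0 a0 b0).coeff i0 = 1 := by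
    change ((c • N ^ (0 + 1)) a0 b0).coeff i0 = 1
    rw [zero_add, pow_one, Matrix.smul_apply, smul_eq_mul, hc, coeff_C_mul]
    exact inv_mul_cancel₀ hn0ne
  have hbns : ∃ m, v (b.coeff m) = 1 := by
    by_contra hcon'
    push Not at hcon'
    have hbs : PSmall v b := fun m => lt_of_le_of_ne (hbint m) (hcon' m)
    have h1 : PSmall v (g ^ j * b) := PSmall.mul_left (hg.pow j) hbs
    have h2 := (htel j a0 b0).add h1
    have h3 := h2 i0
    rw [sub_add_cancel, hB0i0, map_one] at h3
    exact lt_irrefl _ h3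
  obtain ⟨m, hm⟩ := hbns
  obtain ⟨J, _, hJ⟩ := hbint.exists_top hm
  have h4 := (PTop.mul (hg.pow j) hbint (PTop.pow hg hI j) hJ).1
  have h5 := htel j a0 b0 (j * I + J)
  have h6 : (B 0 a0 b0).coeff (j * I + J) = 0 := by
    change ((c • N ^ (0 + 1)) a0 b0).coeff _ = 0
    rw [zero_add, pow_one, Matrix.smul_apply, smul_eq_mul, hc, coeff_C_mul, hD a0 b0 _ ?_, mul_zero]
    have : j * 1 ≤ j * I := Nat.mul_le_mul_left j (by omega)
    omega
  rw [coeff_sub, h6, zero_sub, Valuation.map_neg, h4] at h5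
  exact lt_irrefl _ h5

end Pool.Agent.H.MP_7d3ffc_al
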