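import Mathlib
import Pool.Agent.H.MP_7d3ffc_al.GLL.Gauss
import Pool.Agent.H.MP_7d3ffc_al.GLL.Setup

/-!
The case of characters on a line.
-/

namespace Pool.Agent.H.MP_7d3ffc_al

open Polynomial

variable {Γ₀ : Type*} [LinearOrderedCommGroupWithZero Γ₀]

/-- `∏_{l ≠ i} (ζ^i - ζ^l) = p ζ^{i(p-1)}`. -/
theorem prod_pow_sub_pow {p : ℕ} (hp : p.Prime) {ζ : ℂ} (hζ : IsPrimitiveRoot ζ p) {i : ℕ}
    (hi : i ∈ Finset.range p) :
    ∏ l ∈ (Finset.range p).erase i, (ζ ^ i - ζ ^ l) = (p : ℂ) * (ζ ^ i) ^ (p - 1) := by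
  have h1 := X_pow_sub_C_eq_prod hζ hp.pos (one_pow p)
  simp only [mul_one] at h1
  rw [← Finset.mul_prod_erase _ _ hi] at h1
  have h2 := congrArg (fun f : ℂ[X] => (derivative f).eval (ζ ^ i)) h1
  simp only [derivative_mul, derivative_sub, derivative_X, derivative_C, sub_zero, one_mul,
    eval_add, eval_mul, eval_sub, eval_X, eval_C, sub_self, zero_mul, add_zero, derivative_X_pow,
    eval_pow, eval_natCast, eval_prod, map_natCast] at h2
  exact h2.symm

/-- The main algebraic identity for `F = ∏_{i ∈ K} (X - u_i)`: divisibility. -/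
theorem line_dvd {p : ℕ} (hp : p.Prime) {ζ : ℂ}
    (hζ : IsPrimitiveRoot ζ p) {n : Type*} [Fintype n] [DecidableEq n] (K : Finset ℕ)
    (hK : K ⊆ Finset.range p) (Q : ℕ → Matrix n n ℂ)
    (hQ : ∀ i ∈ K, Q i * Q i = Q i) (N : Matrix n n ℂ[X])
    (hN : N = ∑ i ∈ K, (∏ j ∈ K.erase i, (X - C (ζ ^ j - 1))) • (Q i).map C) (a b : n) :
    (∏ j ∈ K, (X - C (ζ ^ j - 1))) ∣
      ((C (p : ℂ)⁻¹ * ((1 + X) * ∏ l ∈ Finset.range p \ K, (X - C (ζ ^ l - 1)))) • (N * N) - N)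
        a b := by
  classical
  have hp0 : (p : ℂ) ≠ 0 := Nat.cast_ne_zero.mpr hp.ne_zero
  have hinj : ∀ i ∈ K, ∀ j ∈ K, ζ ^ i - 1 = ζ ^ j - 1 → i = j := by
    intro i hi j hj hij
    exact hζ.pow_inj (Finset.mem_range.mp (hK hi)) (Finset.mem_range.mp (hK hj))
      (sub_left_inj.mp hij)
  refine Finset.prod_dvd_of_coprime ?_ ?_
  · intro i hi j hj hij
    refine isCoprime_X_sub_C_of_isUnit_sub ?_
    refine IsUnit.mk0 _ (sub_ne_zero.mpr (fun h => hij (hinj i hi j hj h)))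
  · intro i hi
    rw [dvd_iff_isRoot, IsRoot.def]
    -- evaluation at `u_i`
    let φ : Matrix n n ℂ[X] →+* Matrix n n ℂ := (evalRingHom (ζ ^ i - 1)).mapMatrix
    have hφ : ∀ A : Matrix n n ℂ[X], ∀ a b, φ A a b = (A a b).eval (ζ ^ i - 1) := fun A a b => rfl
    have hφs : ∀ (f : ℂ[X]) (A : Matrix n n ℂ[X]), φ (f • A) = f.eval (ζ ^ i - 1) • φ A := by
      intro f A
      ext a b
      rw [hφ, Matrix.smul_apply, Matrix.smul_apply, smul_eq_mul, smul_eq_mul, eval_mul, hφ]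
    have hφN : φ N = (∏ j ∈ K.erase i, (ζ ^ i - ζ ^ j)) • Q i := by
      rw [hN, map_sum, Finset.sum_eq_single i]
      · rw [hφs]
        congr 1
        · rw [eval_prod]
          refine Finset.prod_congr rfl (fun j _ => ?_)
          simp
        · ext a b
          rw [hφ]
          simp
      · intro j hj hji
        rw [hφs, eval_prod, Finset.prod_eq_zero (Finset.mem_erase.mpr ⟨hji.symm, hi⟩) (by simp),
          zero_smul]
      · intro h
        exact absurd hi h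
    rw [← hφ, map_sub, hφs, map_mul, hφN, smul_mul_smul_comm, hQ i hi, smul_smul, ← sub_smul]
    have hprod : (∏ j ∈ K.erase i, (ζ ^ i - ζ ^ j)) *
        ∏ l ∈ Finset.range p \ K, (ζ ^ i - ζ ^ l) = (p : ℂ) * (ζ ^ i) ^ (p - 1) := by
      rw [← prod_pow_sub_pow hp hζ (hK hi)]
      have hdis : Disjoint (K.erase i) (Finset.range p \ K) :=
        Finset.disjoint_of_subset_left (Finset.erase_subset _ _) Finset.disjoint_sdiff
      rw [← Finset.prod_union hdis]
      congr 1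
      ext j
      simp only [Finset.mem_union, Finset.mem_erase, Finset.mem_sdiff]
      constructor
      · rintro (⟨h1, h2⟩ | ⟨h1, h2⟩)
        · exact ⟨h1, hK h2⟩
        · exact ⟨fun h => h2 (h ▸ hi), h1⟩
      · rintro ⟨h1, h2⟩
        by_cases h : j ∈ K
        · exact Or.inl ⟨h1, h⟩
        · exact Or.inr ⟨h2, h⟩
    set A1 : ℂ := ∏ j ∈ K.erase i, (ζ ^ i - ζ ^ j) with hA1
    have hcoef : eval (ζ ^ i - 1) (C (p : ℂ)⁻¹ * ((1 + X) *
        ∏ l ∈ Finset.range p \ K, (X - C (ζ ^ l - 1)))) * (A1 * A1) - A1 = 0 := by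
      have e1 : eval (ζ ^ i - 1) (∏ l ∈ Finset.range p \ K, (X - C (ζ ^ l - 1))) =
          ∏ l ∈ Finset.range p \ K, (ζ ^ i - ζ ^ l) := by
        rw [eval_prod]
        refine Finset.prod_congr rfl (fun j _ => ?_)
        simp
      rw [eval_mul, eval_mul, eval_C, e1, eval_add, eval_one, eval_X]
      have e2 : ζ ^ i * (ζ ^ i) ^ (p - 1) = 1 := by
        rw [← pow_succ', Nat.sub_add_cancel hp.one_le, ← pow_mul, mul_comm, pow_mul, hζ.pow_eq_one,
          one_pow]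
      calc (p : ℂ)⁻¹ * ((1 + (ζ ^ i - 1)) * ∏ l ∈ Finset.range p \ K, (ζ ^ i - ζ ^ l)) *
            (A1 * A1) - A1
          = (p : ℂ)⁻¹ * ζ ^ i * (A1 * ∏ l ∈ Finset.range p \ K, (ζ ^ i - ζ ^ l)) * A1 - A1 := by
            ring
        _ = ((p : ℂ)⁻¹ * p) * (ζ ^ i * (ζ ^ i) ^ (p - 1)) * A1 - A1 := by rw [hprod]; ring
        _ = 0 := by rw [e2, inv_mul_cancel₀ hp0]; ring
    rw [hcoef, zero_smul]
    rfl

/-- The coefficients of the products `∏_{j ≠ i} (X - u_j)` are integral polynomials in `ζ^i`. -/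
theorem line_coeff (v : Valuation ℂ Γ₀) {p : ℕ} (hp : p.Prime) {ζ : ℂ}
    (hζ : IsPrimitiveRoot ζ p) (K : Finset ℕ) (m : ℕ) :
    ∃ h : ℂ[X], PInt v h ∧ ∀ i ∈ K,
      (∏ j ∈ K.erase i, (X - C (ζ ^ j - 1))).coeff m = h.eval (ζ ^ i) := by
  classical
  have hvζ : ∀ j : ℕ, v (ζ ^ j - 1) ≤ 1 := by
    intro j
    refine (v.map_sub _ _).trans (max_le ?_ (by simp))
    rw [map_pow, val_rootOfUnity v hp.ne_zero hζ.pow_eq_one, one_pow]
  have hF : PInt v (∏ j ∈ K, (X - C (ζ ^ j - 1))) :=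
    PInt.prod _ _ (fun j _ => PInt.X.sub (PInt.C (hvζ j)))
  have key : ∀ t m : ℕ, K.card ≤ m + t → ∃ h : ℂ[X], PInt v h ∧ ∀ i ∈ K,
      (∏ j ∈ K.erase i, (X - C (ζ ^ j - 1))).coeff m = h.eval (ζ ^ i) := by
    intro t
    induction t with
    | zero =>
      intro m hm
      refine ⟨0, fun i => by simp, fun i hi => ?_⟩
      rw [eval_zero]
      refine coeff_eq_zero_of_natDegree_lt ?_
      rw [natDegree_prod_of_monic _ _ (fun j _ => monic_X_sub_C _)]
      simp only [natDegree_X_sub_C, Finset.sum_const, smul_eq_mul, mul_one]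
      rw [Finset.card_erase_of_mem hi]
      have : 0 < K.card := Finset.card_pos.mpr ⟨i, hi⟩
      omega
    | succ t ih =>
      intro m hm
      obtain ⟨h, hh, hh'⟩ := ih (m + 1) (by omega)
      refine ⟨C ((∏ j ∈ K, (X - C (ζ ^ j - 1))).coeff (m + 1)) + (X - 1) * h,
        (PInt.C (hF _)).add ((PInt.X.sub PInt.one).mul hh), fun i hi => ?_⟩
      rw [← Finset.mul_prod_erase _ _ hi]
      set f : ℂ[X] := ∏ j ∈ K.erase i, (X - C (ζ ^ j - 1)) with hf
      rw [eval_add, eval_C, eval_mul, eval_sub, eval_X, eval_one, ← hh' i hi, ← hf, sub_mul,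
        coeff_sub, coeff_X_mul, coeff_C_mul]
      ring
  exact key K.card m (by omega)

theorem val_sq_sum_le (v : Valuation ℂ Γ₀) {ι : Type*} (s : Finset ι) (f : ι → ℂ) (q : Γ₀)
    (h : ∀ i ∈ s, v (f i) ^ 2 ≤ q) : v (∑ i ∈ s, f i) ^ 2 ≤ q := by
  classical
  induction s using Finset.induction_on with
  | empty => simp
  | insert a s ha ih =>
    rw [Finset.sum_insert ha]
    have h1 := h a (Finset.mem_insert_self _ _)
    have h2 := ih (fun i hi => h i (Finset.mem_insert_of_mem hi))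
    rcases le_total (v (f a)) (v (∑ i ∈ s, f i)) with h3 | h3
    · exact (pow_le_pow_left₀ zero_le ((v.map_add _ _).trans (max_le h3 le_rfl)) 2).trans h2
    · exact (pow_le_pow_left₀ zero_le ((v.map_add _ _).trans (max_le le_rfl h3)) 2).trans h1

theorem mul_le_of_sq_le {a b q : Γ₀} (ha : a ^ 2 ≤ q) (hb : b ^ 2 ≤ q) : a * b ≤ q := by
  rcases le_total a b with h | h
  · calc a * b ≤ b * b := by gcongr
      _ = b ^ 2 := (pow_two b).symm
      _ ≤ q := hb
  · calc a * b ≤ a * a := by gcongr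
      _ = a ^ 2 := (pow_two a).symm
      _ ≤ q := ha

theorem le_one_of_sq_le_one {a : Γ₀} (h : a ^ 2 ≤ 1) : a ≤ 1 := by
  by_contra hcon
  exact absurd h (not_le.mpr (one_lt_pow₀ (not_le.mp hcon) two_ne_zero))

theorem PSmall.val_eval_lt {v : Valuation ℂ Γ₀} {f : ℂ[X]} (hf : PSmall v f) {y : ℂ}
    (hy : v y ≤ 1) : v (f.eval y) < 1 := by
  rw [eval_eq_sum_range]
  refine v.map_sum_lt one_ne_zero (fun i _ => ?_)
  rw [map_mul, map_pow]
  exact mul_lt_one_of_nonneg_of_lt_one_left zero_le (hf i) (pow_le_one₀ zero_le hy)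

/-- Idempotents `Q i` (`i ∈ K`, `|K| < p`) such that all entries of `∑ ζ^{ij} Q i` have value at
most `v(p)^{1/2}` are zero. -/
theorem line_core {p : ℕ} (hp : p.Prime) (v : Valuation ℂ Γ₀) (hv : v (p : ℂ) < 1) {ζ : ℂ}
    (hζ : IsPrimitiveRoot ζ p) {n : Type*} [Fintype n] [DecidableEq n] (K : Finset ℕ)
    (hK : K ⊆ Finset.range p) (hKc : K.card < p) (Q : ℕ → Matrix n n ℂ)
    (hQ : ∀ i ∈ K, Q i * Q i = Q i)
    (hN : ∀ j : ℕ, ∀ a b, v ((∑ i ∈ K, (ζ ^ i) ^ j • Q i) a b) ^ 2 ≤ v (p : ℂ)) :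
    ∀ i ∈ K, Q i = 0 := by
  classical
  intro i1 hi1
  have hp0 : (p : ℂ) ≠ 0 := Nat.cast_ne_zero.mpr hp.ne_zero
  have hvp0 : 0 < v (p : ℂ) := by rw [Valuation.pos_iff]; exact hp0
  have hζ1 : ζ ≠ 1 := hζ.ne_one hp.one_lt
  set π : ℂ := ζ - 1 with hπdef
  have hπ0 : π ≠ 0 := sub_ne_zero.mpr hζ1
  have hvp : v (p : ℂ) = v π ^ (p - 1) := val_prime_eq hp v hζ
  have hvπ : v π < 1 := by
    by_contra hcon
    rw [hvp] at hv
    exact absurd hv (not_lt.mpr (one_le_pow₀ (not_lt.mp hcon)))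
  have hvπ0 : 0 < v π := by rw [Valuation.pos_iff]; exact hπ0
  have hvζ : v ζ = 1 := val_rootOfUnity v hp.ne_zero hζ.pow_eq_one
  obtain ⟨k, hk⟩ : ∃ k, K.card = k + 1 :=
    ⟨K.card - 1, by have : 0 < K.card := Finset.card_pos.mpr ⟨i1, hi1⟩; omega⟩
  set S := Finset.range p \ K with hS
  obtain ⟨m, hm⟩ : ∃ m, S.card = m + 1 := by
    refine ⟨S.card - 1, ?_⟩
    have h1 := Finset.card_sdiff_of_subset hK
    rw [Finset.card_range, ← hS] at h1
    omega
  have hkm : k + (m + 1) = p - 1 := by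
    have h1 := Finset.card_sdiff_of_subset hK
    rw [Finset.card_range, ← hS] at h1
    omega
  let y : ℕ → ℂ := fun i => (ζ ^ i - 1) / π
  have hy : ∀ i, ζ ^ i - 1 = π * y i := fun i => (mul_div_cancel₀ _ hπ0).symm
  have hvy : ∀ i, v (y i) ≤ 1 := by
    intro i
    have h1 : y i = ∑ j ∈ Finset.range i, ζ ^ j := by
      change (ζ ^ i - 1) / π = _
      rw [← geom_sum_mul, hπdef, mul_div_cancel_right₀ _ hπ0]
    rw [h1]
    refine val_sum_le v _ _ _ (fun j _ => ?_)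
    rw [map_pow, hvζ, one_pow]
  have hvζζ : ∀ i ∈ Finset.range p, ∀ j ∈ Finset.range p, i ≠ j → v (ζ ^ i - ζ ^ j) = v π := by
    intro i hi j hj hij
    have hζj : ζ ^ j ≠ 0 := pow_ne_zero _ (hζ.ne_zero hp.ne_zero)
    have h1 : ζ ^ i - ζ ^ j = ζ ^ j * (ζ ^ i / ζ ^ j - 1) := by
      rw [mul_sub, mul_div_cancel₀ _ hζj, mul_one]
    rw [h1, map_mul, map_pow, hvζ, one_pow, one_mul]
    refine val_sub_one_eq hp v hζ ?_ ?_
    · rw [div_pow, ← pow_mul, ← pow_mul, mul_comm i, mul_comm j, pow_mul, pow_mul,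
        hζ.pow_eq_one, one_pow, one_pow, div_one]
    · intro h
      rw [div_eq_one_iff_eq hζj] at h
      exact hij (hζ.pow_inj (Finset.mem_range.mp hi) (Finset.mem_range.mp hj) h)
  -- the matrix polynomial
  set Ft : ℂ[X] := ∏ j ∈ K, (X - C (ζ ^ j - 1)) with hFt
  set Gt : ℂ[X] := ∏ l ∈ S, (X - C (ζ ^ l - 1)) with hGt
  set N' : Matrix n n ℂ[X] := ∑ i ∈ K, (∏ j ∈ K.erase i, (X - C (ζ ^ j - 1))) • (Q i).map C
    with hN'
  have hN'ab : ∀ a b, N' a b = ∑ i ∈ K, (∏ j ∈ K.erase i, (X - C (ζ ^ j - 1))) * C (Q i a b) := by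
    intro a b
    rw [hN', Matrix.sum_apply]
    rfl
  have hN'v : ∀ a b m, v ((N' a b).coeff m) ^ 2 ≤ v (p : ℂ) := by
    intro a b m
    obtain ⟨h, hh, hh'⟩ := line_coeff v hp hζ K m
    have e1 : (N' a b).coeff m = ∑ j ∈ Finset.range (h.natDegree + 1),
        h.coeff j * (∑ i ∈ K, (ζ ^ i) ^ j • Q i) a b := by
      rw [hN'ab, finsetSum_coeff]
      simp only [coeff_mul_C, Matrix.sum_apply, Matrix.smul_apply, smul_eq_mul, Finset.mul_sum]
      rw [Finset.sum_comm]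
      refine Finset.sum_congr rfl (fun i hi => ?_)
      rw [hh' i hi, eval_eq_sum_range, Finset.sum_mul]
      exact Finset.sum_congr rfl (fun j _ => by ring)
    rw [e1]
    refine val_sq_sum_le v _ _ _ (fun j _ => ?_)
    rw [map_mul, mul_pow]
    calc v (h.coeff j) ^ 2 * v ((∑ i ∈ K, (ζ ^ i) ^ j • Q i) a b) ^ 2
        ≤ 1 * v (p : ℂ) := mul_le_mul' (pow_le_one₀ zero_le (hh j)) (hN j a b)
      _ = v (p : ℂ) := one_mul _
  have hN'int : ∀ a b, PInt v (N' a b) := fun a b i =>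
    le_one_of_sq_le_one ((hN'v a b i).trans hv.le)
  have hX1 : PInt v (1 + X : ℂ[X]) := PInt.one.add PInt.X
  have hlin : ∀ j, PInt v (X - C (ζ ^ j - 1)) := fun j =>
    PInt.X.sub (PInt.C (by rw [hy, map_mul]; exact mul_le_one' hvπ.le (hvy j)))
  have hFtint : PInt v Ft := PInt.prod _ _ (fun j _ => hlin j)
  have hGtint : PInt v Gt := PInt.prod _ _ (fun j _ => hlin j)
  have hFt1 : ∃ i, v (Ft.coeff i) = 1 := by
    refine ⟨Ft.natDegree, ?_⟩
    rw [(monic_prod_of_monic _ _ (fun j _ => monic_X_sub_C _) : Ft.Monic).coeff_natDegree, map_one]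
  set D : ℂ[X] := C (p : ℂ)⁻¹ * ((1 + X) * Gt) with hD
  choose M'' hM'' using fun a b => line_dvd hp hζ K hK Q hQ N' rfl a b
  have hA : ∀ a b, D * (N' * N') a b - N' a b = Ft * M'' a b := fun a b => hM'' a b
  have hNNv : ∀ a b i, v (((N' * N') a b).coeff i) ≤ v (p : ℂ) := by
    intro a b i
    rw [Matrix.mul_apply, finsetSum_coeff]
    refine val_sum_le v _ _ _ (fun c _ => ?_)
    rw [coeff_mul]
    refine val_sum_le v _ _ _ (fun x _ => ?_)
    rw [map_mul]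
    exact mul_le_of_sq_le (hN'v _ _ _) (hN'v _ _ _)
  have hM''int : ∀ a b, PInt v (M'' a b) := by
    intro a b
    refine pint_of_mul v hFtint hFt1 ?_
    rw [← hA]
    refine PInt.sub ?_ (hN'int a b)
    have e1 : D * (N' * N') a b = ((1 + X) * Gt) * (C (p : ℂ)⁻¹ * (N' * N') a b) := by
      rw [hD]; ring
    rw [e1]
    refine (hX1.mul hGtint).mul (fun i => ?_)
    rw [coeff_C_mul, map_mul, map_inv₀, inv_mul_le_iff₀ hvp0, mul_one]
    exact hNNv a b i
  -- the substitution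
  let φ : ℂ[X] →+* ℂ[X] := compRingHom (C π * X)
  have hφ : ∀ f : ℂ[X], φ f = f.comp (C π * X) := fun f => rfl
  have hφlin : ∀ j, φ (X - C (ζ ^ j - 1)) = C π * (X - C (y j)) := by
    intro j
    rw [hφ, sub_comp, X_comp, C_comp, hy, C_mul]
    ring
  set r : ℂ := π ^ k with hr
  have hr0 : r ≠ 0 := pow_ne_zero _ hπ0
  set F : ℂ[X] := ∏ j ∈ K, (X - C (y j)) with hFdef
  set G : ℂ[X] := ∏ l ∈ S, (X - C (y l)) with hGdef
  have hφF : φ Ft = C (π ^ (k + 1)) * F := by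
    rw [hFt, map_prod, Finset.prod_congr rfl (fun j _ => hφlin j), Finset.prod_mul_distrib,
      Finset.prod_const, hk, C_pow]
  have hφG : φ Gt = C (π ^ (m + 1)) * G := by
    rw [hGt, map_prod, Finset.prod_congr rfl (fun j _ => hφlin j), Finset.prod_mul_distrib,
      Finset.prod_const, hm, C_pow]
  have hφD : φ D = C (p : ℂ)⁻¹ * ((1 + C π * X) * (C (π ^ (m + 1)) * G)) := by
    rw [hD, map_mul, map_mul, hφG, map_add, map_one]
    simp only [hφ, C_comp, X_comp]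
  set g : ℂ[X] := C (π ^ (p - 1) / p) * ((1 + C π * X) * G) with hgdef
  have hg : g = C r * φ D := by
    have e1 : π ^ (p - 1) / (p : ℂ) = r * ((p : ℂ)⁻¹ * π ^ (m + 1)) := by
      rw [← hkm, hr, pow_add, div_eq_mul_inv]
      ring
    rw [hgdef, hφD, e1, C_mul, C_mul]
    ring
  set N : Matrix n n ℂ[X] := C r⁻¹ • φ.mapMatrix N' with hNdef
  set M : Matrix n n ℂ[X] := C π • φ.mapMatrix (Matrix.of M'') with hMdef
  have hrr : C r * C r⁻¹ = (1 : ℂ[X]) := by rw [← C_mul, mul_inv_cancel₀ hr0, C_1]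
  have hrπ : C r⁻¹ * C (π ^ (k + 1)) = (C π : ℂ[X]) := by
    rw [← C_mul, pow_succ, ← hr, inv_mul_cancel_left₀ hr0]
  have hmain : g • (N * N) - N = F • M := by
    have e0 : N * N = (C r⁻¹ * C r⁻¹) • φ.mapMatrix (N' * N') := by
      rw [hNdef, map_mul, smul_mul_smul_comm]
    rw [e0]
    ext1 a b
    have e1 : φ D * φ ((N' * N') a b) - φ (N' a b) = φ Ft * φ (M'' a b) := by
      rw [← map_mul, ← map_sub, hA, map_mul]
    have e2 : (g • ((C r⁻¹ * C r⁻¹) • φ.mapMatrix (N' * N')) - N) a b =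
        g * (C r⁻¹ * C r⁻¹ * φ ((N' * N') a b)) - C r⁻¹ * φ (N' a b) := rfl
    have e3 : (F • M) a b = F * (C π * φ (M'' a b)) := rfl
    rw [e2, e3]
    calc g * (C r⁻¹ * C r⁻¹ * φ ((N' * N') a b)) - C r⁻¹ * φ (N' a b)
        = (C r * C r⁻¹) * (C r⁻¹ * (φ D * φ ((N' * N') a b))) - C r⁻¹ * φ (N' a b) := by
          rw [hg]; ring
      _ = C r⁻¹ * (φ D * φ ((N' * N') a b) - φ (N' a b)) := by rw [hrr]; ring
      _ = (C r⁻¹ * C (π ^ (k + 1))) * (F * φ (M'' a b)) := by rw [e1, hφF]; ring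
      _ = F * (C π * φ (M'' a b)) := by rw [hrπ]; ring
  have hylin : ∀ j, PInt v (X - C (y j)) := fun j => PInt.X.sub (PInt.C (hvy j))
  have hFint : PInt v F := PInt.prod _ _ (fun j _ => hylin j)
  have hGint : PInt v G := PInt.prod _ _ (fun j _ => hylin j)
  have hunit : v (π ^ (p - 1) / (p : ℂ)) = 1 := by
    rw [map_div₀, map_pow, ← hvp, div_self hvp0.ne']
  have hXπ : PInt v (1 + C π * X : ℂ[X]) := PInt.one.add ((PInt.C hvπ.le).mul PInt.X)
  have hgint : PInt v g := (PInt.C hunit.le).mul (hXπ.mul hGint)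
  have hGmonic : G.Monic := monic_prod_of_monic _ _ (fun j _ => monic_X_sub_C _)
  have hGdeg : G.natDegree = m + 1 := by
    rw [hGdef, natDegree_prod_of_monic _ _ (fun j _ => monic_X_sub_C _)]
    simp only [natDegree_X_sub_C, Finset.sum_const, smul_eq_mul, mul_one]
    exact hm
  have hg1 : ∃ i, 1 ≤ i ∧ v (g.coeff i) = 1 := by
    refine ⟨m + 1, by omega, ?_⟩
    have e1 : g.coeff (m + 1) = π ^ (p - 1) / (p : ℂ) * (1 + π * G.coeff m) := by
      rw [hgdef, coeff_C_mul, add_mul, one_mul, coeff_add, mul_assoc, coeff_C_mul, coeff_X_mul]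
      congr 2
      have := hGmonic.coeff_natDegree
      rwa [hGdeg] at this
    rw [e1, map_mul, hunit, one_mul]
    have e2 : v (π * G.coeff m) < 1 := by
      rw [map_mul]
      exact mul_lt_one_of_nonneg_of_lt_one_left zero_le hvπ (hGint m)
    exact v.map_one_add_of_lt e2
  have hMsm : ∀ a b, PSmall v (M a b) := by
    intro a b i
    have e1 : (M a b).coeff i = π * ((M'' a b).coeff i * π ^ i) := by
      change (C π * φ (M'' a b)).coeff i = _
      rw [coeff_C_mul, hφ, comp_C_mul_X_coeff]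
    rw [e1, map_mul, map_mul, map_pow]
    exact mul_lt_one_of_nonneg_of_lt_one_left zero_le hvπ
      (mul_le_one' (hM''int a b i) (pow_le_one₀ zero_le hvπ.le))
  have hsm := tower v g F hgint hg1 hFint N M hMsm hmain
  -- conclusion
  refine eq_zero_of_small v (Q i1) (hQ i1 hi1) (fun a b => ?_)
  have h1 := (hsm a b).val_eval_lt (hvy i1)
  have e1 : (N a b).eval (y i1) = r⁻¹ * ((∏ j ∈ K.erase i1, (ζ ^ i1 - ζ ^ j)) * Q i1 a b) := by
    have e2 : (N a b).eval (y i1) = r⁻¹ * (N' a b).eval (ζ ^ i1 - 1) := by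
      change (C r⁻¹ * φ (N' a b)).eval (y i1) = _
      rw [eval_mul, eval_C, hφ, eval_comp, eval_mul, eval_C, eval_X, ← hy]
    rw [e2, hN'ab, eval_finsetSum, Finset.sum_eq_single i1]
    · rw [eval_mul, eval_C, eval_prod]
      congr 2
      refine Finset.prod_congr rfl (fun j _ => ?_)
      simp
    · intro j hj hji
      rw [eval_mul, eval_prod, Finset.prod_eq_zero (Finset.mem_erase.mpr ⟨hji.symm, hi1⟩)
        (by simp), zero_mul]
    · intro h
      exact absurd hi1 h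
  have e3 : v (∏ j ∈ K.erase i1, (ζ ^ i1 - ζ ^ j)) = v r := by
    rw [map_prod, Finset.prod_congr rfl (fun j hj => hvζζ i1 (hK hi1) j
      (hK (Finset.mem_of_mem_erase hj)) (Finset.ne_of_mem_erase hj).symm), Finset.prod_const,
      Finset.card_erase_of_mem hi1, hk, hr, map_pow, Nat.add_sub_cancel]
  rw [e1, map_mul, map_mul, e3, map_inv₀, inv_mul_cancel_left₀] at h1
  · exact h1
  · exact (Valuation.ne_zero_iff v).mpr hr0

end Pool.Agent.H.MP_7d3ffc_al
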