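import Mathlib
import Pool.Agent.H.MP_7d3ffc_al.GLL.Setup
import Pool.Agent.H.MP_7d3ffc_al.GLL.Line

/-!
Characters on a line.
-/

namespace Pool.Agent.H.MP_7d3ffc_al

open Finset

variable {Γ₀ : Type*} [LinearOrderedCommGroupWithZero Γ₀]

theorem LineG_pow_apply {Q : Type*} [Group Q] (ω : Q →* ℂˣ) (i : ℕ) (x : Q) :
    (ω ^ i) x = ω x ^ i := rfl

theorem LineG_one_pow {Q : Type*} [Group Q] (i : ℕ) : (1 : Q →* ℂˣ) ^ i = 1 := by
  refine MonoidHom.ext fun x => ?_
  rw [LineG_pow_apply, MonoidHom.one_apply, one_pow]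

theorem LineG_pow_mod {Q : Type*} [Group Q] {ω : Q →* ℂˣ} {p : ℕ} (hω : ω ^ p = 1) (i : ℕ) :
    ω ^ (i % p) = ω ^ i := by
  refine MonoidHom.ext fun x => ?_
  have h1 : (ω x) ^ p = 1 := by
    rw [← LineG_pow_apply, hω, MonoidHom.one_apply]
  rw [LineG_pow_apply, LineG_pow_apply, ← pow_eq_pow_mod i h1]

/-- The case that all characters in `K` are of the form `μ ω^i`.

Proof. If `ω = 1` then `K ⊆ {μ}` and `h.2 1` says `v (E μ a b) ^ 2 ≤ v p < 1`; use
`eq_zero_of_small`. Otherwise take `x₀` with `ω x₀ ≠ 1`; `ζ = ω x₀` is a primitive `p`-th root of unity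
(`ω ^ p = 1`, `p` prime). Let `K' = {i ∈ range p | μ ω^i ∈ K}`, `Q i = E (μ ω^i)`. The map
`i ↦ μ ω^i` is a bijection from `K'` to `K` (`ω^i = ω^(i % p)`; injective as `ζ^i = ζ^j` with
`i, j < p` implies `i = j`). Apply `line_core`: `(ζ^i)^j • Q i = μ(x₀^j)⁻¹ • (χ(x₀^j) • E χ)` for
`χ = μ ω^i`, so the sum is `μ(x₀^j)⁻¹ • ∑_{χ ∈ K} χ(x₀^j) • E χ` and `v(μ(x₀^j)) = 1`; use `h.2`. -/
theorem ghyp_line {p : ℕ} [Fact p.Prime] (v : Valuation ℂ Γ₀) (hv : v (p : ℂ) < 1) {Q : Type*}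
    [Group Q] [Finite Q] {n : Type*} [Fintype n] [DecidableEq n] {K : Finset (Q →* ℂˣ)}
    {E : (Q →* ℂˣ) → Matrix n n ℂ} (h : GHyp v p K E) (hK : K.card < p)
    (μ ω : Q →* ℂˣ) (hμ : ∀ x : Q, v ((μ x : ℂˣ) : ℂ) = 1) (hω : ω ^ p = 1)
    (hline : ∀ χ ∈ K, ∃ i : ℕ, χ = μ * ω ^ i) : ∀ χ ∈ K, E χ = 0 := by
  classical
  have hp : p.Prime := Fact.out
  by_cases hω1 : ω = 1
  · intro χ hχ
    have hall : ∀ ψ ∈ K, ψ = μ := by
      intro ψ hψ
      obtain ⟨i, hi⟩ := hline ψ hψ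
      rw [hi, hω1, LineG_one_pow]
      exact MonoidHom.ext fun x => by rw [MonoidHom.mul_apply, MonoidHom.one_apply, mul_one]
    have hχμ : χ = μ := hall χ hχ
    have hK1 : K = {μ} := by
      refine Finset.eq_singleton_iff_unique_mem.2 ⟨hχμ ▸ hχ, hall⟩
    rw [hχμ]
    refine eq_zero_of_small v (E μ) (h.1 μ (hχμ ▸ hχ)) ?_
    intro a b
    have h1 := h.2 1 a b
    rw [hK1, Finset.sum_singleton, map_one, Units.val_one, one_smul] at h1
    have h2 : v (E μ a b) ^ 2 < 1 := lt_of_le_of_lt h1 hv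
    by_contra hcon
    push Not at hcon
    exact absurd h2 (not_lt.2 (one_le_pow₀ hcon))
  · obtain ⟨x₀, hx₀⟩ : ∃ x₀, ω x₀ ≠ 1 := by
      by_contra hcon
      push Not at hcon
      exact hω1 (MonoidHom.ext hcon)
    have hωx : (ω x₀) ^ p = 1 := by
      have := congrArg (fun f : Q →* ℂˣ => f x₀) hω
      simpa using this
    set ζ : ℂ := ((ω x₀ : ℂˣ) : ℂ) with hζdef
    have hζp : ζ ^ p = 1 := by
      rw [hζdef, ← Units.val_pow_eq_pow_val, hωx, Units.val_one]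
    have hζ1 : ζ ≠ 1 := by
      intro hcon
      exact hx₀ (Units.ext hcon)
    have hζ : IsPrimitiveRoot ζ p := by
      have h1 := IsPrimitiveRoot.orderOf ζ
      rwa [orderOf_eq_prime hζp hζ1] at h1
    have hinj : ∀ i ∈ Finset.range p, ∀ j ∈ Finset.range p, μ * ω ^ i = μ * ω ^ j → i = j := by
      intro i hi j hj hij
      have h1 : ω ^ i = ω ^ j := mul_left_cancel hij
      have h2 : ζ ^ i = ζ ^ j := by
        have h3 := congrArg (fun f : Q →* ℂˣ => ((f x₀ : ℂˣ) : ℂ)) h1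
        simpa using h3
      exact hζ.pow_inj (Finset.mem_range.1 hi) (Finset.mem_range.1 hj) h2
    set K' : Finset ℕ := (Finset.range p).filter (fun i => μ * ω ^ i ∈ K) with hK'def
    have hK' : ∀ i, i ∈ K' ↔ i ∈ Finset.range p ∧ μ * ω ^ i ∈ K := fun i => Finset.mem_filter
    have himg : K = K'.image (fun i => μ * ω ^ i) := by
      ext χ
      rw [Finset.mem_image]
      constructor
      · intro hχ
        obtain ⟨i, hi⟩ := hline χ hχ
        have h1 : μ * ω ^ (i % p) = χ := by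
          rw [hi, LineG_pow_mod hω i]
        exact ⟨i % p, (hK' _).2 ⟨Finset.mem_range.2 (Nat.mod_lt _ hp.pos), h1 ▸ hχ⟩, h1⟩
      · rintro ⟨i, hi, rfl⟩
        exact ((hK' i).1 hi).2
    have hinjK : Set.InjOn (fun i => μ * ω ^ i) (K' : Set ℕ) := by
      intro i hi j hj hij
      exact hinj i ((hK' i).1 hi).1 j ((hK' j).1 hj).1 hij
    have hcard : K'.card < p := by
      have h1 : K.card = K'.card := by
        rw [himg]
        exact Finset.card_image_of_injOn hinjK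
      omega
    have hcore := line_core hp v hv hζ K' (Finset.filter_subset _ _) hcard
      (fun i => E (μ * ω ^ i)) (fun i hi => h.1 _ ((hK' i).1 hi).2) (by
        intro j a b
        have hsum : (∑ i ∈ K', (ζ ^ i) ^ j • E (μ * ω ^ i)) =
            (((μ (x₀ ^ j))⁻¹ : ℂˣ) : ℂ) • ∑ χ ∈ K, ((χ (x₀ ^ j) : ℂˣ) : ℂ) • E χ := by
          conv_rhs => rw [himg]
          rw [Finset.sum_image hinjK, Finset.smul_sum]
          refine Finset.sum_congr rfl fun i _ => ?_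
          rw [smul_smul]
          congr 1
          rw [← Units.val_mul, MonoidHom.mul_apply, inv_mul_cancel_left, MonoidHom.pow_apply,
            map_pow, Units.val_pow_eq_pow_val, Units.val_pow_eq_pow_val, ← hζdef, ← pow_mul,
            ← pow_mul, mul_comm i j]
        have hinv : v (((μ (x₀ ^ j))⁻¹ : ℂˣ) : ℂ) = 1 := by
          rw [Units.val_inv_eq_inv_val, map_inv₀, hμ, inv_one]
        rw [hsum, Matrix.smul_apply, smul_eq_mul, map_mul, hinv, one_mul]
        exact h.2 (x₀ ^ j) a b)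
    intro χ hχ
    rw [himg, Finset.mem_image] at hχ
    obtain ⟨i, hi, rfl⟩ := hχ
    exact hcore i hi

end Pool.Agent.H.MP_7d3ffc_al
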