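import Mathlib
import Pool.Agent.H.MP_7d3ffc_al.Val

/-!
Points failing to impose independent conditions.
-/

namespace Pool.Agent.H.MP_7d3ffc_al

variable {Γ₀ : Type*} [LinearOrderedCommGroupWithZero Γ₀]

/-- The relation of degree `d`: for all products `f` of at most `d` functions in `H`, all
coordinates of `∑ f(χ) c(χ)` have value less than one. -/
def RelDeg (v : Valuation ℂ Γ₀) {κ ι : Type*} (K : Finset κ) (H : Set (κ → ℂ)) (d : ℕ)
    (c : κ → ι → ℂ) : Prop :=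
  ∀ l : List (κ → ℂ), (∀ h ∈ l, h ∈ H) → l.length ≤ d →
    ∀ i, v (∑ χ ∈ K, (l.map (fun h => h χ)).prod * c χ i) < 1

theorem RelLemma_prod_le (v : Valuation ℂ Γ₀) {κ : Type*} (H : Set (κ → ℂ)) (χ : κ)
    (hH : ∀ h ∈ H, v (h χ) ≤ 1) (l : List (κ → ℂ)) (hl : ∀ h ∈ l, h ∈ H) :
    v ((l.map (fun h => h χ)).prod) ≤ 1 := by
  induction l with
  | nil => simp
  | cons a l ih =>
    rw [List.map_cons, List.prod_cons, map_mul]
    have h1 := hH a (hl a (by simp))
    have h2 := ih (fun h hh => hl h (by simp [hh]))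
    exact mul_le_one' h1 h2

theorem RelLemma_prod_one (v : Valuation ℂ Γ₀) {κ : Type*} (χ : κ)
    (l : List (κ → ℂ)) (hl : ∀ h ∈ l, v (h χ) = 1) :
    v ((l.map (fun h => h χ)).prod) = 1 := by
  induction l with
  | nil => simp
  | cons a l ih =>
    rw [List.map_cons, List.prod_cons, map_mul, hl a (by simp), one_mul]
    exact ih (fun h hh => hl h (by simp [hh]))

/-- First part of the lemma. -/
theorem RelLemma_first (v : Valuation ℂ Γ₀) {κ ι : Type*} [DecidableEq κ] (K : Finset κ)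
    (H : Set (κ → ℂ))
    (hH : ∀ h ∈ H, ∀ χ ∈ K, h χ = 0 ∨ v (h χ) = 1)
    (hsep2 : ∀ μ ∈ K, ∀ lam ∈ K, μ ≠ lam → ∃ h ∈ H, h μ = 0 ∧ h lam ≠ 0)
    (d : ℕ) (c : κ → ι → ℂ) (hc : ∀ χ ∈ K, ∀ i, v (c χ i) ≤ 1) (hrel : RelDeg v K H d c)
    (S : Finset κ) (hS : ∀ χ, χ ∈ S ↔ χ ∈ K ∧ ∃ i, v (c χ i) = 1) (hne : S.Nonempty) :
    d + 2 ≤ S.card := by
  classical
  by_contra hcon
  obtain ⟨lam, hlam⟩ := hne
  obtain ⟨hlamK, i, hi⟩ := (hS lam).1 hlam
  have hch : ∀ χ : κ, ∃ h : κ → ℂ, χ ∈ S.erase lam → (h ∈ H ∧ h χ = 0 ∧ h lam ≠ 0) := by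
    intro χ
    by_cases hχ : χ ∈ S.erase lam
    · obtain ⟨h, h1, h2, h3⟩ := hsep2 χ ((hS χ).1 (Finset.mem_of_mem_erase hχ)).1 lam hlamK
        (Finset.ne_of_mem_erase hχ)
      exact ⟨h, fun _ => ⟨h1, h2, h3⟩⟩
    · exact ⟨0, fun h => absurd h hχ⟩
  choose g hg using hch
  obtain ⟨l, hl⟩ : ∃ l : List (κ → ℂ), l = (S.erase lam).toList.map g := ⟨_, rfl⟩
  have hlH : ∀ h ∈ l, h ∈ H := by
    intro h hh
    rw [hl, List.mem_map] at hh
    obtain ⟨χ, hχ, rfl⟩ := hh
    exact (hg χ (Finset.mem_toList.1 hχ)).1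
  have hlen : l.length ≤ d := by
    rw [hl, List.length_map, Finset.length_toList, Finset.card_erase_of_mem hlam]
    omega
  have h1 := hrel l hlH hlen i
  have hle : ∀ χ ∈ K, ∀ h ∈ H, v (h χ) ≤ 1 := by
    intro χ hχ h hh
    rcases hH h hh χ hχ with h0 | h0
    · rw [h0, map_zero]
      exact zero_le'
    · exact h0.le
  have h2 : v (∑ χ ∈ K.erase lam, (l.map (fun h => h χ)).prod * c χ i) < 1 := by
    apply Valuation.map_sum_lt _ one_ne_zero
    intro χ hχ
    have hχK := Finset.mem_of_mem_erase hχ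
    by_cases hχS : χ ∈ S
    · have hmem : χ ∈ S.erase lam := Finset.mem_erase.2 ⟨Finset.ne_of_mem_erase hχ, hχS⟩
      have h0 : (l.map (fun h => h χ)).prod = 0 := by
        apply List.prod_eq_zero
        rw [List.mem_map]
        refine ⟨g χ, ?_, (hg χ hmem).2.1⟩
        rw [hl, List.mem_map]
        exact ⟨χ, Finset.mem_toList.2 hmem, rfl⟩
      rw [h0, zero_mul, map_zero]
      exact zero_lt_one
    · rw [map_mul]
      have h3 : v (c χ i) < 1 := by
        refine lt_of_le_of_ne (hc χ hχK i) fun h4 => hχS ?_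
        exact (hS χ).2 ⟨hχK, i, h4⟩
      have h4 := RelLemma_prod_le v H χ (hle χ hχK) l hlH
      exact (mul_le_of_le_one_left' h4).trans_lt h3
  have h3 : v ((l.map (fun h => h lam)).prod * c lam i) = 1 := by
    rw [map_mul, hi, mul_one]
    apply RelLemma_prod_one
    intro h hh
    rw [hl, List.mem_map] at hh
    obtain ⟨χ, hχ, rfl⟩ := hh
    have h4 := hg χ (Finset.mem_toList.1 hχ)
    exact (hH _ h4.1 lam hlamK).resolve_left h4.2.2
  have h4 : (l.map (fun h => h lam)).prod * c lam i =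
      (∑ χ ∈ K, (l.map (fun h => h χ)).prod * c χ i) -
        ∑ χ ∈ K.erase lam, (l.map (fun h => h χ)).prod * c χ i := by
    rw [← Finset.add_sum_erase K _ hlamK, add_sub_cancel_right]
  rw [h4] at h3
  have h5 := (Valuation.map_sub v (∑ χ ∈ K, (l.map (fun h => h χ)).prod * c χ i)
    (∑ χ ∈ K.erase lam, (l.map (fun h => h χ)).prod * c χ i))
  rw [h3] at h5
  exact absurd (max_lt h1 h2) (not_lt.2 h5)

/-- If `c` satisfies a relation of degree `d` and `S ≠ ∅` is the set of `χ` such that `c χ` is not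
small, then `|S| ≥ d + 2`, and if `|S| ≤ 2 d + 1` then `S` is contained in a line.

Proof by induction on `d`. First part: let `lam ∈ S` and suppose `|S| ≤ d + 1`. For every `χ ∈ S`,
`χ ≠ lam` take a form vanishing at `χ` and not at `lam` (`hsep2`); these are at most `d` forms, with
product `f`, `f(χ) = 0` for `χ ∈ S`, `χ ≠ lam`, `v(f(lam)) = 1`. For `i` with `v(c lam i) = 1` the sum
`∑ f(χ) c χ i` has value `1` (the terms with `χ ∉ S` have value less than one), a contradiction.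

Second part: for `d = 0` it is void, as `|S| ≥ 2`. Let `d ≥ 1`, `|S| ≤ 2 d + 1` and suppose that
`S` is not contained in a line. For every `μ ≠ ν` in `K` there is `χ₀ ∈ S` not on the line of `μ`, `ν`,
and a form `h` (`hsep1`) vanishing on the line with `h(χ₀) ≠ 0`. The family `h(χ) c χ` satisfies a
relation of degree `d - 1`, and its set is `S_h = {χ ∈ S : h(χ) ≠ 0}`, nonempty; by induction
`|S_h| ≥ d + 1`. Apply this first to `μ ≠ ν` in `S` (`|S| ≥ d + 2 ≥ 2`): `μ, ν ∉ S_h`, so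
`|S_h| ≤ |S| - 2 ≤ 2 (d - 1) + 1` and by induction `S_h` is contained in the line of some
`μ' ≠ ν'` in `K`. Apply it again to `μ'`, `ν'`, which gives a form `h'` vanishing on `S_h` with
`|S_{h'}| ≥ d + 1`. As `S_h` and `S_{h'}` are disjoint subsets of `S`, `|S| ≥ 2 d + 2`, a
contradiction. -/
theorem rel_lemma (v : Valuation ℂ Γ₀) {κ ι : Type*} [DecidableEq κ] (K : Finset κ)
    (H : Set (κ → ℂ)) (L : κ → κ → κ → Prop)
    (hH : ∀ h ∈ H, ∀ χ ∈ K, h χ = 0 ∨ v (h χ) = 1)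
    (hL1 : ∀ μ ν, L μ ν μ) (hL2 : ∀ μ ν, L μ ν ν)
    (hsep1 : ∀ μ ∈ K, ∀ ν ∈ K, μ ≠ ν → ∀ lam ∈ K, ¬ L μ ν lam →
      ∃ h ∈ H, (∀ χ ∈ K, L μ ν χ → h χ = 0) ∧ h lam ≠ 0)
    (hsep2 : ∀ μ ∈ K, ∀ lam ∈ K, μ ≠ lam → ∃ h ∈ H, h μ = 0 ∧ h lam ≠ 0)
    (d : ℕ) : ∀ (c : κ → ι → ℂ), (∀ χ ∈ K, ∀ i, v (c χ i) ≤ 1) → RelDeg v K H d c →
    ∀ S : Finset κ, (∀ χ, χ ∈ S ↔ χ ∈ K ∧ ∃ i, v (c χ i) = 1) → S.Nonempty →
    d + 2 ≤ S.card ∧ (S.card ≤ 2 * d + 1 →
      ∃ μ ∈ K, ∃ ν ∈ K, μ ≠ ν ∧ ∀ χ ∈ S, L μ ν χ) := by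
  classical
  have hle : ∀ χ ∈ K, ∀ h ∈ H, v (h χ) ≤ 1 := by
    intro χ hχ h hh
    rcases hH h hh χ hχ with h0 | h0
    · rw [h0, map_zero]
      exact zero_le'
    · exact h0.le
  induction d with
  | zero =>
    intro c hc hrel S hS hne
    have h1 := RelLemma_first v K H hH hsep2 0 c hc hrel S hS hne
    exact ⟨h1, fun h2 => by omega⟩
  | succ e ih =>
    intro c hc hrel S hS hne
    have h1 := RelLemma_first v K H hH hsep2 (e + 1) c hc hrel S hS hne
    refine ⟨h1, fun h2 => ?_⟩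
    by_contra hcon
    push Not at hcon
    have key : ∀ μ ∈ K, ∀ ν ∈ K, μ ≠ ν → ∃ h : κ → ℂ,
        (∀ χ ∈ K, L μ ν χ → h χ = 0) ∧ e + 2 ≤ (S.filter fun χ => h χ ≠ 0).card ∧
        ((S.filter fun χ => h χ ≠ 0).card ≤ 2 * e + 1 →
          ∃ μ' ∈ K, ∃ ν' ∈ K, μ' ≠ ν' ∧ ∀ χ ∈ S.filter (fun χ => h χ ≠ 0), L μ' ν' χ) := by
      intro μ hμ ν hν hμν
      obtain ⟨χ₀, hχ₀, hL⟩ := hcon μ hμ ν hν hμν
      obtain ⟨h, hh, hz, hnz⟩ := hsep1 μ hμ ν hν hμν χ₀ ((hS χ₀).1 hχ₀).1 hL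
      have h3 := ih (fun χ i => h χ * c χ i) (by
          intro χ hχ i
          rw [map_mul]
          exact mul_le_one' (hle χ hχ h hh) (hc χ hχ i)) (by
          intro l hl hlen i
          have h4 := hrel (h :: l) (by
            intro h' hh'
            rcases List.mem_cons.1 hh' with h5 | h5
            · rw [h5]
              exact hh
            · exact hl h' h5) (by
            rw [List.length_cons]
            omega) i
          have h5 : ∑ χ ∈ K, (l.map (fun h => h χ)).prod * (h χ * c χ i) =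
              ∑ χ ∈ K, ((h :: l).map (fun h => h χ)).prod * c χ i := by
            refine Finset.sum_congr rfl fun χ _ => ?_
            rw [List.map_cons, List.prod_cons]
            ring
          rw [h5]
          exact h4) (S.filter fun χ => h χ ≠ 0) (by
          intro χ
          rw [Finset.mem_filter]
          constructor
          · rintro ⟨h4, h5⟩
            obtain ⟨h6, i, h7⟩ := (hS χ).1 h4
            refine ⟨h6, i, ?_⟩
            rw [map_mul, h7, mul_one]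
            exact (hH h hh χ h6).resolve_left h5
          · rintro ⟨h4, i, h5⟩
            have h6 : h χ ≠ 0 := by
              intro h7
              rw [h7, zero_mul, map_zero] at h5
              exact zero_ne_one h5
            refine ⟨(hS χ).2 ⟨h4, i, ?_⟩, h6⟩
            rw [map_mul, (hH h hh χ h4).resolve_left h6, one_mul] at h5
            exact h5) ⟨χ₀, Finset.mem_filter.2 ⟨hχ₀, hnz⟩⟩
      exact ⟨h, hz, h3.1, h3.2⟩
    obtain ⟨μ, hμ, ν, hν, hμν⟩ := Finset.one_lt_card.1 (show 1 < S.card by omega)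
    obtain ⟨h, hz, hk1, hk2⟩ := key μ ((hS μ).1 hμ).1 ν ((hS ν).1 hν).1 hμν
    have h3 : (S.filter fun χ => h χ ≠ 0).card ≤ 2 * e + 1 := by
      have h4 : (S.filter fun χ => h χ ≠ 0) ⊆ (S.erase μ).erase ν := by
        intro χ hχ
        rw [Finset.mem_filter] at hχ
        rw [Finset.mem_erase, Finset.mem_erase]
        refine ⟨?_, ?_, hχ.1⟩
        · rintro rfl
          exact hχ.2 (hz _ ((hS _).1 hν).1 (hL2 _ _))
        · rintro rfl
          exact hχ.2 (hz _ ((hS _).1 hμ).1 (hL1 _ _))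
      have h5 := Finset.card_le_card h4
      rw [Finset.card_erase_of_mem (Finset.mem_erase.2 ⟨hμν.symm, hν⟩),
        Finset.card_erase_of_mem hμ] at h5
      omega
    obtain ⟨μ', hμ', ν', hν', hμν', hall⟩ := hk2 h3
    obtain ⟨h', hz', hk1', -⟩ := key μ' hμ' ν' hν' hμν'
    have h4 : Disjoint (S.filter fun χ => h χ ≠ 0) (S.filter fun χ => h' χ ≠ 0) := by
      rw [Finset.disjoint_left]
      intro χ hχ hχ'
      exact (Finset.mem_filter.1 hχ').2
        (hz' χ ((hS χ).1 (Finset.mem_filter.1 hχ).1).1 (hall χ hχ))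
    have h5 : ((S.filter fun χ => h χ ≠ 0) ∪ (S.filter fun χ => h' χ ≠ 0)).card ≤ S.card :=
      Finset.card_le_card (Finset.union_subset (Finset.filter_subset _ _)
        (Finset.filter_subset _ _))
    rw [Finset.card_union_of_disjoint h4] at h5
    omega

end Pool.Agent.H.MP_7d3ffc_al
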