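import Mathlib
import Pool.Agent.H.MP_7d3ffc_al.GLL.Forms
import Pool.Agent.H.MP_7d3ffc_al.GLL.RelLemma

/-!
Characters congruent modulo characters of order `p` and not on a line.
-/

namespace Pool.Agent.H.MP_7d3ffc_al

open Finset

variable {Γ₀ : Type*} [LinearOrderedCommGroupWithZero Γ₀]

theorem PlaneG_mul_lt (v : Valuation ℂ Γ₀) {x y : ℂ} (hx : v x ≤ 1) (hy : v y < 1) :
    v (x * y) < 1 := by
  rw [map_mul]
  calc v x * v y ≤ 1 * v y := by gcongr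
    _ < 1 := by rwa [one_mul]

theorem PlaneG_mul_le (v : Valuation ℂ Γ₀) {x y : ℂ} (hx : v x ≤ 1) (hy : v y ≤ 1) :
    v (x * y) ≤ 1 := by
  rw [map_mul]
  calc v x * v y ≤ 1 * 1 := by gcongr
    _ = 1 := by rw [one_mul]

theorem PlaneG_sub_lt (v : Valuation ℂ Γ₀) {x y : ℂ} (hx : v x < 1) (hy : v y < 1) :
    v (x - y) < 1 :=
  (v.map_sub x y).trans_lt (max_lt hx hy)

theorem PlaneG_add_lt (v : Valuation ℂ Γ₀) {x y : ℂ} (hx : v x < 1) (hy : v y < 1) :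
    v (x + y) < 1 :=
  v.map_add_lt hx hy

theorem PlaneG_prod_one (v : Valuation ℂ Γ₀) {κ : Type*} (χ : κ) (l : List (κ → ℂ))
    (h : ∀ g ∈ l, v (g χ) = 1) : v ((l.map (fun h => h χ)).prod) = 1 := by
  induction l with
  | nil => simp
  | cons g l ih =>
    rw [List.map_cons, List.prod_cons, map_mul, h g List.mem_cons_self,
      ih fun g' hg' => h g' (List.mem_cons_of_mem _ hg'), one_mul]

theorem PlaneG_apply {κ : Type*} {n : Type*} (K : Finset κ) (f : κ → ℂ) (E : κ → Matrix n n ℂ)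
    (a b : n) : (∑ χ ∈ K, f χ • E χ) a b = ∑ χ ∈ K, f χ * E χ a b := by
  rw [Matrix.sum_apply]
  rfl

theorem PlaneG_line1 {Q : Type*} [Group Q] (μ ν : Q →* ℂˣ) : OnLine μ ν μ :=
  ⟨0, MonoidHom.ext fun x => by simp⟩

theorem PlaneG_line2 {Q : Type*} [Group Q] (μ ν : Q →* ℂˣ) : OnLine μ ν ν :=
  ⟨1, MonoidHom.ext fun x => by simp⟩

/-- Claim N of the proof of `ghyp_plane`. -/
theorem PlaneG_claim (v : Valuation ℂ Γ₀) {κ ι : Type*} [DecidableEq κ] {n : Type*} [Fintype n]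
    [DecidableEq n] (K : Finset κ) (H : Set (κ → ℂ)) (L : κ → κ → κ → Prop)
    (hH : ∀ h ∈ H, ∀ χ ∈ K, h χ = 0 ∨ v (h χ) = 1)
    (hL1 : ∀ μ ν, L μ ν μ) (hL2 : ∀ μ ν, L μ ν ν)
    (hsep1 : ∀ μ ∈ K, ∀ ν ∈ K, μ ≠ ν → ∀ lam ∈ K, ¬ L μ ν lam →
      ∃ h ∈ H, (∀ χ ∈ K, L μ ν χ → h χ = 0) ∧ h lam ≠ 0)
    (hsep2 : ∀ μ ∈ K, ∀ lam ∈ K, μ ≠ lam → ∃ h ∈ H, h μ = 0 ∧ h lam ≠ 0)
    (d : ℕ) (E : κ → Matrix n n ℂ) (hE : ∀ χ ∈ K, E χ * E χ = E χ) (hE0 : ∀ χ ∈ K, E χ ≠ 0)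
    (ha : ∀ l : List (κ → ℂ), (∀ h ∈ l, h ∈ H) → l.length ≤ d → ∀ a b,
      v ((∑ χ ∈ K, (l.map (fun h => h χ)).prod • E χ) a b) < 1)
    (hcard : K.card ≤ 2 * d + 2)
    (hK2 : ¬ ∃ μ ∈ K, ∃ ν ∈ K, μ ≠ ν ∧ ∀ χ ∈ K, L μ ν χ)
    (c : κ → ι → ℂ) (hc1 : ∀ χ ∈ K, ∀ i, v (c χ i) ≤ 1) (hc : RelDeg v K H d c)
    (S : Finset κ) (hS : ∀ χ, χ ∈ S ↔ χ ∈ K ∧ ∃ i, v (c χ i) = 1) (hne : S.Nonempty) :
    S = K ∧ K.card = 2 * d + 2 := by
  classical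
  obtain ⟨h1, h2⟩ := rel_lemma v K H L hH hL1 hL2 hsep1 hsep2 d c hc1 hc S hS hne
  have hSK : S ⊆ K := fun χ hχ => ((hS χ).1 hχ).1
  by_cases hle : S.card ≤ 2 * d + 1
  · exfalso
    obtain ⟨μ, hμ, ν, hν, hμν, hline⟩ := h2 hle
    obtain ⟨lam, hlam, hnl⟩ : ∃ lam ∈ K, ¬ L μ ν lam := by
      by_contra hcon
      push Not at hcon
      exact hK2 ⟨μ, hμ, ν, hν, hμν, hcon⟩
    obtain ⟨h0, hh0, h00, h01⟩ := hsep1 μ hμ ν hν hμν lam hlam hnl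
    have hch : ∀ χ : κ, ∃ g : κ → ℂ, χ ∈ K → χ ≠ lam → g ∈ H ∧ g χ = 0 ∧ g lam ≠ 0 := by
      intro χ
      by_cases h : χ ∈ K ∧ χ ≠ lam
      · obtain ⟨g, hg⟩ := hsep2 χ h.1 lam hlam h.2
        exact ⟨g, fun _ _ => hg⟩
      · exact ⟨0, fun h3 h4 => absurd ⟨h3, h4⟩ h⟩
    choose g hg using hch
    let K' := K.filter fun χ => χ ≠ lam ∧ ¬ L μ ν χ
    have hK' : ∀ χ, χ ∈ K' ↔ χ ∈ K ∧ χ ≠ lam ∧ ¬ L μ ν χ := fun χ => Finset.mem_filter
    let l : List (κ → ℂ) := h0 :: K'.toList.map g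
    have hlH : ∀ h ∈ l, h ∈ H := by
      intro h hh
      rcases List.mem_cons.1 hh with rfl | hh
      · exact hh0
      · obtain ⟨χ, hχ, rfl⟩ := List.mem_map.1 hh
        have h3 := (hK' χ).1 (Finset.mem_toList.1 hχ)
        exact (hg χ h3.1 h3.2.1).1
    have hllam : ∀ h ∈ l, h lam ≠ 0 := by
      intro h hh
      rcases List.mem_cons.1 hh with rfl | hh
      · exact h01
      · obtain ⟨χ, hχ, rfl⟩ := List.mem_map.1 hh
        have h3 := (hK' χ).1 (Finset.mem_toList.1 hχ)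
        exact (hg χ h3.1 h3.2.1).2.2
    have hllen : l.length ≤ d := by
      have h3 : l.length = K'.card + 1 := by
        simp [l]
      have h4 : (insert lam K').card = K'.card + 1 := by
        refine Finset.card_insert_of_notMem fun h => ?_
        exact ((hK' lam).1 h).2.1 rfl
      have h5 : Disjoint (insert lam K') S := by
        rw [Finset.disjoint_left]
        intro χ hχ hχS
        rcases Finset.mem_insert.1 hχ with rfl | hχ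
        · exact hnl (hline _ hχS)
        · exact ((hK' χ).1 hχ).2.2 (hline _ hχS)
      have h6 : insert lam K' ∪ S ⊆ K := by
        intro χ hχ
        rcases Finset.mem_union.1 hχ with hχ | hχ
        · rcases Finset.mem_insert.1 hχ with rfl | hχ
          · exact hlam
          · exact ((hK' χ).1 hχ).1
        · exact hSK hχ
      have h7 := Finset.card_le_card h6
      rw [Finset.card_union_of_disjoint h5, h4] at h7
      omega
    have hprod0 : ∀ χ ∈ K, χ ≠ lam → (l.map (fun h => h χ)).prod = 0 := by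
      intro χ hχ hne'
      refine List.prod_eq_zero_iff.2 (List.mem_map.2 ?_)
      by_cases h3 : L μ ν χ
      · exact ⟨h0, List.mem_cons_self, h00 χ hχ h3⟩
      · refine ⟨g χ, List.mem_cons_of_mem _ (List.mem_map.2 ⟨χ, ?_, rfl⟩), (hg χ hχ hne').2.1⟩
        exact Finset.mem_toList.2 ((hK' χ).2 ⟨hχ, hne', h3⟩)
    have hprod1 : v ((l.map (fun h => h lam)).prod) = 1 :=
      PlaneG_prod_one v lam l fun h hh => (hH h (hlH h hh) lam hlam).resolve_left (hllam h hh)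
    refine hE0 lam hlam (eq_zero_of_small v (E lam) (hE lam hlam) fun a b => ?_)
    have h3 := ha l hlH hllen a b
    rw [PlaneG_apply, Finset.sum_eq_single lam
      (fun χ hχ hne' => by rw [hprod0 χ hχ hne', zero_mul]) (fun h => absurd hlam h),
      map_mul, hprod1, one_mul] at h3
    exact h3
  · have h3 : S = K := Finset.eq_of_subset_of_card_le hSK (by omega)
    refine ⟨h3, ?_⟩
    rw [h3] at hle
    omega

/-- If all elements of `K` are congruent modulo characters of order `p` and `K` is not contained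
in a line then some `E χ` is zero.

Proof. Suppose all `E χ ≠ 0` (`χ ∈ K`). Let `ζ` be a primitive `p`-th root of unity in `ℂ`,
`u = ζ - 1`, so `v(p) = v(u)^{p-1}`, `v(u) < 1`. As `2 ≤ |K| < p`, `p` is odd (`p ≥ 3`); let
`d = (p - 3)/2`, so `|K| ≤ p - 1 = 2 d + 2`. Use `H = formSet K ζ`, `L = OnLine` in `RelDeg` and
`rel_lemma` (its hypotheses: `formSet_val`, `formSet_sep1`, `formSet_sep2`; `OnLine μ ν μ` with
`i = 0`, `OnLine μ ν ν` with `i = 1`).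

(a) For a list `l` of `j ≤ d` forms, all entries of `N(l) = ∑ ∏ h(χ) • E χ` have `v < 1`: by
`formSet_bound`, `v^2 v(u)^{2j} ≤ v(u)^{p-1}` and `2 j < p - 1`. For `j ≤ d + 1` they have `v ≤ 1`.

(b) Claim N: let `c : K → ι → ℂ` be with values `≤ 1`, `RelDeg v K H d c`, and `S` the set of
`χ ∈ K` with `v(c χ i) = 1` for some `i`. Then `S = ∅` or `S = K` and `|K| = 2 d + 2`.
Proof: let `S ≠ ∅`. By `rel_lemma`, `|S| ≥ d + 2`, and if `|S| ≤ 2 d + 1` then `S` is contained in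
the line `ℓ` of some `μ ≠ ν` in `K`. In this case take `lam ∈ K` not on `ℓ` (`hK2`), a form `h₀`
vanishing on `ℓ` with `h₀(lam) ≠ 0`, and for each `χ ∈ K` with `χ ≠ lam`, `χ` not on `ℓ` a form
vanishing at `χ` and not at `lam`. These are at most `1 + (|K| - |S| - 1) ≤ d` forms, with product
`f` satisfying `f(χ) = 0` for `χ ∈ K`, `χ ≠ lam`, and `v(f(lam)) = 1`. By (a), `v(f(lam) E lam) < 1`
in all entries so `E lam = 0` (`eq_zero_of_small`), a contradiction. So `|S| ≥ 2 d + 2 ≥ |K|`.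

(c) Let `n₀` be an entry of maximal value of all the `E χ`, `χ ∈ K`; `v(n₀) ≥ 1`, otherwise
`E χ = 0` by `eq_zero_of_small`. Let `c χ (a, b) = (E χ) a b / n₀`. By (a), `RelDeg v K H d c` and
the set `S` of (b) is nonempty, so `S = K`, `|K| = 2 d + 2`. If `RelDeg v K H (d + 1) c` then
`rel_lemma` for `d + 1` gives a line containing `K` (as `|K| ≤ 2 (d + 1) + 1`), contradicting `hK2`.
So there is a list of at most `d + 1` forms with an entry of `N(l) / n₀` of value `≥ 1`, and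
`v(N(l)) ≤ 1` by (a); hence `v(n₀) ≤ 1`, `v(n₀) = 1`, and all entries of the `E χ` have value `≤ 1`,
and no `E χ` is small.

(d) Fix `χ₁ ∈ K` and an entry `(a₁, b₁)` with `v(E χ₁ a₁ b₁) = 1`, `s = E χ₁ a₁ b₁`. For an entry
`(a, b)` let `c' χ = s * (E χ) a b - (E χ₁ a b) * (E χ) a₁ b₁` (index type `Unit`). Then
`RelDeg v K H d c'`, and `c' χ₁ = 0`, so by (b) the set `S` for `c'` is empty: `v(c' χ) < 1` for all
`χ`. So `E χ ≡ r_χ E χ₁` modulo the maximal ideal, where `r_χ = (E χ) a₁ b₁ / s`, and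
`v(r_χ) ≤ 1`. As `E χ` is not small, `v(r_χ) = 1`. As `E χ`, `E χ₁` are idempotents:
`r_χ E χ₁ ≡ E χ = (E χ)² ≡ r_χ² E χ₁`, so (entry `(a₁, b₁)`) `r_χ ≡ 1`, i.e.
`v(E χ a₁ b₁ - s) < 1` for all `χ ∈ K`.

(e) `RelDeg` for the empty list gives `v(∑ E χ a₁ b₁) < 1`, so `v(|K| s) < 1`; but `v(|K|) = 1` as
`0 < |K| < p` (`val_natCast_eq_one`), and `v(s) = 1`: a contradiction. -/
theorem ghyp_plane {p : ℕ} [Fact p.Prime] (v : Valuation ℂ Γ₀) (hv : v (p : ℂ) < 1) {Q : Type*}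
    [Group Q] [Finite Q] {n : Type*} [Fintype n] [DecidableEq n]
    {K : Finset (Q →* ℂˣ)} {E : (Q →* ℂˣ) → Matrix n n ℂ} (h : GHyp v p K E)
    (hK : K.card < p) (hK1 : ∀ χ ∈ K, ∀ ψ ∈ K, χ ^ p = ψ ^ p)
    (hK2 : ¬ ∃ μ ∈ K, ∃ ν ∈ K, μ ≠ ν ∧ ∀ χ ∈ K, OnLine μ ν χ) (hcard : 1 < K.card) :
    ∃ χ ∈ K, E χ = 0 := by
  classical
  by_contra hcon
  push Not at hcon
  have hp : p.Prime := Fact.out
  have hζ := Complex.isPrimitiveRoot_exp p hp.ne_zero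
  set ζ := Complex.exp (2 * Real.pi * Complex.I / p) with hζdef
  clear_value ζ
  have hp3 : 3 ≤ p := by omega
  obtain ⟨d, hd⟩ : ∃ d, p = 2 * d + 3 := by
    rcases hp.eq_two_or_odd with h2 | h2
    · omega
    · exact ⟨(p - 3) / 2, by omega⟩
  have hu : v (p : ℂ) = v (ζ - 1) ^ (p - 1) := val_prime_eq hp v hζ
  have hu0 : v (ζ - 1) ≠ 0 := by
    rw [v.ne_zero_iff, sub_ne_zero]
    exact hζ.ne_one hp.one_lt
  have hu1 : v (ζ - 1) < 1 := by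
    by_contra h1
    rw [hu] at hv
    exact absurd hv (not_lt.2 (one_le_pow₀ (not_lt.1 h1)))
  have hupos : 0 < v (ζ - 1) := zero_lt_iff.2 hu0
  have hidem := h.1
  have ha : ∀ l : List ((Q →* ℂˣ) → ℂ), (∀ h ∈ l, h ∈ formSet K ζ) → l.length ≤ d → ∀ a b,
      v ((∑ χ ∈ K, (l.map (fun h => h χ)).prod • E χ) a b) < 1 := by
    intro l hl hlen a b
    have h1 := formSet_bound v hζ h l hl a b
    by_contra hx
    have hx := not_lt.1 hx
    have h2 : v (ζ - 1) ^ (2 * l.length) ≤ v (ζ - 1) ^ (p - 1) := by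
      refine le_trans ?_ h1
      calc v (ζ - 1) ^ (2 * l.length) = 1 * v (ζ - 1) ^ (2 * l.length) := (one_mul _).symm
        _ ≤ _ := by
          gcongr
          exact one_le_pow₀ hx
    have h3 : v (ζ - 1) ^ (p - 1) < v (ζ - 1) ^ (2 * l.length) :=
      pow_lt_pow_right_of_lt_one₀ hupos hu1 (by omega)
    exact absurd h2 (not_le.2 h3)
  have ha' : ∀ l : List ((Q →* ℂˣ) → ℂ), (∀ h ∈ l, h ∈ formSet K ζ) → l.length ≤ d + 1 → ∀ a b,
      v ((∑ χ ∈ K, (l.map (fun h => h χ)).prod • E χ) a b) ≤ 1 := by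
    intro l hl hlen a b
    have h1 := formSet_bound v hζ h l hl a b
    by_contra hx
    have hx := not_le.1 hx
    have h3 : v (ζ - 1) ^ (p - 1) ≤ v (ζ - 1) ^ (2 * l.length) := by
      rcases eq_or_lt_of_le (show 2 * l.length ≤ p - 1 by omega) with h3 | h3
      · rw [h3]
      · exact (pow_lt_pow_right_of_lt_one₀ hupos hu1 h3).le
    have h4 : 1 < v ((∑ χ ∈ K, (l.map (fun h => h χ)).prod • E χ) a b) ^ 2 :=
      one_lt_pow₀ hx two_ne_zero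
    have h5 : 1 * v (ζ - 1) ^ (2 * l.length) <
        v ((∑ χ ∈ K, (l.map (fun h => h χ)).prod • E χ) a b) ^ 2 * v (ζ - 1) ^ (2 * l.length) :=
      mul_lt_mul_of_pos_right h4 (pow_pos hupos _)
    rw [one_mul] at h5
    exact absurd (h5.trans_le h1) (not_lt.2 h3)
  have hH := formSet_val v hζ K hK1
  have hs1 := formSet_sep1 hζ K hK1
  have hs2 := formSet_sep2 hζ K
  have hL1 : ∀ μ ν : Q →* ℂˣ, OnLine μ ν μ := PlaneG_line1
  have hL2 : ∀ μ ν : Q →* ℂˣ, OnLine μ ν ν := PlaneG_line2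
  have hcard' : K.card ≤ 2 * d + 2 := by omega
  -- an entry of maximal value
  have hKne : K.Nonempty := Finset.card_pos.1 (by omega)
  obtain ⟨χ', hχ'⟩ := hKne
  obtain ⟨a', b', _⟩ : ∃ a b, E χ' a b ≠ 0 := by
    by_contra h0
    push Not at h0
    exact hcon χ' hχ' (Matrix.ext h0)
  obtain ⟨t, ht, hmax⟩ := Finset.exists_max_image (K ×ˢ ((univ : Finset n) ×ˢ (univ : Finset n)))
    (fun t => v (E t.1 t.2.1 t.2.2)) ⟨(χ', a', b'), by simp [hχ']⟩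
  obtain ⟨χ₀, a₀, b₀⟩ := t
  have hχ₀ : χ₀ ∈ K := (Finset.mem_product.1 ht).1
  have hmax' : ∀ χ ∈ K, ∀ a b, v (E χ a b) ≤ v (E χ₀ a₀ b₀) := fun χ hχ a b =>
    hmax (χ, a, b) (by simp [hχ])
  have hge : 1 ≤ v (E χ₀ a₀ b₀) := by
    by_contra h1
    have h1 := not_le.1 h1
    exact hcon χ₀ hχ₀ (eq_zero_of_small v _ (hidem χ₀ hχ₀)
      fun a b => (hmax' χ₀ hχ₀ a b).trans_lt h1)
  have hpos : 0 < v (E χ₀ a₀ b₀) := zero_lt_one.trans_le hge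
  have hdiv1 : ∀ x : ℂ, v x < 1 → v (x / E χ₀ a₀ b₀) < 1 := by
    intro x hx
    rw [map_div₀]
    exact (div_lt_one₀ hpos).2 (hx.trans_le hge)
  let c : (Q →* ℂˣ) → n × n → ℂ := fun χ i => E χ i.1 i.2 / E χ₀ a₀ b₀
  have hc1 : ∀ χ ∈ K, ∀ i, v (c χ i) ≤ 1 := by
    intro χ hχ i
    change v (E χ i.1 i.2 / E χ₀ a₀ b₀) ≤ 1
    rw [map_div₀]
    exact (div_le_one₀ hpos).2 (hmax' χ hχ _ _)
  have hcsum : ∀ (l : List ((Q →* ℂˣ) → ℂ)) (i : n × n),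
      ∑ χ ∈ K, (l.map (fun h => h χ)).prod * c χ i =
        (∑ χ ∈ K, (l.map (fun h => h χ)).prod • E χ) i.1 i.2 / E χ₀ a₀ b₀ := by
    intro l i
    rw [PlaneG_apply, Finset.sum_div]
    exact Finset.sum_congr rfl fun χ _ => (mul_div_assoc _ _ _).symm
  have hc : RelDeg v K (formSet K ζ) d c := by
    intro l hl hlen i
    rw [hcsum]
    exact hdiv1 _ (ha l hl hlen _ _)
  let S := K.filter fun χ => ∃ i, v (c χ i) = 1
  have hS : ∀ χ, χ ∈ S ↔ χ ∈ K ∧ ∃ i, v (c χ i) = 1 := fun χ => Finset.mem_filter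
  have hSne : S.Nonempty := by
    refine ⟨χ₀, (hS χ₀).2 ⟨hχ₀, (a₀, b₀), ?_⟩⟩
    change v (E χ₀ a₀ b₀ / E χ₀ a₀ b₀) = 1
    rw [map_div₀, div_self hpos.ne']
  obtain ⟨hSK, hKc⟩ := PlaneG_claim v K (formSet K ζ) OnLine hH hL1 hL2 hs1 hs2 d E hidem hcon ha
    hcard' hK2 c hc1 hc S hS hSne
  have hnrel : ¬ RelDeg v K (formSet K ζ) (d + 1) c := by
    intro hrel
    obtain ⟨_, h2⟩ := rel_lemma v K (formSet K ζ) OnLine hH hL1 hL2 hs1 hs2 (d + 1) c hc1 hrel S hS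
      hSne
    obtain ⟨μ, hμ, ν, hν, hμν, hl⟩ := h2 (by rw [hSK]; omega)
    rw [hSK] at hl
    exact hK2 ⟨μ, hμ, ν, hν, hμν, hl⟩
  have hle1 : v (E χ₀ a₀ b₀) ≤ 1 := by
    unfold RelDeg at hnrel
    push Not at hnrel
    obtain ⟨l, hl, hlen, i, hi⟩ := hnrel
    rw [hcsum, map_div₀, one_le_div₀ hpos] at hi
    exact hi.trans (ha' l hl hlen _ _)
  have hs : v (E χ₀ a₀ b₀) = 1 := le_antisymm hle1 hge
  have hEle : ∀ χ ∈ K, ∀ a b, v (E χ a b) ≤ 1 := fun χ hχ a b => (hmax' χ hχ a b).trans hle1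
  -- (d)
  have hD : ∀ χ ∈ K, ∀ a b,
      v (E χ₀ a₀ b₀ * E χ a b - E χ₀ a b * E χ a₀ b₀) < 1 := by
    intro χ hχ a b
    let c' : (Q →* ℂˣ) → Unit → ℂ := fun χ _ => E χ₀ a₀ b₀ * E χ a b - E χ₀ a b * E χ a₀ b₀
    have hc1' : ∀ χ ∈ K, ∀ i, v (c' χ i) ≤ 1 := by
      intro χ hχ i
      exact (v.map_sub _ _).trans (max_le (PlaneG_mul_le v hle1 (hEle χ hχ a b))
        (PlaneG_mul_le v (hEle χ₀ hχ₀ a b) (hEle χ hχ a₀ b₀)))
    have hc' : RelDeg v K (formSet K ζ) d c' := by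
      intro l hl hlen i
      have h1 : ∑ χ ∈ K, (l.map (fun h => h χ)).prod * c' χ i =
          E χ₀ a₀ b₀ * (∑ χ ∈ K, (l.map (fun h => h χ)).prod • E χ) a b -
            E χ₀ a b * (∑ χ ∈ K, (l.map (fun h => h χ)).prod • E χ) a₀ b₀ := by
        rw [PlaneG_apply, PlaneG_apply, Finset.mul_sum, Finset.mul_sum, ← Finset.sum_sub_distrib]
        refine Finset.sum_congr rfl fun χ _ => ?_
        change _ * (E χ₀ a₀ b₀ * E χ a b - E χ₀ a b * E χ a₀ b₀) = _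
        ring
      rw [h1]
      exact PlaneG_sub_lt v (PlaneG_mul_lt v hle1 (ha l hl hlen a b))
        (PlaneG_mul_lt v (hEle χ₀ hχ₀ a b) (ha l hl hlen a₀ b₀))
    by_contra hlt
    have h2 : v (c' χ ()) = 1 := le_antisymm (hc1' χ hχ ()) (not_lt.1 hlt)
    let S' := K.filter fun χ => ∃ i, v (c' χ i) = 1
    have hS' : ∀ χ, χ ∈ S' ↔ χ ∈ K ∧ ∃ i, v (c' χ i) = 1 := fun χ => Finset.mem_filter
    obtain ⟨hSK', _⟩ := PlaneG_claim v K (formSet K ζ) OnLine hH hL1 hL2 hs1 hs2 d E hidem hcon ha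
      hcard' hK2 c' hc1' hc' S' hS' ⟨χ, (hS' χ).2 ⟨hχ, (), h2⟩⟩
    have h3 : χ₀ ∈ S' := by
      rw [hSK']
      exact hχ₀
    obtain ⟨_, i, h4⟩ := (hS' χ₀).1 h3
    have h5 : c' χ₀ i = 0 := by
      change E χ₀ a₀ b₀ * E χ₀ a b - E χ₀ a b * E χ₀ a₀ b₀ = 0
      ring
    rw [h5, map_zero] at h4
    exact zero_ne_one h4
  have hR : ∀ χ ∈ K, v (E χ a₀ b₀ - E χ₀ a₀ b₀) < 1 := by
    intro χ hχ
    -- the value of `r` is one
    have hr : v (E χ a₀ b₀) = 1 := by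
      obtain ⟨a, b, hab⟩ : ∃ a b, 1 ≤ v (E χ a b) := by
        by_contra h0
        push Not at h0
        exact hcon χ hχ (eq_zero_of_small v _ (hidem χ hχ) h0)
      by_contra hne
      have hlt : v (E χ a₀ b₀) < 1 := lt_of_le_of_ne (hEle χ hχ a₀ b₀) hne
      have h1 : v (E χ₀ a₀ b₀ * E χ a b) < 1 := by
        have h2 : E χ₀ a₀ b₀ * E χ a b = (E χ₀ a₀ b₀ * E χ a b - E χ₀ a b * E χ a₀ b₀) +
            E χ₀ a b * E χ a₀ b₀ := by ring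
        rw [h2]
        exact PlaneG_add_lt v (hD χ hχ a b) (PlaneG_mul_lt v (hEle χ₀ hχ₀ a b) hlt)
      rw [map_mul, hs, one_mul] at h1
      exact absurd hab (not_le.2 h1)
    have hidE : ∀ χ ∈ K, ∑ c, E χ a₀ c * E χ c b₀ = E χ a₀ b₀ := by
      intro χ hχ
      have h1 := congrFun (congrFun (hidem χ hχ) a₀) b₀
      rwa [Matrix.mul_apply] at h1
    have key : v (E χ₀ a₀ b₀ * E χ₀ a₀ b₀ * E χ a₀ b₀ -
        E χ a₀ b₀ * E χ a₀ b₀ * E χ₀ a₀ b₀) < 1 := by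
      have h1 : E χ₀ a₀ b₀ * E χ₀ a₀ b₀ * E χ a₀ b₀ - E χ a₀ b₀ * E χ a₀ b₀ * E χ₀ a₀ b₀ =
          ∑ c, (E χ₀ a₀ b₀ * E χ a₀ c * (E χ₀ a₀ b₀ * E χ c b₀ - E χ₀ c b₀ * E χ a₀ b₀) +
            E χ₀ c b₀ * E χ a₀ b₀ * (E χ₀ a₀ b₀ * E χ a₀ c - E χ₀ a₀ c * E χ a₀ b₀)) := by
        have h2 : E χ₀ a₀ b₀ * E χ₀ a₀ b₀ * E χ a₀ b₀ =
            ∑ c, E χ₀ a₀ b₀ * E χ₀ a₀ b₀ * (E χ a₀ c * E χ c b₀) := by
          rw [← Finset.mul_sum, hidE χ hχ]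
        have h3 : E χ a₀ b₀ * E χ a₀ b₀ * E χ₀ a₀ b₀ =
            ∑ c, E χ a₀ b₀ * E χ a₀ b₀ * (E χ₀ a₀ c * E χ₀ c b₀) := by
          rw [← Finset.mul_sum, hidE χ₀ hχ₀]
        rw [h2, h3, ← Finset.sum_sub_distrib]
        exact Finset.sum_congr rfl fun c _ => by ring
      rw [h1]
      refine v.map_sum_lt one_ne_zero fun c _ => ?_
      exact PlaneG_add_lt v
        (PlaneG_mul_lt v (PlaneG_mul_le v hle1 (hEle χ hχ _ _)) (hD χ hχ _ _))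
        (PlaneG_mul_lt v (PlaneG_mul_le v (hEle χ₀ hχ₀ _ _) (hEle χ hχ _ _)) (hD χ hχ _ _))
    have h4 : E χ₀ a₀ b₀ * E χ₀ a₀ b₀ * E χ a₀ b₀ - E χ a₀ b₀ * E χ a₀ b₀ * E χ₀ a₀ b₀ =
        E χ₀ a₀ b₀ * E χ a₀ b₀ * -(E χ a₀ b₀ - E χ₀ a₀ b₀) := by ring
    rw [h4, map_mul, map_mul, hs, hr, one_mul, one_mul, Valuation.map_neg] at key
    exact key
  -- (e)
  have h1 := ha [] (by simp) (Nat.zero_le d) a₀ b₀
  rw [PlaneG_apply] at h1
  have h2 : v ((K.card : ℂ) * E χ₀ a₀ b₀) < 1 := by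
    have h3 : (K.card : ℂ) * E χ₀ a₀ b₀ =
        (∑ χ ∈ K, ((([] : List ((Q →* ℂˣ) → ℂ)).map (fun h => h χ)).prod * E χ a₀ b₀)) -
          ∑ χ ∈ K, (E χ a₀ b₀ - E χ₀ a₀ b₀) := by
      rw [← Finset.sum_sub_distrib]
      simp
    rw [h3]
    exact PlaneG_sub_lt v h1 (v.map_sum_lt one_ne_zero hR)
  rw [map_mul, hs, mul_one, val_natCast_eq_one v hv
    ((Nat.Prime.coprime_iff_not_dvd hp).2 (Nat.not_dvd_of_pos_of_lt (by omega) hK)).symm] at h2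
  exact lt_irrefl _ h2

end Pool.Agent.H.MP_7d3ffc_al
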