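import Mathlib
import Pool.Agent.H.MP_7d3ffc_al.GLL.LineG
import Pool.Agent.H.MP_7d3ffc_al.GLL.ClassG
import Pool.Agent.H.MP_7d3ffc_al.GLL.PlaneG

/-!
The local lemma.
-/

namespace Pool.Agent.H.MP_7d3ffc_al

open Finset

variable {Γ₀ : Type*} [LinearOrderedCommGroupWithZero Γ₀]

/-- The local lemma: fewer than `p` idempotents as in `GHyp` are all zero.

Proof. Let `K' = {χ ∈ K | E χ ≠ 0}`; `GHyp v p K' E` holds, as the sums over `K` and `K'` agree. Suppose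
`K' ≠ ∅`. If `|K'| = 1`, `ghyp_line` with `ω = 1` applies. Otherwise: if there are `lam, μ ∈ K'` with
`lam ^ p ≠ μ ^ p` use `ghyp_class`; if there are `μ ≠ ν` in `K'` with `OnLine μ ν χ` for all
`χ ∈ K'`, use `ghyp_line` with `μ` and `ω = ν μ⁻¹` (`ω ^ p = 1`); else `ghyp_plane`. In each case some
`E χ` with `χ ∈ K'` is zero, a contradiction. (`v (μ x) = 1` because `μ x` is a root of unity.) -/
theorem gll {p : ℕ} [Fact p.Prime] (v : Valuation ℂ Γ₀) (hv : v (p : ℂ) < 1) {Q : Type*}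
    [Group Q] [Finite Q] (hQ : IsPGroup p Q) {n : Type*} [Fintype n] [DecidableEq n]
    {K : Finset (Q →* ℂˣ)} {E : (Q →* ℂˣ) → Matrix n n ℂ} (h : GHyp v p K E)
    (hK : K.card < p) : ∀ χ ∈ K, E χ = 0 := by
  classical
  set K' : Finset (Q →* ℂˣ) := K.filter (fun χ => E χ ≠ 0) with hK'
  have hsub : K' ⊆ K := Finset.filter_subset _ _
  have hG : GHyp v p K' E := by
    refine ⟨fun χ hχ => h.1 χ (hsub hχ), fun x a b => ?_⟩
    have e1 : ∑ χ ∈ K', ((χ x : ℂˣ) : ℂ) • E χ = ∑ χ ∈ K, ((χ x : ℂˣ) : ℂ) • E χ := by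
      refine Finset.sum_subset hsub (fun χ hχ hχ' => ?_)
      have h0 : E χ = 0 := by
        by_contra h0
        exact hχ' (Finset.mem_filter.2 ⟨hχ, h0⟩)
      rw [h0, smul_zero]
    rw [e1]
    exact h.2 x a b
  have hcard : K'.card < p := (Finset.card_le_card hsub).trans_lt hK
  have hnz : ∀ χ ∈ K', E χ ≠ 0 := fun χ hχ => (Finset.mem_filter.1 hχ).2
  have hv1 : ∀ (χ : Q →* ℂˣ) (x : Q), v ((χ x : ℂˣ) : ℂ) = 1 := by
    intro χ x
    refine val_rootOfUnity v (n := Nat.card Q) Nat.card_pos.ne' ?_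
    rw [← Units.val_pow_eq_pow_val, ← map_pow, pow_card_eq_one', map_one, Units.val_one]
  by_contra hcon
  push Not at hcon
  obtain ⟨χ₀, hχ₀, hne₀⟩ := hcon
  have hχ₀' : χ₀ ∈ K' := Finset.mem_filter.2 ⟨hχ₀, hne₀⟩
  by_cases hA : ∃ lam ∈ K', ∃ μ ∈ K', lam ^ p ≠ μ ^ p
  · obtain ⟨lam, hlam, μ, hμ, hne⟩ := hA
    obtain ⟨χ, hχ, h0⟩ := ghyp_class v hv hQ hG hcard lam μ hlam hμ hne
    exact hnz χ hχ h0
  push Not at hA
  by_cases hB : ∃ μ ∈ K', ∃ ν ∈ K', μ ≠ ν ∧ ∀ χ ∈ K', OnLine μ ν χ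
  · obtain ⟨μ, hμ, ν, hν, hne, hon⟩ := hB
    refine hnz χ₀ hχ₀' (ghyp_line v hv hG hcard μ (ν * μ⁻¹) (hv1 μ) ?_ hon χ₀ hχ₀')
    have h1 := hA ν hν μ hμ
    refine MonoidHom.ext fun x => ?_
    have h2 := DFunLike.congr_fun h1 x
    rw [MonoidHom.pow_apply, MonoidHom.pow_apply] at h2
    rw [MonoidHom.pow_apply, MonoidHom.mul_apply, MonoidHom.inv_apply, mul_pow, inv_pow, h2,
      mul_inv_cancel, MonoidHom.one_apply]
  by_cases hC : 1 < K'.card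
  · obtain ⟨χ, hχ, h0⟩ := ghyp_plane v hv hG hcard hA hB hC
    exact hnz χ hχ h0
  · refine hnz χ₀ hχ₀' (ghyp_line v hv hG hcard χ₀ 1 (hv1 χ₀) ?_ ?_ χ₀ hχ₀')
    · refine MonoidHom.ext fun x => ?_
      rw [MonoidHom.pow_apply, MonoidHom.one_apply, one_pow]
    intro χ hχ
    refine ⟨0, ?_⟩
    have h3 : χ = χ₀ := Finset.card_le_one.1 (not_lt.1 hC) χ hχ χ₀ hχ₀'
    refine MonoidHom.ext fun x => ?_
    rw [h3, MonoidHom.mul_apply, MonoidHom.pow_apply, pow_zero, mul_one]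

end Pool.Agent.H.MP_7d3ffc_al
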