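import Mathlib
import Pool.Agent.H.MP_7d3ffc_al.ThmF2
import Pool.Agent.H.MP_7d3ffc_al.TraceE

/-!
The traces of the `P`-endomorphisms of the `P'`-fixed points of a lattice.
-/

namespace Pool.Agent.H.MP_7d3ffc_al

open Finset Module
open scoped Pointwise commutatorElement

variable {G : Type*} [Group G] {V : Type*} [AddCommGroup V] [Module ℂ V]
variable {Γ₀ : Type*} [LinearOrderedCommGroupWithZero Γ₀]

/-- The operators commuting with `P` with image in the fixed space of `P'`. -/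
def opSub (ρ : Representation ℂ G V) (P : Subgroup G) : Submodule ℂ (V →ₗ[ℂ] V) where
  carrier := {f | (∀ x ∈ P, ∀ z, f (ρ x z) = ρ x (f z)) ∧ ∀ z, f z ∈ fixedSub ρ ⁅P, P⁆}
  zero_mem' := ⟨fun x _ z => by simp, fun z => by
    rw [LinearMap.zero_apply]; exact Submodule.zero_mem _⟩
  add_mem' := fun {a b} ha hb => ⟨fun x hx z => by
      simp only [LinearMap.add_apply, ha.1 x hx, hb.1 x hx, map_add],
    fun z => by rw [LinearMap.add_apply]; exact Submodule.add_mem _ (ha.2 z) (hb.2 z)⟩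
  smul_mem' := fun c f hf => ⟨fun x hx z => by
      simp only [LinearMap.smul_apply, hf.1 x hx, map_smul],
    fun z => by rw [LinearMap.smul_apply]; exact Submodule.smul_mem _ _ (hf.2 z)⟩

/-- There is an operator in `opSub` preserving the fixed vectors of the lattice whose trace has
maximal value.

Proof. Let `K = ⁅P, P⁆`. `exists_integral_basis` for `U = fixedSub ρ K` and the functionals
`η ∘ₗ ρ h`, `h ∈ G` (they separate points by `exists_ne_zero`) gives `b j`, `c j`, `j : Fin m`. Then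
apply `exists_maximizer` to the space `V →ₗ[ℂ] V`, the functionals `f ↦ η (ρ h (f (b j)))` with index
type `Fin m × G`, the subspace `opSub ρ P` and the functional `LinearMap.trace ℂ V`. Separation: if
`f ∈ opSub ρ P` and all `η (ρ h (f (b j)))` vanish, then `f (b j) = 0` for all `j` (`exists_ne_zero`),
so `f = 0` on `fixedSub ρ K`; and `f z = |K|⁻¹ ∑_{k ∈ K} f (ρ k z) = f (|K|⁻¹ ∑ ρ k z) = 0` as
`f (ρ k z) = ρ k (f z) = f z` for `k ∈ K ≤ P`. For `f ∈ opSub ρ P`: `f` maps the `z ∈ fixedSub ρ K` with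
`z ∈ latticeOf v ρ η` to `latticeOf v ρ η` iff all `v (η (ρ h (f (b j)))) ≤ 1`, because the `b j` are in
the lattice and `z = ∑ c j z • b j` with `v (c j z) ≤ 1`. -/
theorem exists_max_trace [Finite G] [FiniteDimensional ℂ V] (v : Valuation ℂ Γ₀)
    (ρ : Representation ℂ G V) (hρ : ρ.IsIrreducible) (η : V →ₗ[ℂ] ℂ) (hη : η ≠ 0)
    (P : Subgroup G) :
    ∃ f₀ ∈ opSub ρ P, (∀ z ∈ fixedSub ρ ⁅P, P⁆, z ∈ latticeOf v ρ η → f₀ z ∈ latticeOf v ρ η) ∧
      ∀ f ∈ opSub ρ P, (∀ z ∈ fixedSub ρ ⁅P, P⁆, z ∈ latticeOf v ρ η → f z ∈ latticeOf v ρ η) →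
        v (LinearMap.trace ℂ V f) ≤ v (LinearMap.trace ℂ V f₀) := by
  classical
  set K : Subgroup G := ⁅P, P⁆ with hK
  have hKP : K ≤ P := Subgroup.commutator_le_self _
  have hML : IsLattice v ρ (latticeOf v ρ η) := isLattice_latticeOf v ρ η
  have hz0 : ∀ z : V, (∀ g : G, η (ρ g z) = 0) → z = 0 := by
    intro z hz
    by_contra hz0
    obtain ⟨g, hg⟩ := exists_ne_zero ρ hρ η hη z hz0
    exact hg (hz g)
  have hsepU : ∀ z ∈ fixedSub ρ K, (∀ g : G, (η ∘ₗ ρ g) z = 0) → z = 0 :=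
    fun z _ hz => hz0 z hz
  obtain ⟨m, b, c, hbU, hyb, hcb, hbM⟩ := exists_integral_basis v (fun g : G => η ∘ₗ ρ g)
    (finrank ℂ (fixedSub ρ K)) (fixedSub ρ K) le_rfl hsepU
  let Φ : Fin m × G → ((V →ₗ[ℂ] V) →ₗ[ℂ] ℂ) := fun jh =>
    { toFun := fun f => η (ρ jh.2 (f (b jh.1)))
      map_add' := fun f f' => by rw [LinearMap.add_apply, map_add, map_add]
      map_smul' := fun a f => by
        rw [LinearMap.smul_apply, map_smul, map_smul, RingHom.id_apply] }
  have hΦ : ∀ (j : Fin m) (h : G) (f : V →ₗ[ℂ] V), Φ (j, h) f = η (ρ h (f (b j))) :=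
    fun j h f => rfl
  have hsep : ∀ f ∈ opSub ρ P, (∀ i, Φ i f = 0) → f = 0 := by
    intro f hf hf0
    have h1 : ∀ j, f (b j) = 0 := fun j => hz0 _ (fun g => hf0 (j, g))
    have h2 : ∀ z ∈ fixedSub ρ K, f z = 0 := by
      intro z hz
      rw [hyb z hz, map_sum]
      refine Finset.sum_eq_zero (fun j _ => ?_)
      rw [map_smul, h1 j, smul_zero]
    have : Fintype K := Fintype.ofFinite _
    ext z
    rw [LinearMap.zero_apply]
    have h3 : (∑ k : K, ρ (k : G) z) ∈ fixedSub ρ K := by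
      intro k hk
      rw [map_sum]
      refine Fintype.sum_equiv (Equiv.mulLeft (⟨k, hk⟩ : K)) _ _ (fun x => ?_)
      simp [map_mul]
    have h4 := h2 _ h3
    rw [map_sum] at h4
    have h5 : ∀ k : K, f (ρ (k : G) z) = f z := by
      intro k
      rw [hf.1 (k : G) (hKP k.2) z]
      exact hf.2 z (k : G) k.2
    rw [Finset.sum_congr rfl (fun k _ => h5 k), Finset.sum_const, Finset.card_univ,
      ← Nat.cast_smul_eq_nsmul ℂ] at h4
    rcases smul_eq_zero.mp h4 with h6 | h6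
    · exact absurd h6 (Nat.cast_ne_zero.mpr Fintype.card_ne_zero)
    · exact h6
  have hbj : ∀ j, b j ∈ latticeOf v ρ η := by
    intro j h
    refine (hbM _ (hbU j)).mpr (fun k => ?_) h
    rw [hcb]
    split_ifs <;> simp
  have key : ∀ f ∈ opSub ρ P, ((∀ i, v (Φ i f) ≤ 1) ↔
      ∀ z ∈ fixedSub ρ K, z ∈ latticeOf v ρ η → f z ∈ latticeOf v ρ η) := by
    intro f hf
    constructor
    · intro h z hz hzM
      have h1 : ∀ j, v (c j z) ≤ 1 := (hbM z hz).mp hzM
      have h2 : f z = ∑ j, c j z • f (b j) := by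
        conv_lhs => rw [hyb z hz]
        simp only [map_sum, map_smul]
      rw [h2]
      refine hML.sum_mem _ _ (fun j _ => hML.smul_mem _ (h1 j) _ ?_)
      intro g
      exact h (j, g)
    · rintro h ⟨j, g⟩
      exact h (b j) (hbU j) (hbj j) g
  obtain ⟨f₀, hf₀, hf₀M, hmax⟩ :=
    exists_maximizer v Φ (opSub ρ P) hsep (LinearMap.trace ℂ V)
  refine ⟨f₀, hf₀, (key f₀ hf₀).mp hf₀M, fun f hf hfM => ?_⟩
  exact hmax f hf ((key f hf).mpr hfM)

/-- The trace bound.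

Proof. Let `q = v p`, `f₀` from `exists_max_trace`, `t = tr f₀`; it suffices to show `v t ^ 2 ≤ q`, and
one may assume `t ≠ 0`. Let `F g = tr (ρ g ∘ₗ f₀ ∘ₗ ρ g⁻¹ ∘ₗ f₀)`. By `schur_general` for `f₀`,
`∑_g F g = c t` with `c χ(1) = |G| t`. `F` is left and right invariant under `P` (`f₀` commutes with
`ρ x`, `x ∈ P`, and cyclicity of the trace). As in the proof of `theoremF` (file `ThmF.lean`), with
`val_sum_biinvariant_le` and `g` maximizing `v (relIndex) * v (F g)`: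
`v(P.index) * v t ^ 2 ≤ v(finrank ℂ V) * (v ((MulAut.conj g • P).relIndex P) * v (F g))`.
Values of natural numbers: `val_natCast hp v hv n hn : v n = v p ^ padicValNat p n`.

Case `MulAut.conj g • P = P`: then `f₁ = ρ g ∘ₗ f₀ ∘ₗ ρ g⁻¹ ∘ₗ f₀` is in `opSub ρ P` and preserves the
fixed vectors of the lattice (conjugation by `g` preserves `P` and `⁅P, P⁆`, so `ρ g`, `ρ g⁻¹` preserve
`fixedSub ρ ⁅P, P⁆`), so `v (F g) ≤ v t`, all relative indices in `h g` are `1` (`MulAut.conj g⁻¹ • P = P`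
by `conj_inv_eq_self`), and `q ^ i * v t ^ 2 ≤ q ^ a * v t` with `1 + i ≤ a`, so
`v t ≤ q ^ (a - i) ≤ q` and `v t ^ 2 ≤ q ^ 2 ≤ q`.

In general: `v r₁ * v r₂ * v (F g) ≤ 1` by `val_trace_le` (file `TraceE.lean`), where `r₁`, `r₂` are the
relative indices of the conjugates in `⁅P, P⁆`. So
`q ^ i * v r₁ * v r₂ * v t ^ 2 ≤ q ^ a * q ^ s` and `h g` says `1 + i + d₁ + d₂ ≤ a + s`; cancel
`q ^ (i + d₁ + d₂)`. -/
theorem val_trace_sq_le [Finite G] [FiniteDimensional ℂ V] {p : ℕ} [Fact p.Prime]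
    (v : Valuation ℂ Γ₀) (hv : v (p : ℂ) < 1) (P : Subgroup G)
    (ρ : Representation ℂ G V) (hρ : ρ.IsIrreducible)
    (h : ∀ g : G, 1 + padicValNat p P.index +
      padicValNat p ((MulAut.conj g • P).relIndex ⁅P, P⁆) +
      padicValNat p ((MulAut.conj g⁻¹ • P).relIndex ⁅P, P⁆) ≤
      padicValNat p (finrank ℂ V) + padicValNat p ((MulAut.conj g • P).relIndex P))
    (η : V →ₗ[ℂ] ℂ) (hη : η ≠ 0) (f : V →ₗ[ℂ] V) (hf : f ∈ opSub ρ P)
    (hfM : ∀ z ∈ fixedSub ρ ⁅P, P⁆, z ∈ latticeOf v ρ η → f z ∈ latticeOf v ρ η) :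
    v (LinearMap.trace ℂ V f) ^ 2 ≤ v (p : ℂ) := by
  classical
  have hp : p.Prime := Fact.out
  have : Fintype G := Fintype.ofFinite _
  obtain ⟨hfP, hfK⟩ := hf
  set K : Subgroup G := ⁅P, P⁆ with hK
  set t : ℂ := LinearMap.trace ℂ V f with ht
  have hdeg0 : finrank ℂ V ≠ 0 := by
    intro h0
    have hs : Subsingleton V := (finrank_zero_iff (R := ℂ) (M := V)).mp h0
    exact hη (LinearMap.ext fun x => by rw [Subsingleton.elim x 0, map_zero, map_zero])
  have hp0 : (0 : Γ₀) < v (p : ℂ) := by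
    rw [Valuation.pos_iff]
    exact Nat.cast_ne_zero.mpr hp.ne_zero
  -- Schur relation
  obtain ⟨C, hC, hC2⟩ := schur_general ρ hρ f
  let F : G → ℂ := fun g => LinearMap.trace ℂ V (ρ g ∘ₗ f ∘ₗ ρ g⁻¹ ∘ₗ f)
  have hFdef : ∀ g, F g = LinearMap.trace ℂ V (ρ g ∘ₗ f ∘ₗ ρ g⁻¹ ∘ₗ f) := fun g => rfl
  have hsum : ∑ g : G, F g = C * t := by
    have h1 : (∑ g : G, ρ g ∘ₗ f ∘ₗ ρ g⁻¹) ∘ₗ f = C • f := by
      rw [hC]
      ext x
      simp
    have h2 : (∑ g : G, ρ g ∘ₗ f ∘ₗ ρ g⁻¹) ∘ₗ f = ∑ g : G, ρ g ∘ₗ f ∘ₗ ρ g⁻¹ ∘ₗ f := by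
      ext x
      simp [LinearMap.sum_apply]
    have h3 := congrArg (LinearMap.trace ℂ V) (h2.symm.trans h1)
    rw [map_sum, map_smul, smul_eq_mul] at h3
    exact h3
  have hr : ∀ g : G, ∀ d ∈ P, F (g * d) = F g := by
    intro g d hd
    rw [hFdef, hFdef]
    congr 1
    ext x
    simp only [LinearMap.comp_apply]
    rw [mul_inv_rev, map_mul, map_mul, Module.End.mul_apply, Module.End.mul_apply,
      hfP d⁻¹ (P.inv_mem hd), Representation.self_inv_apply]
  have hl : ∀ g : G, ∀ d ∈ P, F (d * g) = F g := by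
    intro g d hd
    rw [hFdef, hFdef]
    have e1 : ρ (d * g) ∘ₗ f ∘ₗ ρ (d * g)⁻¹ ∘ₗ f =
        ρ d ∘ₗ ((ρ g ∘ₗ f ∘ₗ ρ g⁻¹ ∘ₗ f) ∘ₗ ρ d⁻¹) := by
      ext x
      simp only [LinearMap.comp_apply]
      rw [mul_inv_rev, map_mul, map_mul, Module.End.mul_apply, Module.End.mul_apply,
        hfP d⁻¹ (P.inv_mem hd)]
    rw [e1, LinearMap.trace_comp_comm']
    congr 1
    ext x
    simp only [LinearMap.comp_apply]
    rw [Representation.inv_self_apply]
  -- the largest term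
  obtain ⟨g, hg⟩ := Finite.exists_max
    (fun g : G => v ((MulAut.conj g • P).relIndex P : ℂ) * v (F g))
  have hbound : v (∑ g : G, F g) ≤
      v (Nat.card P : ℂ) * (v ((MulAut.conj g • P).relIndex P : ℂ) * v (F g)) :=
    val_sum_biinvariant_le v P F hr hl _ hg
  have hcard : v (Nat.card G : ℂ) = v (Nat.card P : ℂ) * v (P.index : ℂ) := by
    rw [← map_mul, ← Nat.cast_mul]
    congr 2
    exact (Subgroup.card_mul_index P).symm
  have hP0 : (0 : Γ₀) < v (Nat.card P : ℂ) := by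
    rw [Valuation.pos_iff]
    exact Nat.cast_ne_zero.mpr Nat.card_pos.ne'
  have hmain : v (P.index : ℂ) * v t ^ 2 ≤
      v (finrank ℂ V : ℂ) * (v ((MulAut.conj g • P).relIndex P : ℂ) * v (F g)) := by
    have h1 : v (Nat.card P : ℂ) * (v (P.index : ℂ) * v t ^ 2) =
        v (∑ g : G, F g) * v (finrank ℂ V : ℂ) := by
      calc v (Nat.card P : ℂ) * (v (P.index : ℂ) * v t ^ 2)
          = v (Nat.card G : ℂ) * (v t * v t) := by
            rw [hcard, pow_two]; simp only [mul_assoc]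
        _ = v ((Nat.card G : ℂ) * t * t) := by rw [map_mul, map_mul, mul_assoc]
        _ = v ((∑ g : G, F g) * (finrank ℂ V : ℂ)) := by
            rw [hsum, ← hC2]; congr 1; ring
        _ = _ := map_mul _ _ _
    have h2 : v (Nat.card P : ℂ) * (v (P.index : ℂ) * v t ^ 2) ≤
        v (Nat.card P : ℂ) *
          (v (finrank ℂ V : ℂ) * (v ((MulAut.conj g • P).relIndex P : ℂ) * v (F g))) := by
      rw [h1]
      calc v (∑ g : G, F g) * v (finrank ℂ V : ℂ)
          ≤ (v (Nat.card P : ℂ) * (v ((MulAut.conj g • P).relIndex P : ℂ) * v (F g))) *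
            v (finrank ℂ V : ℂ) := by gcongr
        _ = _ := by rw [mul_assoc]; congr 1; rw [mul_comm]
    exact le_of_mul_le_mul_left h2 hP0
  have hT := val_trace_le v ρ hρ η hη P f hfP hfK hfM g
  rw [← hK, ← hFdef] at hT
  have hr0 : (MulAut.conj g • P).relIndex P ≠ 0 := Subgroup.FiniteIndex.index_ne_zero
  have hs1 : (MulAut.conj g • P).relIndex K ≠ 0 := Subgroup.FiniteIndex.index_ne_zero
  have hs2 : (MulAut.conj g⁻¹ • P).relIndex K ≠ 0 := Subgroup.FiniteIndex.index_ne_zero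
  have hg' := h g
  rw [val_natCast hp v hv _ hs1, val_natCast hp v hv _ hs2] at hT
  rw [val_natCast hp v hv _ hr0, val_natCast hp v hv _ hdeg0,
    val_natCast hp v hv _ (Subgroup.index_ne_zero_of_finite (H := P))] at hmain
  revert hg' hT hmain
  generalize padicValNat p ((MulAut.conj g • P).relIndex K) = d₁
  generalize padicValNat p ((MulAut.conj g⁻¹ • P).relIndex K) = d₂
  generalize padicValNat p ((MulAut.conj g • P).relIndex P) = s
  generalize padicValNat p (finrank ℂ V) = a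
  generalize padicValNat p P.index = i
  intro hmain hT hg'
  generalize v (F g) = X at hT hmain
  generalize v t = T at hmain ⊢
  generalize v (p : ℂ) = q at hv hp0 hT hmain ⊢
  have h3 : q ^ (i + d₁ + d₂) * T ^ 2 ≤ q ^ (i + d₁ + d₂) * q := by
    calc q ^ (i + d₁ + d₂) * T ^ 2 = (q ^ d₁ * q ^ d₂) * (q ^ i * T ^ 2) := by
          rw [pow_add, pow_add]; ac_rfl
      _ ≤ (q ^ d₁ * q ^ d₂) * (q ^ a * (q ^ s * X)) := by gcongr
      _ = (q ^ a * q ^ s) * (q ^ d₁ * q ^ d₂ * X) := by ac_rfl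
      _ ≤ (q ^ a * q ^ s) * 1 := by gcongr
      _ = q ^ (a + s) := by rw [mul_one, pow_add]
      _ ≤ q ^ (1 + i + d₁ + d₂) := pow_le_pow_right_of_le_one' hv.le hg'
      _ = q ^ (i + d₁ + d₂) * q := by rw [← pow_succ]; congr 1; omega
  exact le_of_mul_le_mul_left h3 (pow_pos hp0 _)

end Pool.Agent.H.MP_7d3ffc_al
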