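import Mathlib
import Pool.Agent.H.MP_7d3ffc_al.GLL.TrBound

/-!
Matrices of operators on the fixed space of `P'`.
-/

namespace Pool.Agent.H.MP_7d3ffc_al

open Finset Module
open scoped Pointwise commutatorElement

variable {Γ₀ : Type*} [LinearOrderedCommGroupWithZero Γ₀]
variable {G : Type*} [Group G] {V : Type*} [AddCommGroup V] [Module ℂ V]

/-- Matrices of operators on the fixed space of `P'`.

Proof. `exists_integral_basis` for `U = fixedSub ρ ⁅P, P⁆` and the functionals `η ∘ₗ ρ h`, `h ∈ G` (they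
separate points by `exists_ne_zero`) gives `b j`, `c j`, `j : Fin m`, with: `y ∈ U` is in
`latticeOf v ρ η` iff all `v (c j y) ≤ 1`. For an operator `T` mapping `U` to `U` let
`mat T = (c j (T (b k)))_{j k}`; then `mat (S T) = mat S * mat T` and `T ↦ mat T` is linear, `mat T = 0` iff
`T = 0` on `U`, and `mat T` is integral iff `T` maps `U ∩ latticeOf v ρ η` to itself. Let
`e χ = mat (proj ρ P χ)`: the projections map `U` to `U`, are idempotent (`proj_eq_self`, `rho_proj`) and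
orthogonal (for `χ ≠ ψ`, by `rho_proj` and `proj_rho`), and on `U` their sum over `K` is the identity
(`sum_proj_eq`, `proj_eq_zero_of_notMem`), so `∑ χ(x) e χ = mat (ρ x)` for `x ∈ P`, which is integral.
`e χ ≠ 0`: `mem_Lin_iff` gives `y ≠ 0` with `ρ x y = χ(x) y`; `y ∈ U` (linear characters are trivial on the
commutator subgroup, see `lin_commutator` in `ThmB.lean`) and `proj y = y`. For `C` as
in the last claim let `f z = ∑ j k, C j k * c k (A z) • b j`, where `A z = |K'|⁻¹ ∑_{x ∈ ⁅P, P⁆} ρ x z` is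
the projection on `U`, which commutes with `ρ x`, `x ∈ P`; as `C` commutes with all `e χ` it commutes
with `mat (ρ x)`, so `f` is in `opSub ρ P`; its trace is
`∑ C j k * c k (b j) = tr C` (`LinearMap.trace_smulRight`). -/
theorem exists_matrix_model [Finite G] [FiniteDimensional ℂ V] (v : Valuation ℂ Γ₀)
    (ρ : Representation ℂ G V) (hρ : ρ.IsIrreducible) (η : V →ₗ[ℂ] ℂ) (hη : η ≠ 0)
    (P : Subgroup G) (K : Finset (P →* ℂˣ)) (hK : ∀ χ, χ ∈ K ↔ χ ∈ Lin ρ P) :
    ∃ (m : ℕ) (e : (P →* ℂˣ) → Matrix (Fin m) (Fin m) ℂ),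
      (∀ χ ∈ K, e χ * e χ = e χ) ∧ (∀ χ ∈ K, ∀ ψ ∈ K, χ ≠ ψ → e χ * e ψ = 0) ∧
      (∀ χ ∈ K, e χ ≠ 0) ∧
      (∀ x : P, ∀ a b, v ((∑ χ ∈ K, ((χ x : ℂˣ) : ℂ) • e χ) a b) ≤ 1) ∧
      (∀ C : Matrix (Fin m) (Fin m) ℂ, (∀ χ ∈ K, C * e χ = e χ * C) → (∀ a b, v (C a b) ≤ 1) →
        ∃ f ∈ opSub ρ P,
          (∀ z ∈ fixedSub ρ ⁅P, P⁆, z ∈ latticeOf v ρ η → f z ∈ latticeOf v ρ η) ∧
          LinearMap.trace ℂ V f = C.trace) := by
  classical
  have : Fintype P := Fintype.ofFinite _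
  have : Fintype (P →* ℂˣ) := Fintype.ofFinite _
  have hKP : ⁅P, P⁆ ≤ P := Subgroup.commutator_le_self _
  have hprojU : ∀ (χ : P →* ℂˣ) (y : V), proj ρ P χ y ∈ fixedSub ρ ⁅P, P⁆ := by
    intro χ y k hk
    have h1 := rho_proj ρ P χ y ⟨k, hKP hk⟩
    rw [lin_commutator P χ k hk (hKP hk), Units.val_one, one_smul] at h1
    exact h1
  have hcomm : ∀ x : P, x ∈ commutator P → (x : G) ∈ ⁅P, P⁆ := by
    intro x hx
    have hKmap : ⁅P, P⁆ = (commutator P).map P.subtype := (Subgroup.map_subtype_commutator P).symm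
    rw [hKmap]
    exact ⟨x, hx, rfl⟩
  have hsumK : ∀ u ∈ fixedSub ρ ⁅P, P⁆, ∑ χ ∈ K, proj ρ P χ u = u := by
    intro u hu
    have h1 := sum_proj_eq ρ P u (fun x hx => hu _ (hcomm x hx))
    rw [← Finset.sum_subset (Finset.subset_univ K)] at h1
    · exact h1
    · intro χ _ hχ
      exact proj_eq_zero_of_notMem ρ P χ (fun h => hχ ((hK χ).2 h)) u
  have hpp : ∀ (χ : P →* ℂˣ) (y : V), proj ρ P χ (proj ρ P χ y) = proj ρ P χ y := fun χ y =>
    proj_eq_self ρ P χ _ (rho_proj ρ P χ y)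
  have hpq : ∀ (χ ψ : P →* ℂˣ) (y : V), χ ≠ ψ → proj ρ P χ (proj ρ P ψ y) = 0 := by
    intro χ ψ y hne
    obtain ⟨z, hz⟩ : ∃ z, χ z ≠ ψ z := by
      by_contra hcon
      push Not at hcon
      exact hne (MonoidHom.ext hcon)
    have h1 := proj_rho ρ P χ (proj ρ P ψ y) z
    rw [rho_proj, map_smul] at h1
    have h2 : (((χ z : ℂˣ) : ℂ) - ((ψ z : ℂˣ) : ℂ)) • proj ρ P χ (proj ρ P ψ y) = 0 := by
      rw [sub_smul, h1, sub_self]
    rcases smul_eq_zero.1 h2 with h3 | h3
    · exact absurd (Units.ext (sub_eq_zero.1 h3)) hz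
    · exact h3
  obtain ⟨m, b, c, hbU, hyb, hcb, hM⟩ := exists_integral_basis v (fun h : G => η ∘ₗ ρ h)
    (finrank ℂ (fixedSub ρ ⁅P, P⁆)) (fixedSub ρ ⁅P, P⁆) le_rfl (by
      intro y _ hy
      by_contra hy0
      obtain ⟨g, hg⟩ := exists_ne_zero ρ hρ η hη y hy0
      exact hg (hy g))
  have hLat : ∀ y ∈ fixedSub ρ ⁅P, P⁆, y ∈ latticeOf v ρ η ↔ ∀ j, v (c j y) ≤ 1 := hM
  have hML : IsLattice v ρ (latticeOf v ρ η) := isLattice_latticeOf v ρ η
  have hbL : ∀ k, b k ∈ latticeOf v ρ η := by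
    intro k
    rw [hLat _ (hbU k)]
    intro j
    rw [hcb]
    split_ifs <;> simp
  have hmatmul : ∀ S T : V →ₗ[ℂ] V, (∀ k, T (b k) ∈ fixedSub ρ ⁅P, P⁆) →
      (Matrix.of fun j k => c j (S (b k))) * (Matrix.of fun j k => c j (T (b k))) =
        (Matrix.of fun j k => c j (S (T (b k))) : Matrix (Fin m) (Fin m) ℂ) := by
    intro S T hT
    ext i k
    rw [Matrix.mul_apply]
    simp only [Matrix.of_apply]
    conv_rhs => rw [hyb _ (hT k)]
    simp only [map_sum, map_smul, smul_eq_mul]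
    exact Finset.sum_congr rfl fun l _ => mul_comm _ _
  have hrhoU : ∀ (x : P) (u : V), u ∈ fixedSub ρ ⁅P, P⁆ → ρ (x : G) u ∈ fixedSub ρ ⁅P, P⁆ := by
    intro x u hu
    rw [← hsumK u hu, map_sum]
    refine Submodule.sum_mem _ fun χ _ => ?_
    rw [rho_proj]
    exact Submodule.smul_mem _ _ (hprojU χ u)
  have hR : ∀ x : P, (∑ χ ∈ K, ((χ x : ℂˣ) : ℂ) •
      (Matrix.of fun j k => c j (proj ρ P χ (b k)) : Matrix (Fin m) (Fin m) ℂ)) =
      Matrix.of fun j k => c j (ρ (x : G) (b k)) := by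
    intro x
    ext i k
    rw [Matrix.sum_apply]
    simp only [Matrix.smul_apply, Matrix.of_apply, smul_eq_mul]
    conv_rhs => rw [← hsumK _ (hbU k)]
    simp only [map_sum, rho_proj, map_smul, smul_eq_mul]
  refine ⟨m, fun χ => Matrix.of fun j k => c j (proj ρ P χ (b k)), ?_, ?_, ?_, ?_, ?_⟩
  · intro χ _
    dsimp only
    rw [hmatmul _ _ (fun k => hprojU χ _)]
    ext i k
    simp only [Matrix.of_apply, hpp]
  · intro χ _ ψ _ hne
    dsimp only
    rw [hmatmul _ _ (fun k => hprojU ψ _)]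
    ext i k
    simp only [Matrix.of_apply, hpq χ ψ _ hne, map_zero, Matrix.zero_apply]
  · intro χ hχ h0
    obtain ⟨y, hy0, hy⟩ := (mem_Lin_iff ρ P χ).1 ((hK χ).1 hχ)
    have h1 : ∀ k, proj ρ P χ (b k) = 0 := by
      intro k
      rw [hyb _ (hprojU χ (b k))]
      refine Finset.sum_eq_zero fun j _ => ?_
      have h2 := congrFun (congrFun h0 j) k
      simp only [Matrix.of_apply, Matrix.zero_apply] at h2
      rw [h2, zero_smul]
    have hyU : y ∈ fixedSub ρ ⁅P, P⁆ := by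
      rw [← proj_eq_self ρ P χ y hy]
      exact hprojU χ y
    apply hy0
    rw [← proj_eq_self ρ P χ y hy, hyb y hyU, map_sum]
    refine Finset.sum_eq_zero fun j _ => ?_
    rw [map_smul, h1, smul_zero]
  · intro x i k
    have h1 := hR x
    dsimp only at h1 ⊢
    rw [h1, Matrix.of_apply]
    exact (hLat _ (hrhoU x _ (hbU k))).1 (hML.rho_mem _ _ (hbL k)) i
  · intro C hC hCv
    dsimp only at hC
    let A : V →ₗ[ℂ] V := ∑ χ ∈ K, proj ρ P χ
    have hA : ∀ z, A z = ∑ χ ∈ K, proj ρ P χ z := fun z => by simp [A, LinearMap.sum_apply]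
    have hAU : ∀ z, A z ∈ fixedSub ρ ⁅P, P⁆ := by
      intro z
      rw [hA]
      exact Submodule.sum_mem _ fun χ _ => hprojU χ z
    have hAself : ∀ z ∈ fixedSub ρ ⁅P, P⁆, A z = z := fun z hz => by rw [hA, hsumK z hz]
    have hArho : ∀ (x : P) (z : V), A (ρ (x : G) z) = ρ (x : G) (A z) := by
      intro x z
      rw [hA, hA, map_sum]
      exact Finset.sum_congr rfl fun χ _ => by rw [proj_rho, rho_proj]
    let f : V →ₗ[ℂ] V := ∑ j, ∑ k, C j k • ((c k).comp A).smulRight (b j)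
    have hf : ∀ z, f z = ∑ j, (∑ k, C j k * c k (A z)) • b j := by
      intro z
      simp only [f, LinearMap.sum_apply, LinearMap.smul_apply, LinearMap.smulRight_apply,
        LinearMap.comp_apply, smul_smul, Finset.sum_smul]
    have hfU : ∀ z, f z ∈ fixedSub ρ ⁅P, P⁆ := by
      intro z
      rw [hf]
      exact Submodule.sum_mem _ fun j _ => Submodule.smul_mem _ _ (hbU j)
    have hcf : ∀ z i, c i (f z) = ∑ k, C i k * c k (A z) := by
      intro z i
      rw [hf]
      simp only [map_sum, map_smul, hcb, smul_eq_mul, mul_ite, mul_one, mul_zero]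
      rw [Finset.sum_ite_eq Finset.univ i]
      simp
    have hCR : ∀ x : P, C * (Matrix.of fun j k => c j (ρ (x : G) (b k)) : Matrix (Fin m) (Fin m) ℂ) =
        (Matrix.of fun j k => c j (ρ (x : G) (b k))) * C := by
      intro x
      rw [← hR x, Finset.mul_sum, Finset.sum_mul]
      refine Finset.sum_congr rfl fun χ hχ => ?_
      rw [Matrix.mul_smul, Matrix.smul_mul, hC χ hχ]
    have hcrho : ∀ (x : P) (u : V), u ∈ fixedSub ρ ⁅P, P⁆ → ∀ k,
        c k (ρ (x : G) u) = ∑ l, c k (ρ (x : G) (b l)) * c l u := by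
      intro x u hu k
      conv_lhs => rw [hyb u hu]
      simp only [map_sum, map_smul, smul_eq_mul]
      exact Finset.sum_congr rfl fun l _ => mul_comm _ _
    refine ⟨f, ⟨?_, hfU⟩, ?_, ?_⟩
    · intro x hx z
      have hx' := hyb _ (hrhoU ⟨x, hx⟩ _ (hfU z))
      have hy' := hyb _ (hfU (ρ x z))
      change f (ρ x z) = _ at hy'
      refine hy'.trans (Eq.trans ?_ hx'.symm)
      refine Finset.sum_congr rfl fun i _ => ?_
      congr 1
      have e1 : c i (f (ρ x z)) = ∑ l, (∑ k, C i k * c k (ρ x (b l))) * c l (A z) := by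
        rw [hcf]
        have e2 : ∀ k, c k (A (ρ x z)) = ∑ l, c k (ρ x (b l)) * c l (A z) := by
          intro k
          rw [show A (ρ x z) = ρ x (A z) from hArho ⟨x, hx⟩ z]
          exact hcrho ⟨x, hx⟩ _ (hAU z) k
        simp only [e2, Finset.mul_sum, Finset.sum_mul]
        rw [Finset.sum_comm]
        exact Finset.sum_congr rfl fun l _ => Finset.sum_congr rfl fun k _ => by ring
      have e3 : c i (ρ x (f z)) = ∑ l, (∑ k, c i (ρ x (b k)) * C k l) * c l (A z) := by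
        rw [show c i (ρ x (f z)) = _ from hcrho ⟨x, hx⟩ _ (hfU z) i]
        simp only [hcf, Finset.mul_sum, Finset.sum_mul]
        rw [Finset.sum_comm]
        exact Finset.sum_congr rfl fun l _ => Finset.sum_congr rfl fun k _ => by ring
      have e4 : ∀ l, (∑ k, C i k * c k (ρ x (b l))) = ∑ k, c i (ρ x (b k)) * C k l := by
        intro l
        have := congrFun (congrFun (hCR ⟨x, hx⟩) i) l
        simpa [Matrix.mul_apply] using this
      show c i (f (ρ x z)) = c i (ρ x (f z))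
      rw [e1, e3]
      exact Finset.sum_congr rfl fun l _ => by rw [e4 l]
    · intro z hz hzL
      rw [hLat _ (hfU z)]
      intro i
      rw [hcf, hAself z hz]
      refine val_sum_le v _ _ _ fun k _ => ?_
      rw [map_mul]
      exact mul_le_one' (hCv i k) ((hLat z hz).1 hzL k)
    · simp only [f, map_sum, map_smul, LinearMap.trace_smulRight, LinearMap.comp_apply]
      rw [Matrix.trace]
      refine Finset.sum_congr rfl fun j _ => ?_
      simp only [hAself _ (hbU j), hcb, smul_eq_mul, Matrix.diag_apply]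
      simp

end Pool.Agent.H.MP_7d3ffc_al
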