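import Mathlib
import Pool.Agent.H.MP_7d3ffc_al.GLL.Gll
import Pool.Agent.H.MP_7d3ffc_al.GLL.Dual
import Pool.Agent.H.MP_7d3ffc_al.GLL.Model

/-!
The main theorem.
-/

namespace Pool.Agent.H.MP_7d3ffc_al

open Finset Module
open scoped Pointwise commutatorElement

variable {G : Type*} [Group G] {V : Type*} [AddCommGroup V] [Module ℂ V]

theorem Main_val_mul_sq_le {Γ₀ : Type*} [LinearOrderedCommGroupWithZero Γ₀] (v : Valuation ℂ Γ₀)
    {n : Type*} [Fintype n] [DecidableEq n] (β S : Matrix n n ℂ) (q : Γ₀)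
    (h1 : ∀ a b, v (β a b) ^ 2 ≤ q) (h2 : ∀ a b, v (S a b) ≤ 1) (a b : n) :
    v ((β * S) a b) ^ 2 ≤ q := by
  rw [Matrix.mul_apply]
  obtain ⟨c, _, hc⟩ := Finset.exists_max_image univ (fun c => v (β a c * S c b)) ⟨a, mem_univ a⟩
  have h3 : v (∑ j, β a j * S j b) ≤ v (β a c * S c b) :=
    v.map_sum_le fun j hj => hc j hj
  calc v (∑ j, β a j * S j b) ^ 2 ≤ v (β a c * S c b) ^ 2 := pow_le_pow_left' h3 2
    _ = v (β a c) ^ 2 * v (S c b) ^ 2 := by rw [map_mul, mul_pow]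
    _ ≤ q * 1 := mul_le_mul' (h1 a c) (pow_le_one' (h2 c b) 2)
    _ = q := mul_one q

/-- The main theorem for `p`-subgroups.

Proof. Suppose `|Lin| < p`. Take `v = B.valuation` from `exists_valuation p`, a functional `η ≠ 0` and
`K = (Lin ρ P).toFinset`, and the matrices `e χ` of `exists_matrix_model`. For integral `C` commuting
with the `e χ`, `v (tr C) ^ 2 ≤ v p` by `val_trace_sq_le`. So `exists_dual_matrix` with `q = v p` gives
`β`. Let `E χ = β * e χ`: `E χ * E χ = β (e χ β e χ) = E χ`, and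
`∑ χ(x) E χ = β * ∑ χ(x) e χ` has entries with `v ^ 2 ≤ v p`. So `GHyp v p K E` and `gll` gives
`E χ = 0`, `e χ = e χ β e χ = e χ E χ = 0` for `χ ∈ K`, a contradiction. -/
theorem card_lin_ge [Finite G] [FiniteDimensional ℂ V] {p : ℕ} [Fact p.Prime]
    (P : Subgroup G) (hP : IsPGroup p P) (ρ : Representation ℂ G V) (hρ : ρ.IsIrreducible)
    (h : ∀ g : G, 1 + padicValNat p P.index +
      padicValNat p ((MulAut.conj g • P).relIndex ⁅P, P⁆) +
      padicValNat p ((MulAut.conj g⁻¹ • P).relIndex ⁅P, P⁆) ≤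
      padicValNat p (finrank ℂ V) + padicValNat p ((MulAut.conj g • P).relIndex P))
    (hne : (Lin ρ P).Nonempty) : p ≤ (Lin ρ P).ncard := by
  classical
  by_contra hlt
  push Not at hlt
  have hp : p.Prime := Fact.out
  obtain ⟨B, hB⟩ := exists_valuation p hp
  have : Fintype (P →* ℂˣ) := Fintype.ofFinite _
  obtain ⟨lam, hlam⟩ := hne
  obtain ⟨y, hy0, _⟩ := (mem_Lin_iff ρ _ lam).mp hlam
  obtain ⟨η, hη⟩ : ∃ η : Module.Dual ℂ V, η y ≠ 0 := by
    by_contra h
    push Not at h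
    exact hy0 ((Module.forall_dual_apply_eq_zero_iff ℂ y).mp h)
  have hη0 : η ≠ 0 := by
    rintro rfl
    exact hη rfl
  obtain ⟨m, e, he1, he2, he3, he4, he5⟩ := exists_matrix_model B.valuation ρ hρ η hη0 P
    (Lin ρ P).toFinset (fun χ => Set.mem_toFinset)
  obtain ⟨β, hβ1, hβ2⟩ := exists_dual_matrix B.valuation (Lin ρ P).toFinset e he1 he2
    (B.valuation (p : ℂ)) (by
      intro C hC1 hC2
      obtain ⟨f, hf1, hf2, hf3⟩ := he5 C hC1 hC2
      rw [← hf3]
      exact val_trace_sq_le B.valuation hB P ρ hρ h η hη0 f hf1 hf2)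
  have hG : GHyp B.valuation p (Lin ρ P).toFinset (fun χ => β * e χ) := by
    refine ⟨fun χ hχ => ?_, fun x a b => ?_⟩
    · show β * e χ * (β * e χ) = β * e χ
      rw [Matrix.mul_assoc, ← Matrix.mul_assoc (e χ), hβ2 χ hχ]
    · have h1 : (∑ χ ∈ (Lin ρ P).toFinset, ((χ x : ℂˣ) : ℂ) • (β * e χ))
          = β * ∑ χ ∈ (Lin ρ P).toFinset, ((χ x : ℂˣ) : ℂ) • e χ := by
        rw [Matrix.mul_sum]
        exact Finset.sum_congr rfl fun χ _ => (Matrix.mul_smul _ _ _).symm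
      show B.valuation ((∑ χ ∈ (Lin ρ P).toFinset, ((χ x : ℂˣ) : ℂ) • (β * e χ)) a b) ^ 2 ≤ _
      rw [h1]
      exact Main_val_mul_sq_le B.valuation β _ _ hβ1 (he4 x) a b
  have hcard : (Lin ρ P).toFinset.card < p := by
    rwa [← Set.ncard_eq_toFinset_card']
  have h0 := gll B.valuation hB hP hG hcard lam (Set.mem_toFinset.mpr hlam)
  apply he3 lam (Set.mem_toFinset.mpr hlam)
  have h2 := hβ2 lam (Set.mem_toFinset.mpr hlam)
  rw [Matrix.mul_assoc, h0, Matrix.mul_zero] at h2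
  exact h2.symm

/-- The hypothesis of `card_lin_ge` holds for a Sylow `p`-subgroup `P` such that `p` and `|P'|`
divide `χ(1)`.

Proof: `P.index` is prime to `p`. Let `K = ⁅P, P⁆`, `a = v_p(χ(1)) ≥ 1`, `p ^ a` is divisible by `|K|`.
If `MulAut.conj g • P = P` all relative indices are `1`. Otherwise
`|P : P ∩ gPg⁻¹| = |P : K (P ∩ gPg⁻¹)| |K : K ∩ gPg⁻¹|` and `K (P ∩ gPg⁻¹) ≠ P`, so
`1 + d₁ ≤ s`, and `d₂ ≤ v_p |K| ≤ a`. (See `dvd_of_card_commutator_dvd` in `PGroup.lean`, which is nearly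
the same statement in terms of divisibility; convert with `padicValNat`.) -/
theorem hyp_of_card_dvd [Finite G] {p : ℕ} [Fact p.Prime] (P : Sylow p G) (N : ℕ) (hN : N ≠ 0)
    (hp : p ∣ N)
    (hc : Nat.card (⁅(P : Subgroup G), (P : Subgroup G)⁆ : Subgroup G) ∣ N) (g : G) :
    1 + padicValNat p (P : Subgroup G).index +
      padicValNat p ((MulAut.conj g • (P : Subgroup G)).relIndex ⁅(P : Subgroup G), P⁆) +
      padicValNat p ((MulAut.conj g⁻¹ • (P : Subgroup G)).relIndex ⁅(P : Subgroup G), P⁆) ≤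
      padicValNat p N + padicValNat p ((MulAut.conj g • (P : Subgroup G)).relIndex P) := by
  have h1 := dvd_of_card_commutator_dvd (P : Subgroup G) P.isPGroup' N hp hc g
  have hne : ∀ H K : Subgroup G, H.relIndex K ≠ 0 := fun H K =>
    Subgroup.FiniteIndex.index_ne_zero
  have hp0 : p ≠ 0 := (Fact.out : p.Prime).ne_zero
  have h2 : N * (MulAut.conj g • (P : Subgroup G)).relIndex P ≠ 0 := mul_ne_zero hN (hne _ _)
  have h3 := (padicValNat_dvd_iff_le (p := p) h2).mp (pow_padicValNat_dvd.trans h1)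
  rw [padicValNat.mul hp0 (mul_ne_zero (hne _ _) (hne _ _)), padicValNat.mul (hne _ _) (hne _ _),
    padicValNat.mul hN (hne _ _), padicValNat_self] at h3
  have h4 : padicValNat p (P : Subgroup G).index = 0 :=
    padicValNat.eq_zero_of_not_dvd P.not_dvd_index
  rw [h4]
  omega

end Pool.Agent.H.MP_7d3ffc_al
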